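import Pool.Agent.Lib.MP_67d80e_pr.Props

set_option autoImplicit false
set_option linter.unusedSectionVars false

open scoped BigOperators ENNReal NNReal
open Filter MeasureTheory Topology

namespace Pool.Agent.Lib.MP_67d80e_pr

variable {d : ℕ}

section
variable {i0 : Fin d} {μ : Measure (Conf d)} {U : Ultrafilter ℕ} (hμ : IsLim i0 μ U)
include hμ

/-- the counter and the picked site of the exploration with values -/
noncomputable def kA (i0 : Fin d) (w : List (Site d)) : ℕ := (st i0 0 (2 * (d - 1)) w).1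

noncomputable def yA (i0 : Fin d) (w : List (Site d)) : Site d :=
  pick (st i0 0 (2 * (d - 1)) w).2

/-- the counter and the picked site of the exploration in the direction `i0` -/
noncomputable def kB (i0 : Fin d) (w : List (Site d)) : ℕ := (st i0 (e i0) (2 * (d - 1)) w).1

noncomputable def yB (i0 : Fin d) (w : List (Site d)) : Site d :=
  pick (st i0 (e i0) (2 * (d - 1)) w).2

/-- the positive part of the difference of the two strategies -/
noncomputable def gapF (i0 : Fin d) (w : List (Site d)) : Fn d :=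
  fun g => max ((kA i0 w : ℝ) + g (yA i0 w) - g (yB i0 w)) 0

lemma gapF_local (w : List (Site d)) : IsLocal (gapF i0 w) :=
  ⟨{yA i0 w, yB i0 w}, fun g h hgh => by
    unfold gapF
    rw [hgh (yA i0 w) (by simp), hgh (yB i0 w) (by simp)]⟩

omit hμ in
lemma act_ge (hd : 2 ≤ d) (w : List (Site d)) (g : Conf d) :
    (g (yB i0 w) : ℝ) + gapF i0 w g ≤ act w g 0 := by
  have hT : 1 ≤ 2 * (d - 1) := by omega
  have h1 := pick_le (i0 := i0) (τ := 0) hT (r := 1) (Or.inl ⟨rfl, rfl⟩) w g
  have h2 := pick_le (i0 := i0) (τ := e i0) hT (r := 0) (Or.inr ⟨rfl, rfl⟩) w g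
  have h3 : ((kA i0 w : ℤ) + g (yA i0 w) : ℝ) ≤ act w g 0 := by
    have : (kA i0 w : ℤ) + g (yA i0 w) ≤ act w g 0 := by simpa [kA, yA] using h1
    exact_mod_cast this
  have h4 : (g (yB i0 w) : ℝ) ≤ act w g 0 := by
    have : g (yB i0 w) ≤ act w g 0 := by simpa [yB] using h2
    exact_mod_cast this
  unfold gapF
  rcases max_cases ((kA i0 w : ℝ) + g (yA i0 w) - g (yB i0 w)) 0 with ⟨h5, -⟩ | ⟨h5, -⟩
  · rw [h5]
    push_cast at h3
    linarith
  · rw [h5]
    linarith

/-- the growth inequality in the limit, truncated -/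
lemma limit_growth_trunc (hd : 2 ≤ d) {l : ℝ} (hl : 0 < l) (R I K : ℕ) :
    W R I (fun w => (yB i0 w i0 : ℝ) + ∫ g, min (gapF i0 w g) K ∂μ) ≤
      growC d l / l * (I / (box d R).card) := by
  have hB : (0 : ℝ) < (box d R).card := by exact_mod_cast card_box_pos (d := d) R
  -- the inequality along the sequence
  have h1 : ∀ᶠ N in (U : Filter ℕ), W R I (fun w => (yB i0 w i0 : ℝ) +
      cesN i0 N (fun h => min (gapF i0 w (recenter h)) K)) ≤
      growC d l / l * (I / (box d R).card + (I : ℝ) ^ 2 / ((box d R).card ^ 2 * (N + 1))) := by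
    have h2 : ∀ᶠ N in (U : Filter ℕ), 2 * R ≤ N := hμ.le (eventually_ge_atTop (2 * R))
    filter_upwards [h2] with N hN
    have h3 := ces_growth (N + 1) hl i0 (R := R) (by omega) (JN_pos d N) I 0
    have hT : (0 : ℝ) < nT d (N + 1) := by exact_mod_cast nT_pos (d := d) (N + 1)
    have h4 : (I : ℝ) ^ 2 * nT d (N + 1) / ((box d R).card ^ 2 * (JN d N : ℕ)) =
        (I : ℝ) ^ 2 / ((box d R).card ^ 2 * (N + 1)) := by
      unfold JN
      push_cast
      field_simp
    rw [h4] at h3
    refine le_trans ?_ h3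
    have h5 : (fun g => W R I (fun w => ((g (yB i0 w) : ℝ) - g 0) +
        min (gapF i0 w (recenter g)) K) : Fn d) ≤ (PB d R ^ I) (hgt 0) - hgt 0 := by
      intro g
      rw [Pi.sub_apply, PB_pow_apply]
      have h6 : W R I (fun w => hgt 0 (act w g)) - hgt 0 g =
          W R I ((fun w => hgt 0 (act w g)) - (fun _ => hgt 0 g)) := by
        rw [map_sub, W_const]
      rw [h6]
      refine W_mono R I fun w => ?_
      have h7 := act_ge (i0 := i0) hd w g
      have h8 : gapF i0 w (recenter g) = gapF i0 w g := by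
        unfold gapF recenter
        push_cast
        congr 1
        ring
      have h9 := min_le_left (gapF i0 w g) (K : ℝ)
      simp only [Pi.sub_apply, hgt]
      rw [h8]
      linarith
    refine le_trans (le_of_eq ?_) (cesN_mono i0 N h5)
    rw [W_exchange]
    congr 1
    ext w
    have h6 : (fun g => ((g (yB i0 w) : ℝ) - g 0) + min (gapF i0 w (recenter g)) K : Fn d) =
        (hgt (yB i0 w) - hgt 0) + (fun g => min (gapF i0 w (recenter g)) K) := rfl
    rw [h6, map_add]
    have h7 := ces_hgt_sub (N + 1) i0 (JN_pos d N) (yB i0 w)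
    unfold cesN
    rw [h7]
  -- the limit
  have h2 : Tendsto (fun N => W R I (fun w => (yB i0 w i0 : ℝ) +
      cesN i0 N (fun h => min (gapF i0 w (recenter h)) K))) U
      (𝓝 (W R I (fun w => (yB i0 w i0 : ℝ) + ∫ g, min (gapF i0 w g) K ∂μ))) := by
    refine W_tendsto R I fun w => ?_
    refine Tendsto.const_add _ ?_
    refine hμ.lim (fun g => min (gapF i0 w g) K) ?_ ?_
    · obtain ⟨S, hS⟩ := gapF_local hμ w
      exact ⟨S, fun g h hgh => by simp only; rw [hS g h hgh]⟩
    · refine ⟨K, fun h => ?_⟩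
      rw [abs_of_nonneg (le_min (le_max_right _ _) (Nat.cast_nonneg K))]
      exact min_le_right _ _
  have h3 : Tendsto (fun N : ℕ => growC d l / l * ((I : ℝ) / (box d R).card +
      (I : ℝ) ^ 2 / ((box d R).card ^ 2 * (N + 1)))) U
      (𝓝 (growC d l / l * (I / (box d R).card + 0))) := by
    refine Tendsto.const_mul _ (Tendsto.const_add _ ?_)
    refine Tendsto.mono_left ?_ hμ.le
    have h4 : Tendsto (fun N : ℕ => (I : ℝ) ^ 2 / (box d R).card ^ 2 * (1 / ((N : ℝ) + 1))) atTop
        (𝓝 ((I : ℝ) ^ 2 / (box d R).card ^ 2 * 0)) :=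
      tendsto_one_div_add_atTop_nhds_zero_nat.const_mul _
    rw [mul_zero] at h4
    refine h4.congr fun N => ?_
    rw [div_mul_div_comm, mul_one]
  have h4 := le_of_tendsto_of_tendsto h2 h3 h1
  rwa [add_zero] at h4

/-- the growth inequality in the limit -/
lemma limit_growth (hd : 2 ≤ d) {l : ℝ} (hl : 0 < l) (R I : ℕ) :
    W R I (fun w => (kA i0 w : ℝ)) +
      (1 - ∫ g, (g (e i0) : ℝ) ∂μ) * W R I (fun w => (kB i0 w : ℝ)) ≤
      growC d l / l * (I / (box d R).card) := by
  have hT : 1 ≤ 2 * (d - 1) := by omega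
  have := hμ.prob
  have hint : ∀ w, Integrable (fun g : Conf d => (kA i0 w : ℝ) + g (yA i0 w) - g (yB i0 w)) μ :=
    fun w => ((integrable_const _).add (integrable_hgt hμ _)).sub (integrable_hgt hμ _)
  have h1 : Tendsto (fun K : ℕ => W R I (fun w => (yB i0 w i0 : ℝ) +
      ∫ g, min (gapF i0 w g) K ∂μ)) atTop
      (𝓝 (W R I (fun w => (yB i0 w i0 : ℝ) + ∫ g, gapF i0 w g ∂μ))) := by
    refine W_tendsto R I fun w => ?_
    refine Tendsto.const_add _ ?_
    have hg : Integrable (gapF i0 w) μ := (hint w).pos_part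
    refine tendsto_integral_of_dominated_convergence (gapF i0 w) (fun K => ?_) hg (fun K => ?_) ?_
    · exact ((gapF_local hμ w).measurable.min measurable_const).aestronglyMeasurable
    · refine Filter.Eventually.of_forall fun g => ?_
      have h0 : 0 ≤ gapF i0 w g := le_max_right _ _
      rw [Real.norm_eq_abs, abs_of_nonneg (le_min h0 (Nat.cast_nonneg K))]
      exact min_le_left _ _
    · refine Filter.Eventually.of_forall fun g => ?_
      obtain ⟨K0, hK0⟩ := exists_nat_ge (gapF i0 w g)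
      refine tendsto_const_nhds.congr' ?_
      filter_upwards [eventually_ge_atTop K0] with K hK
      rw [min_eq_left]
      exact hK0.trans (by exact_mod_cast hK)
  have h2 := le_of_tendsto h1 (Filter.Eventually.of_forall fun K =>
    limit_growth_trunc hμ hd hl R I K)
  refine le_trans ?_ h2
  have h3 : W R I (fun w => (kA i0 w : ℝ)) +
      (1 - ∫ g, (g (e i0) : ℝ) ∂μ) * W R I (fun w => (kB i0 w : ℝ)) =
      W R I ((fun w => (kA i0 w : ℝ)) +
        (1 - ∫ g, (g (e i0) : ℝ) ∂μ) • (fun w => (kB i0 w : ℝ))) := by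
    rw [map_add, map_smul, smul_eq_mul]
  rw [h3]
  refine W_mono R I fun w => ?_
  have hA : yA i0 w i0 = 0 := by
    have := pick_coord (i0 := i0) (τ := 0) hT w
    simpa [yA] using this
  have hBc : yB i0 w i0 = kB i0 w := by
    have := pick_coord (i0 := i0) (τ := e i0) hT w
    rw [e_apply_self, mul_one] at this
    exact this
  have h4 : ∫ g, ((kA i0 w : ℝ) + g (yA i0 w) - g (yB i0 w)) ∂μ ≤ ∫ g, gapF i0 w g ∂μ :=
    integral_mono (hint w) (hint w).pos_part fun g => le_max_left _ _
  have e1 : Integrable (fun g : Conf d => (kA i0 w : ℝ) + g (yA i0 w)) μ :=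
    (integrable_const _).add (integrable_hgt hμ _)
  have h5 : ∫ g, ((kA i0 w : ℝ) + g (yA i0 w) - g (yB i0 w)) ∂μ =
      kA i0 w + ∫ g, (g (yA i0 w) : ℝ) ∂μ - ∫ g, (g (yB i0 w) : ℝ) ∂μ := by
    rw [integral_sub e1 (integrable_hgt hμ _),
      integral_add (integrable_const _) (integrable_hgt hμ _)]
    simp
  rw [h5, integral_hgt hμ (yA i0 w), integral_hgt hμ (yB i0 w), hA, hBc] at h4
  simp only [Pi.add_apply, Pi.smul_apply, smul_eq_mul]
  rw [hBc]
  push_cast at h4 ⊢
  linarith

/-- the slope is positive as soon as the exploration beats the branching bound -/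
theorem slope_pos (hd : 2 ≤ d) {l : ℝ} (hl : 0 < l)
    (hcrit : growC d l / l < 2 * spd (2 * (d - 1))) : 0 < ∫ g, (g (e i0) : ℝ) ∂μ := by
  by_contra hcon
  rw [not_lt] at hcon
  have hT : 1 ≤ 2 * (d - 1) := by omega
  set c := spd (2 * (d - 1)) with hc
  have hc0 : 0 < c := spd_pos hT
  set G := growC d l / l with hG
  set a : ℝ := ((2 * (d - 1) : ℕ) + (2 * (d - 1) : ℕ) * (2 * (d - 1) : ℕ)) with ha
  have ha0 : 0 ≤ a := by positivity
  set δ : ℝ := 2 * c - G with hδ
  have hδ0 : 0 < δ := by linarith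
  -- the time horizon
  set T : ℝ := (2 * (c + 1) + 1) / δ with hTdef
  have hT0 : 0 < T := by positivity
  have hTδ : δ * T = 2 * (c + 1) + 1 := by rw [hTdef]; field_simp
  obtain ⟨R, hR⟩ := exists_nat_gt (2 * c * (T + 1) * ((T + 1) * a) + 1)
  have hR1 : (1 : ℝ) < R := by
    have : 0 ≤ 2 * c * (T + 1) * ((T + 1) * a) := by positivity
    linarith
  have hR0 : 0 < R := by
    have : (0 : ℝ) < R := by linarith
    exact_mod_cast this
  set m : ℝ := ((box d R).card : ℝ) with hm
  have hm1 : (1 : ℝ) ≤ m := by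
    have : 1 ≤ (box d R).card := card_box_pos R
    rw [hm]; exact_mod_cast this
  set I : ℕ := ⌈T * m⌉₊ with hI
  set t : ℝ := I / m with ht
  have ht1 : T ≤ t := by
    rw [ht, le_div_iff₀ (by linarith)]
    exact Nat.le_ceil _
  have ht2 : t ≤ T + 1 := by
    rw [ht, div_le_iff₀ (by linarith)]
    have := Nat.ceil_lt_add_one (show 0 ≤ T * m by positivity)
    linarith
  have h1 := limit_growth hμ hd hl R I
  have hA := W_count_ge (i0 := i0) (τ := 0) hd (Or.inl rfl) hR0 I
  have hB := W_count_ge (i0 := i0) (τ := e i0) hd (Or.inr rfl) hR0 I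
  rw [← ha, ← hc, ← hm] at hA hB
  change _ ≤ W R I (fun w => (kA i0 w : ℝ)) at hA
  change _ ≤ W R I (fun w => (kB i0 w : ℝ)) at hB
  rw [← hG, ← hm, ← ht] at h1
  rw [← ht] at hA hB
  have h2 : (I : ℝ) * (a / m) / R = t * a / R := by rw [ht]; ring
  rw [h2] at hA hB
  have hkB : 0 ≤ W R I (fun w => (kB i0 w : ℝ)) := W_nonneg R I fun w => Nat.cast_nonneg _
  have h3 : W R I (fun w => (kB i0 w : ℝ)) ≤
      (1 - ∫ g, (g (e i0) : ℝ) ∂μ) * W R I (fun w => (kB i0 w : ℝ)) := by
    nlinarith
  have h4 : c * t * (1 - t * a / R) ≥ c * t - c * (T + 1) * ((T + 1) * a) / R := by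
    have h5 : c * t * (t * a / R) ≤ c * (T + 1) * ((T + 1) * a) / R := by
      rw [mul_div_assoc']
      apply div_le_div_of_nonneg_right _ (by linarith : (0 : ℝ) ≤ R)
      have ht0 : 0 ≤ t := hT0.le.trans ht1
      gcongr
    linarith
  have h5 : 2 * (c * (T + 1) * ((T + 1) * a) / R) < 1 := by
    rw [← mul_div_assoc, div_lt_one (by linarith)]
    linarith
  have h6 : G * t = 2 * c * t - δ * t := by rw [hδ]; ring
  have h7 : δ * T ≤ δ * t := mul_le_mul_of_nonneg_left ht1 hδ0.le
  linarith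

end

end Pool.Agent.Lib.MP_67d80e_pr
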