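import Pool.Agent.Lib.MP_67d80e_pr.Sym
import Pool.Agent.Lib.MP_67d80e_pr.Slope

set_option autoImplicit false
set_option linter.unusedSectionVars false

open scoped BigOperators ENNReal NNReal
open Filter MeasureTheory Topology

namespace Pool.Agent.Lib.MP_67d80e_pr

variable {d : ℕ}

/-- the truncated slope in the direction `i0` -/
noncomputable def clampS (i0 : Fin d) (K : ℕ) (v : Fin d → ℤ) : ℝ :=
  max (-(K : ℝ)) (min (K : ℝ) (v i0 : ℝ))

lemma abs_clampS_le (i0 : Fin d) (K : ℕ) (v : Fin d → ℤ) : |clampS i0 K v| ≤ K := by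
  have hK : (0 : ℝ) ≤ K := Nat.cast_nonneg K
  unfold clampS
  rw [abs_le]
  exact ⟨le_max_left _ _, max_le (by linarith) (min_le_left _ _)⟩

lemma abs_clampS_le' (i0 : Fin d) (K : ℕ) (v : Fin d → ℤ) : |clampS i0 K v| ≤ |(v i0 : ℝ)| := by
  have hK : (0 : ℝ) ≤ K := Nat.cast_nonneg K
  unfold clampS
  rw [abs_le]
  constructor
  · refine le_trans ?_ (le_max_right _ _)
    exact le_min (by linarith [abs_nonneg (v i0 : ℝ)]) (neg_abs_le _)
  · refine max_le (by linarith [abs_nonneg (v i0 : ℝ)]) ((min_le_right _ _).trans (le_abs_self _))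

lemma clampS_neg (i0 : Fin d) (K : ℕ) (v w : Fin d → ℤ) (h : w i0 = - v i0) :
    clampS i0 K w = - clampS i0 K v := by
  have hK : (0 : ℝ) ≤ K := Nat.cast_nonneg K
  unfold clampS
  rw [h]
  push_cast
  rcases le_total (v i0 : ℝ) K with h1 | h1
  · rcases le_total (-(K : ℝ)) (v i0) with h2 | h2
    · rw [min_eq_right h1, max_eq_right h2, min_eq_right (by linarith : -(v i0 : ℝ) ≤ K),
        max_eq_right (by linarith : -(K : ℝ) ≤ -(v i0 : ℝ))]
    · rw [min_eq_right h1, max_eq_left h2, min_eq_left (by linarith : (K : ℝ) ≤ -(v i0 : ℝ)),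
        max_eq_right (by linarith : -(K : ℝ) ≤ K)]
      ring
  · rw [min_eq_left h1, max_eq_right (by linarith : -(K : ℝ) ≤ K),
      min_eq_right (by linarith : -(v i0 : ℝ) ≤ K), max_eq_left (by linarith)]

/-- averages of a kernel which are bounded below force large values far from the diagonal -/
lemma exists_far (c : ℕ → ℕ → ℝ) {V C : ℝ} (hV : 0 < V) (hC : ∀ j k, c j k ≤ C)
    (hsum : ∀ n : ℕ, V * n ^ 2 ≤ ∑ j ∈ Finset.range n, ∑ k ∈ Finset.range n, c j k) (R : ℕ) :
    ∃ j k : ℕ, (j + R ≤ k ∨ k + R ≤ j) ∧ V / 2 ≤ c j k := by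
  by_contra hcon
  push Not at hcon
  have hC0 : 0 ≤ C := by
    have h1 := hsum 1
    simp only [Nat.cast_one, one_pow, mul_one, Finset.range_one, Finset.sum_singleton] at h1
    linarith [hC 0 0]
  obtain ⟨n, hn⟩ := exists_nat_gt (4 * R * C / V)
  have hn0 : (0 : ℝ) < n := lt_of_le_of_lt (by positivity) hn
  have h1 : ∀ j ∈ Finset.range n, ∑ k ∈ Finset.range n, c j k ≤ n * (V / 2) + 2 * R * C := by
    intro j _
    have h2 : ∀ k ∈ Finset.range n, c j k ≤
        V / 2 + if k ∈ Finset.Ico (j + 1 - R) (j + R) then C else 0 := by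
      intro k _
      by_cases hk : k ∈ Finset.Ico (j + 1 - R) (j + R)
      · rw [if_pos hk]
        linarith [hC j k]
      · rw [if_neg hk, add_zero]
        refine (hcon j k ?_).le
        rw [Finset.mem_Ico] at hk
        omega
    refine (Finset.sum_le_sum h2).trans ?_
    rw [Finset.sum_add_distrib, Finset.sum_const, Finset.card_range, nsmul_eq_mul,
      ← Finset.sum_filter, Finset.sum_const, nsmul_eq_mul]
    have h3 : ((Finset.range n).filter (fun k => k ∈ Finset.Ico (j + 1 - R) (j + R))).card ≤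
        2 * R := by
      refine (Finset.card_le_card (t := Finset.Ico (j + 1 - R) (j + R)) ?_).trans ?_
      · intro k hk
        exact (Finset.mem_filter.1 hk).2
      · rw [Nat.card_Ico]
        omega
    have h4 : ((((Finset.range n).filter
        (fun k => k ∈ Finset.Ico (j + 1 - R) (j + R))).card : ℕ) : ℝ) ≤ 2 * R := by
      exact_mod_cast h3
    have := mul_le_mul_of_nonneg_right h4 hC0
    linarith
  have h5 := (hsum n).trans (Finset.sum_le_sum h1)
  rw [Finset.sum_const, Finset.card_range, nsmul_eq_mul] at h5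
  rw [div_lt_iff₀ hV] at hn
  nlinarith [mul_pos hn0 hV]

lemma sact_one (g : Conf d) : sact ((1, 1) : SymG d) g = g := by
  ext x
  unfold sact
  congr 1
  ext i
  simp [sg, signedPerm]

section
variable {μ : Measure (Conf d)} [hp : IsProbabilityMeasure μ]

lemma sq_integral_le {f : Fn d} (hf : IsLocal f) (hb : IsBdd f) :
    (∫ g, f g ∂μ) ^ 2 ≤ ∫ g, f g ^ 2 ∂μ := by
  set m := ∫ g, f g ∂μ with hm
  have hi : Integrable f μ := hf.integrable hb μ
  have hi2 : Integrable (fun g => f g ^ 2) μ := by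
    refine IsLocal.integrable ?_ ?_ μ
    · obtain ⟨S, hS⟩ := hf
      exact ⟨S, fun g h hgh => by simp only; rw [hS g h hgh]⟩
    · obtain ⟨C, hC⟩ := hb
      refine ⟨C ^ 2, fun h => ?_⟩
      rw [abs_pow]
      exact pow_le_pow_left₀ (abs_nonneg _) (hC h) 2
  have h1 : 0 ≤ ∫ g, (f g - m) ^ 2 ∂μ := integral_nonneg fun g => sq_nonneg _
  have h2 : ∫ g, (f g - m) ^ 2 ∂μ = ∫ g, f g ^ 2 ∂μ - 2 * m * m + m ^ 2 := by
    have h3 : (fun g => (f g - m) ^ 2 : Fn d) = fun g => (f g ^ 2 - (2 * m) * f g) + m ^ 2 := by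
      ext g; ring
    have h4 : Integrable (fun g => f g ^ 2 - (2 * m) * f g) μ := hi2.sub (hi.const_mul _)
    rw [h3, integral_add h4 (integrable_const _),
      integral_sub hi2 (hi.const_mul _), integral_const_mul, integral_const, ← hm]
    simp
  rw [h2] at h1
  nlinarith

lemma grad_recenter_trans (g : Conf d) (y : Site d) :
    grad (recenter (trans y g)) 0 = grad g y := by
  ext i
  simp only [grad, recenter, trans, zero_add]
  rw [add_comm (e i) y]
  ring

lemma grad_sact (σ : SymG d) (g : Conf d) (y : Site d) :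
    grad (sact σ g) y = grad (sact σ (recenter (trans (sg σ y) g))) 0 := by
  rw [← recenter_trans_sact, grad_recenter_trans]

lemma isLocal_gradFn (φ : (Fin d → ℤ) → ℝ) (σ : SymG d) (y : Site d) :
    IsLocal (fun g => φ (grad (sact σ g) y)) := by
  classical
  refine ⟨insert (sg σ y) (Finset.univ.image fun i => sg σ (y + e i)), fun g h hgh => ?_⟩
  simp only
  congr 1
  ext i
  simp only [grad, sact]
  rw [hgh (sg σ (y + e i)) (Finset.mem_insert_of_mem
    (Finset.mem_image_of_mem _ (Finset.mem_univ i))), hgh (sg σ y) (Finset.mem_insert_self _ _)]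

lemma integral_grad_sact (hT : ∀ y, μ.map (fun g => recenter (trans y g)) = μ)
    (φ : (Fin d → ℤ) → ℝ) (σ : SymG d) (y : Site d) :
    ∫ g, φ (grad (sact σ g) y) ∂μ = ∫ g, φ (grad (sact σ g) 0) ∂μ := by
  have hTm' : LocalMap (fun g : Conf d => recenter (trans (sg σ y) g)) := by
    intro x
    refine ⟨{x + sg σ y, 0 + sg σ y}, fun g h hgh => ?_⟩
    simp only [recenter, trans]
    rw [hgh (x + sg σ y) (by simp), hgh (0 + sg σ y) (by simp)]
  conv_rhs => rw [← hT (sg σ y)]
  rw [integral_map hTm'.measurable.aemeasurable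
    ((isLocal_gradFn φ σ 0).measurable.aestronglyMeasurable)]
  refine integral_congr_ae (Filter.Eventually.of_forall fun g => ?_)
  simp only
  rw [grad_sact]

/-- the points at which the gradients are compared -/
def pt (i0 : Fin d) (k : ℕ) : Site d := (k : ℤ) • e i0

/-- the averages of the gradient covariances under the symmetrised measure are bounded below by the
variance of the mean gradients of the images of the measure -/
lemma sum_gradCov_ge (hT : ∀ y, μ.map (fun g => recenter (trans y g)) = μ)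
    {φ : (Fin d → ℤ) → ℝ} (hφ : IsBdd φ) (i0 : Fin d) (n : ℕ) :
    (((Finset.univ : Finset (SymG d)).card : ℝ)⁻¹ *
        ∑ σ : SymG d, (∫ g, φ (grad (sact σ g) 0) ∂μ) ^ 2 -
      (((Finset.univ : Finset (SymG d)).card : ℝ)⁻¹ *
        ∑ σ : SymG d, ∫ g, φ (grad (sact σ g) 0) ∂μ) ^ 2) * n ^ 2 ≤
      ∑ j ∈ Finset.range n, ∑ k ∈ Finset.range n,
        gradCov (symM μ) φ φ (pt i0 j) (pt i0 k) := by
  set N : ℝ := ((Finset.univ : Finset (SymG d)).card : ℝ) with hN
  have hN0 : 0 < N := by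
    rw [hN]; exact_mod_cast cardG_pos (d := d)
  set c : SymG d → ℝ := fun σ => ∫ g, φ (grad (sact σ g) 0) ∂μ with hc
  obtain ⟨C, hC⟩ := hφ
  have hloc1 : ∀ x : Site d, IsLocal (fun g : Conf d => φ (grad g x)) := by
    intro x
    classical
    refine ⟨insert x (Finset.univ.image fun i => x + e i), fun g h hgh => ?_⟩
    simp only
    congr 1
    ext i
    simp only [grad]
    rw [hgh (x + e i) (Finset.mem_insert_of_mem
      (Finset.mem_image_of_mem _ (Finset.mem_univ i))), hgh x (Finset.mem_insert_self _ _)]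
  have hbd1 : ∀ x : Site d, IsBdd (fun g : Conf d => φ (grad g x)) := fun x => ⟨C, fun g => hC _⟩
  have hmul : ∀ {F G : Fn d}, IsLocal F → IsLocal G → IsLocal (fun g => F g * G g) := by
    classical
    intro F G hF hG
    obtain ⟨S, hS⟩ := hF
    obtain ⟨T, hT'⟩ := hG
    refine ⟨S ∪ T, fun g h hgh => ?_⟩
    simp only
    rw [hS g h fun x hx => hgh x (Finset.mem_union_left _ hx),
      hT' g h fun x hx => hgh x (Finset.mem_union_right _ hx)]
  have hmulb : ∀ x y : Site d, IsBdd (fun g : Conf d => φ (grad g x) * φ (grad g y)) := by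
    intro x y
    refine ⟨C * C, fun g => ?_⟩
    rw [abs_mul]
    exact mul_le_mul (hC _) (hC _) (abs_nonneg _) ((abs_nonneg _).trans (hC 0))
  -- the mean
  have h1 : ∀ x : Site d, ∫ g, φ (grad g x) ∂(symM μ) = N⁻¹ * ∑ σ : SymG d, c σ := by
    intro x
    rw [integral_symM_local (hloc1 x) (hbd1 x)]
    congr 1
    refine Finset.sum_congr rfl fun σ _ => ?_
    exact integral_grad_sact hT φ σ x
  -- the product
  have h2 : ∀ x y : Site d, ∫ g, φ (grad g x) * φ (grad g y) ∂(symM μ) =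
      N⁻¹ * ∑ σ : SymG d, ∫ g, φ (grad (sact σ g) x) * φ (grad (sact σ g) y) ∂μ := by
    intro x y
    rw [integral_symM_local (hmul (hloc1 x) (hloc1 y)) (hmulb x y)]
  have h3 : ∀ σ : SymG d, (c σ) ^ 2 * n ^ 2 ≤ ∑ j ∈ Finset.range n, ∑ k ∈ Finset.range n,
      ∫ g, φ (grad (sact σ g) (pt i0 j)) * φ (grad (sact σ g) (pt i0 k)) ∂μ := by
    intro σ
    have hl : ∀ j ∈ Finset.range n, IsLocal (fun g => φ (grad (sact σ g) (pt i0 j))) :=
      fun j _ => isLocal_gradFn φ σ _
    have hi : ∀ j ∈ Finset.range n, Integrable (fun g => φ (grad (sact σ g) (pt i0 j))) μ :=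
      fun j hj => (hl j hj).integrable ⟨C, fun g => hC _⟩ μ
    have h4 := sq_integral_le (μ := μ) (IsLocal.sum (Finset.range n) hl)
      ⟨∑ j ∈ Finset.range n, C, fun g => (Finset.abs_sum_le_sum_abs _ _).trans
        (Finset.sum_le_sum fun j _ => hC _)⟩
    rw [integral_finsetSum _ hi, Finset.sum_congr rfl fun j _ =>
      integral_grad_sact hT φ σ (pt i0 j), Finset.sum_const, Finset.card_range, nsmul_eq_mul]
      at h4
    have h5 : ∫ g, (∑ j ∈ Finset.range n, φ (grad (sact σ g) (pt i0 j))) ^ 2 ∂μ =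
        ∑ j ∈ Finset.range n, ∑ k ∈ Finset.range n,
          ∫ g, φ (grad (sact σ g) (pt i0 j)) * φ (grad (sact σ g) (pt i0 k)) ∂μ := by
      have hi2 : ∀ j ∈ Finset.range n, ∀ k ∈ Finset.range n, Integrable
          (fun g => φ (grad (sact σ g) (pt i0 j)) * φ (grad (sact σ g) (pt i0 k))) μ := by
        intro j hj k hk
        refine IsLocal.integrable (hmul (hl j hj) (hl k hk)) ?_ μ
        refine ⟨C * C, fun g => ?_⟩
        rw [abs_mul]
        exact mul_le_mul (hC _) (hC _) (abs_nonneg _) ((abs_nonneg _).trans (hC 0))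
      have h6 : (fun g => (∑ j ∈ Finset.range n, φ (grad (sact σ g) (pt i0 j))) ^ 2 : Fn d) =
          fun g => ∑ j ∈ Finset.range n, ∑ k ∈ Finset.range n,
            φ (grad (sact σ g) (pt i0 j)) * φ (grad (sact σ g) (pt i0 k)) := by
        ext g
        rw [sq, Finset.sum_mul_sum]
      rw [h6, integral_finsetSum _ fun j hj => integrable_finsetSum _ (hi2 j hj)]
      refine Finset.sum_congr rfl fun j hj => ?_
      rw [integral_finsetSum _ (hi2 j hj)]
    rw [h5] at h4
    calc (c σ) ^ 2 * n ^ 2 = ((n : ℝ) * c σ) ^ 2 := by ring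
      _ ≤ _ := h4
  have h7 : ∑ j ∈ Finset.range n, ∑ k ∈ Finset.range n,
      gradCov (symM μ) φ φ (pt i0 j) (pt i0 k) =
      N⁻¹ * ∑ σ : SymG d, (∑ j ∈ Finset.range n, ∑ k ∈ Finset.range n,
        ∫ g, φ (grad (sact σ g) (pt i0 j)) * φ (grad (sact σ g) (pt i0 k)) ∂μ) -
      n ^ 2 * (N⁻¹ * ∑ σ : SymG d, c σ) ^ 2 := by
    unfold gradCov
    simp_rw [h1, h2]
    simp_rw [Finset.sum_sub_distrib, Finset.sum_const, Finset.card_range, nsmul_eq_mul,
      ← Finset.mul_sum]
    congr 1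
    · congr 1
      simp_rw [Finset.sum_comm (s := Finset.range n) (t := (Finset.univ : Finset (SymG d)))]
    · ring
  rw [h7]
  have h8 : N⁻¹ * ∑ σ : SymG d, (c σ) ^ 2 * n ^ 2 ≤
      N⁻¹ * ∑ σ : SymG d, (∑ j ∈ Finset.range n, ∑ k ∈ Finset.range n,
        ∫ g, φ (grad (sact σ g) (pt i0 j)) * φ (grad (sact σ g) (pt i0 k)) ∂μ) :=
    mul_le_mul_of_nonneg_left (Finset.sum_le_sum fun σ _ => h3 σ) (inv_pos.2 hN0).le
  rw [← Finset.sum_mul] at h8
  linarith

lemma exists_clamp_pos (hi : ∀ x, Integrable (fun g : Conf d => (g x : ℝ)) μ)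
    (h0 : ∀ᵐ g ∂μ, g 0 = 0) (i0 : Fin d) (hs : 0 < ∫ g, (g (e i0) : ℝ) ∂μ) :
    ∃ K : ℕ, 0 < ∫ g, clampS i0 K (grad g 0) ∂μ := by
  have h1 : Tendsto (fun K : ℕ => ∫ g, clampS i0 K (grad g 0) ∂μ) atTop
      (𝓝 (∫ g, (g (e i0) : ℝ) ∂μ)) := by
    refine tendsto_integral_of_dominated_convergence
      (fun g : Conf d => |(g (e i0) : ℝ)| + |(g 0 : ℝ)|) ?_ ?_ ?_ ?_
    · intro K
      have := (isLocal_gradFn (d := d) (clampS i0 K) (1, 1) 0).measurable
      simp_rw [sact_one] at this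
      exact this.aestronglyMeasurable
    · exact (hi _).abs.add (hi _).abs
    · intro K
      refine Filter.Eventually.of_forall fun g => ?_
      rw [Real.norm_eq_abs]
      refine (abs_clampS_le' i0 K _).trans ?_
      simp only [grad, zero_add]
      push_cast
      exact abs_sub _ _
    · filter_upwards [h0] with g hg
      refine tendsto_const_nhds.congr' ?_
      obtain ⟨K, hK⟩ := exists_nat_ge |(g (e i0) : ℝ)|
      filter_upwards [eventually_ge_atTop K] with K' hK'
      have h2 : |(g (e i0) : ℝ)| ≤ K' := hK.trans (by exact_mod_cast hK')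
      rw [abs_le] at h2
      unfold clampS
      simp only [grad, zero_add, hg, sub_zero]
      rw [min_eq_right h2.2, max_eq_right h2.1]
  have h2 := h1.eventually (lt_mem_nhds hs)
  exact h2.exists

/-- a translation invariant measure with a positive mean slope: after symmetrisation, the gradients
do not decorrelate -/
theorem decor_fails (hT : ∀ y, μ.map (fun g => recenter (trans y g)) = μ)
    (hi : ∀ x, Integrable (fun g : Conf d => (g x : ℝ)) μ)
    (h0 : ∀ᵐ g ∂μ, g 0 = 0) (i0 : Fin d) (hs : 0 < ∫ g, (g (e i0) : ℝ) ∂μ) :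
    ∃ φ : (Fin d → ℤ) → ℝ, IsBdd φ ∧ ∃ ε : ℝ, 0 < ε ∧ ∃ x y : ℕ → Site d,
      Tendsto (fun n => ‖x n - y n‖) atTop atTop ∧
        ∀ n, ε ≤ |gradCov (symM μ) φ φ (x n) (y n)| := by
  classical
  obtain ⟨K, hK⟩ := exists_clamp_pos hi h0 i0 hs
  set φ := clampS i0 K with hφ
  set m := ∫ g, φ (grad g 0) ∂μ with hm
  set N : ℝ := ((Finset.univ : Finset (SymG d)).card : ℝ) with hN
  have hN0 : 0 < N := by
    rw [hN]; exact_mod_cast cardG_pos (d := d)
  set c : SymG d → ℝ := fun σ => ∫ g, φ (grad (sact σ g) 0) ∂μ with hc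
  set V : ℝ := N⁻¹ * ∑ σ : SymG d, (c σ) ^ 2 - (N⁻¹ * ∑ σ : SymG d, c σ) ^ 2 with hV
  have hbd : IsBdd φ := ⟨K, fun v => abs_clampS_le i0 K v⟩
  -- the identity
  have hid : c (1, 1) = m := by
    rw [hc, hm]
    simp only [sact_one]
  -- the flip
  have hfl : c (1, fun _ => -1) = -m := by
    have h1 : c (1, fun _ => -1) = ∫ g : Conf d, - φ (grad (sact (1, 1) g) (-e i0)) ∂μ := by
      rw [hc]
      refine integral_congr_ae (Filter.Eventually.of_forall fun g => ?_)
      simp only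
      refine clampS_neg i0 K _ _ ?_
      have h2 : signedPerm (1 : Equiv.Perm (Fin d)) (fun _ => -1) (e i0) = - e i0 := by
        ext j; simp [signedPerm]
      have h3 : signedPerm (1 : Equiv.Perm (Fin d)) (fun _ => -1) 0 = (0 : Site d) := by
        ext j; simp [signedPerm]
      have h4 : signedPerm (1 : Equiv.Perm (Fin d)) 1 0 = (0 : Site d) := by
        ext j; simp [signedPerm]
      have h5 : signedPerm (1 : Equiv.Perm (Fin d)) 1 (- e i0) = (- e i0 : Site d) := by
        ext j; simp [signedPerm]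
      simp only [grad, sact, sg, zero_add, neg_add_cancel, h2, h3, h4, h5]
      ring
    rw [h1, integral_neg, integral_grad_sact hT φ (1, 1) (-e i0)]
    exact congrArg Neg.neg hid
  have hne : ((1, 1) : SymG d) ≠ (1, fun _ => -1) := by
    intro h
    rw [Prod.mk.injEq] at h
    have h1 := congrFun h.2 i0
    simp at h1
  have hVpos : 0 < V := by
    set b : ℝ := N⁻¹ * ∑ σ : SymG d, c σ with hb
    have h1 : V = N⁻¹ * ∑ σ : SymG d, (c σ - b) ^ 2 := by
      have h2 : ∀ σ ∈ (Finset.univ : Finset (SymG d)), (c σ - b) ^ 2 =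
          (c σ) ^ 2 - (2 * b) * c σ + b ^ 2 := fun σ _ => by ring
      rw [Finset.sum_congr rfl h2, Finset.sum_add_distrib, Finset.sum_sub_distrib,
        ← Finset.mul_sum, Finset.sum_const, nsmul_eq_mul, ← hN, hV]
      have h3 : ∑ σ : SymG d, c σ = N * b := by
        rw [hb, ← mul_assoc, mul_inv_cancel₀ hN0.ne', one_mul]
      rw [h3]
      field_simp
      ring
    rw [h1]
    refine mul_pos (inv_pos.2 hN0) ?_
    have h2 : (c (1, 1) - b) ^ 2 + (c (1, fun _ => -1) - b) ^ 2 ≤
        ∑ σ : SymG d, (c σ - b) ^ 2 := by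
      have h3 : ∑ σ ∈ ({(1, 1), (1, fun _ => -1)} : Finset (SymG d)), (c σ - b) ^ 2 ≤
          ∑ σ : SymG d, (c σ - b) ^ 2 :=
        Finset.sum_le_sum_of_subset_of_nonneg (Finset.subset_univ _) fun _ _ _ => sq_nonneg _
      rwa [Finset.sum_pair hne] at h3
    refine lt_of_lt_of_le ?_ h2
    rw [hid, hfl]
    nlinarith [sq_nonneg b, mul_pos hK hK]
  have hcb : ∀ j k : ℕ, gradCov (symM μ) φ φ (pt i0 j) (pt i0 k) ≤ K ^ 2 + K ^ 2 := by
    intro j k
    have := prob_symM (μ := μ)
    have hK0 : (0 : ℝ) ≤ K := Nat.cast_nonneg K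
    have h1 : |∫ g, φ (grad g (pt i0 j)) * φ (grad g (pt i0 k)) ∂(symM μ)| ≤ K ^ 2 := by
      rw [← Real.norm_eq_abs]
      refine (norm_integral_le_of_norm_le_const (C := (K : ℝ) ^ 2)
        (Filter.Eventually.of_forall fun g => ?_)).trans (by simp)
      rw [Real.norm_eq_abs, abs_mul, sq]
      exact mul_le_mul (abs_clampS_le _ _ _) (abs_clampS_le _ _ _) (abs_nonneg _) hK0
    have h2 : ∀ x, |∫ g, φ (grad g x) ∂(symM μ)| ≤ K := by
      intro x
      rw [← Real.norm_eq_abs]
      refine (norm_integral_le_of_norm_le_const (C := (K : ℝ))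
        (Filter.Eventually.of_forall fun g => ?_)).trans (by simp)
      exact abs_clampS_le _ _ _
    have h3 : |(∫ g, φ (grad g (pt i0 j)) ∂(symM μ)) * ∫ g, φ (grad g (pt i0 k)) ∂(symM μ)| ≤
        K ^ 2 := by
      rw [abs_mul, sq]
      exact mul_le_mul (h2 _) (h2 _) (abs_nonneg _) hK0
    unfold gradCov
    linarith [(abs_le.1 h1).2, (abs_le.1 h3).1]
  have hfar := fun R => exists_far (fun j k => gradCov (symM μ) φ φ (pt i0 j) (pt i0 k)) hVpos hcb
    (fun n => sum_gradCov_ge hT hbd i0 n) R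
  choose j k hjk hc2 using hfar
  refine ⟨φ, hbd, V / 2, by linarith, fun n => pt i0 (j n), fun n => pt i0 (k n), ?_, fun n => ?_⟩
  · refine tendsto_atTop_mono (fun n => ?_) tendsto_natCast_atTop_atTop
    have h1 : (n : ℝ) ≤ ‖(pt i0 (j n) - pt i0 (k n)) i0‖ := by
      have h2 : (pt i0 (j n) - pt i0 (k n)) i0 = (j n : ℤ) - k n := by
        simp [pt, e]
      rw [h2, Int.norm_eq_abs]
      have h3 : (n : ℤ) ≤ |(j n : ℤ) - k n| := by
        rw [le_abs]
        rcases hjk n with h | h <;> omega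
      exact_mod_cast h3
    exact h1.trans (norm_le_pi_norm _ i0)
  · exact (hc2 n).trans (le_abs_self _)

end

end Pool.Agent.Lib.MP_67d80e_pr
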