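import Mathlib

set_option autoImplicit false

open scoped BigOperators
open Filter MeasureTheory

namespace Pool.Agent.Lib.MP_67d80e_pr

/-- The sites of the lattice `ℤ^d`. -/
abbrev Site (d : ℕ) := Fin d → ℤ

/-- Height functions on `ℤ^d`, with the product topology and the product sigma-algebra. -/
abbrev Conf (d : ℕ) := Site d → ℤ

variable {d : ℕ}

/-- The `i`-th standard basis vector. -/
def e (i : Fin d) : Site d := Pi.single i 1

/-- The height which the site `x` receives when its clock rings: the maximum of `h x + 1` and of
the heights of the `2 d` neighbours of `x`. -/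
def newHeight (h : Conf d) (x : Site d) : ℤ :=
  Finset.univ.fold max (h x + 1) fun i => max (h (x + e i)) (h (x - e i))

/-- The height function after the clock at `x` has rung. -/
def ring (x : Site d) (h : Conf d) : Conf d := Function.update h x (newHeight h x)

/-- The box `[-n, n]^d`. -/
noncomputable def box (d n : ℕ) : Finset (Site d) := Fintype.piFinset fun _ => Finset.Icc (-(n : ℤ)) n

/-- The sum of `F` over the height functions obtained from `h` by one ring in the box. The `k`-th
iterate is the sum of `F` over the results of all sequences of `k` successive rings in the box. -/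
noncomputable def boxSum (n : ℕ) (F : Conf d → ℝ) : Conf d → ℝ := fun h => ∑ x ∈ box d n, F (ring x h)

/-- The expectation of `F` at time `t` for the process started from `h` in which only the clocks
of the `m` sites of the box `[-n, n]^d` ring. These are independent clocks of rate one, so that a
finite sequence `x₁, …, x_k` of sites of the box is the sequence of the sites which ring in
`[0, t]`, in this order, with probability `exp (- m t) t ^ k / k !`. -/
noncomputable def boxExpect (n : ℕ) (t : ℝ) (F : Conf d → ℝ) (h : Conf d) : ℝ :=
  ∑' k : ℕ, Real.exp (-((box d n).card * t)) * (t ^ k / k.factorial) * (boxSum n)^[k] F h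

/-- The expectation of `F` at time `t` for ballistic deposition on `ℤ^d` started from `h`, that is
the limit along the boxes. -/
noncomputable def expect (t : ℝ) (F : Conf d → ℝ) (h : Conf d) : ℝ :=
  limUnder atTop fun n => boxExpect n t F h

/-- `F` depends on finitely many heights only. -/
def IsLocal (F : Conf d → ℝ) : Prop :=
  ∃ S : Finset (Site d), ∀ g h : Conf d, (∀ x ∈ S, g x = h x) → F g = F h

/-- `F` is bounded. -/
def IsBdd {α : Type*} (F : α → ℝ) : Prop := ∃ C : ℝ, ∀ a, |F a| ≤ C

/-- The recentred height function `h - h 0`. -/
def recenter (h : Conf d) : Conf d := fun x => h x - h 0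

/-- `μ` is a stationary distribution of the recentred process `w(t) = h(t) - h(t, 0)`: it is a
probability measure and, for every `t ≥ 0` and every bounded function `F` of finitely many heights,
the expectation of `F (w(t))` for the process started from `g` exists (as the limit along the boxes)
for every `g`, and its integral over `g` is the integral of `F`. -/
def IsStationary (μ : Measure (Conf d)) : Prop :=
  IsProbabilityMeasure μ ∧ ∀ t : ℝ, 0 ≤ t → ∀ F : Conf d → ℝ, IsLocal F → IsBdd F →
    (∀ g, Tendsto (fun n => boxExpect n t (fun h => F (recenter h)) g) atTop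
      (nhds (expect t (fun h => F (recenter h)) g))) ∧
    ∫ g, expect t (fun h => F (recenter h)) g ∂μ = ∫ g, F g ∂μ

/-- The gradient field `δg(x) = (g(x + e_i) - g(x))_i`. -/
def grad (g : Conf d) (x : Site d) : Fin d → ℤ := fun i => g (x + e i) - g x

/-- The symmetry of `ℤ^d` which permutes the coordinates and changes signs. -/
def signedPerm (π : Equiv.Perm (Fin d)) (ε : Fin d → ℤˣ) (x : Site d) : Site d :=
  fun i => ε i * x (π i)

/-- The covariance of `φ (δg(x))` and `ψ (δg(y))` under `μ`. -/
noncomputable def gradCov (μ : Measure (Conf d)) (φ ψ : (Fin d → ℤ) → ℝ) (x y : Site d) : ℝ :=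
  ∫ g, φ (grad g x) * ψ (grad g y) ∂μ - (∫ g, φ (grad g x) ∂μ) * ∫ g, ψ (grad g y) ∂μ

end Pool.Agent.Lib.MP_67d80e_pr
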