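import Pool.Agent.Lib.MP_67d80e_pr.Torus

set_option autoImplicit false

open scoped BigOperators
open Filter MeasureTheory

namespace Pool.Agent.Lib.MP_67d80e_pr

variable {d : ℕ}

/-- the average over the words of length `J` with letters in the box -/
noncomputable def W (R : ℕ) : ℕ → ((List (Site d) → ℝ) →ₗ[ℝ] ℝ)
  | 0 => LinearMap.proj []
  | J + 1 => ((box d R).card : ℝ)⁻¹ •
      ∑ x ∈ box d R, (W R J) ∘ₗ (LinearMap.funLeft ℝ ℝ (fun w : List (Site d) => x :: w))

lemma W_zero (R : ℕ) (Ψ : List (Site d) → ℝ) : W R 0 Ψ = Ψ [] := rfl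

lemma W_succ (R J : ℕ) (Ψ : List (Site d) → ℝ) :
    W R (J + 1) Ψ = ((box d R).card : ℝ)⁻¹ * ∑ x ∈ box d R, W R J (fun w => Ψ (x :: w)) := by
  simp only [W, LinearMap.smul_apply, LinearMap.sum_apply, LinearMap.comp_apply, smul_eq_mul]
  rfl

lemma W_mono (R J : ℕ) : Monotone (W (d := d) R J) := by
  induction J with
  | zero => intro Ψ Ψ' h; exact h []
  | succ J ih =>
    intro Ψ Ψ' h
    rw [W_succ, W_succ]
    refine mul_le_mul_of_nonneg_left (Finset.sum_le_sum fun x _ => ?_) (by positivity)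
    exact ih fun w => h (x :: w)

lemma W_const (R J : ℕ) (c : ℝ) : W (d := d) R J (fun _ => c) = c := by
  have hB : ((box d R).card : ℝ) ≠ 0 := by exact_mod_cast (card_box_pos (d := d) R).ne'
  induction J with
  | zero => rfl
  | succ J ih =>
    rw [W_succ]
    simp only [ih, Finset.sum_const, nsmul_eq_mul]
    field_simp

lemma W_nonneg (R J : ℕ) {Ψ : List (Site d) → ℝ} (h : ∀ w, 0 ≤ Ψ w) : 0 ≤ W R J Ψ := by
  have := W_mono R J (show (fun _ => 0 : List (Site d) → ℝ) ≤ Ψ from h)
  rwa [W_const] at this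

lemma W_succ' (R J : ℕ) (Ψ : List (Site d) → ℝ) :
    W R (J + 1) Ψ =
      W R J (fun w => ((box d R).card : ℝ)⁻¹ * ∑ x ∈ box d R, Ψ (x :: w)) := by
  have h1 : (fun w => ((box d R).card : ℝ)⁻¹ * ∑ x ∈ box d R, Ψ (x :: w)) =
      ((box d R).card : ℝ)⁻¹ • ∑ x ∈ box d R, (fun w => Ψ (x :: w)) := by
    ext w
    simp
  rw [h1, map_smul, map_sum, W_succ, smul_eq_mul]

/-- the difference of two consecutive averages -/
lemma W_succ_sub (R J : ℕ) (Ψ : List (Site d) → ℝ) :
    W R (J + 1) Ψ - W R J Ψ =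
      ((box d R).card : ℝ)⁻¹ * W R J (fun w => ∑ x ∈ box d R, (Ψ (x :: w) - Ψ w)) := by
  have hB : ((box d R).card : ℝ) ≠ 0 := by exact_mod_cast (card_box_pos (d := d) R).ne'
  have h1 : (fun w => ∑ x ∈ box d R, (Ψ (x :: w) - Ψ w)) =
      ((box d R).card : ℝ) • ((fun w => ((box d R).card : ℝ)⁻¹ * ∑ x ∈ box d R, Ψ (x :: w)) - Ψ) := by
    ext w
    simp only [Finset.sum_sub_distrib, Finset.sum_const, nsmul_eq_mul, Pi.smul_apply, Pi.sub_apply,
      smul_eq_mul]
    field_simp
  rw [h1, map_smul, map_sub, ← W_succ', smul_eq_mul]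
  field_simp

/-- successive rings at the sites of a word, the first letter rings first -/
noncomputable def act : List (Site d) → Conf d → Conf d
  | [], h => h
  | x :: w, h => act w (ring x h)

lemma act_nil (h : Conf d) : act [] h = h := rfl

lemma act_cons (x : Site d) (w : List (Site d)) (h : Conf d) : act (x :: w) h = act w (ring x h) :=
  rfl

lemma PB_pow_apply (R J : ℕ) (F : Fn d) (h : Conf d) :
    (PB d R ^ J) F h = W R J (fun w => F (act w h)) := by
  induction J generalizing h with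
  | zero => simp [W_zero, act_nil]
  | succ J ih =>
    rw [pow_succ', Module.End.mul_apply, PB, avgOp_apply, W_succ]
    congr 1
    refine Finset.sum_congr rfl fun x _ => ?_
    rw [← ring_eq_ringSet]
    exact ih _

lemma le_act (w : List (Site d)) (h : Conf d) : h ≤ act w h := by
  induction w generalizing h with
  | nil => exact le_rfl
  | cons x w ih =>
    rw [act_cons]
    refine le_trans ?_ (ih _)
    rw [ring_eq_ringSet]
    exact le_ringSet _ h

end Pool.Agent.Lib.MP_67d80e_pr
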