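import Pool.Agent.Lib.MP_67d80e_pr.Steps
import Pool.Agent.Lib.MP_67d80e_pr.Words

set_option autoImplicit false

open scoped BigOperators
open Filter MeasureTheory

namespace Pool.Agent.Lib.MP_67d80e_pr

variable {d : ℕ}

/-- one step of the exploration of the past of the origin -/
def expl (i0 : Fin d) (τ : Site d) (cap : ℕ) (x : Site d) (s : ℕ × Finset (Site d)) :
    ℕ × Finset (Site d) :=
  if s.2 = ∅ then (if x = 0 then (0, {0}) else s)
  else if x - τ ∈ s.2 then (s.1 + 1, {x})
  else if x ∈ bdry i0 s.2 ∧ s.2.card < cap then (s.1, insert x s.2)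
  else s

/-- the state of the exploration after reading a word backwards -/
def st (i0 : Fin d) (τ : Site d) (cap : ℕ) : List (Site d) → ℕ × Finset (Site d)
  | [] => (0, ∅)
  | x :: w => expl i0 τ cap x (st i0 τ cap w)

/-- the invariants of the exploration -/
structure Inv (i0 : Fin d) (τ : Site d) (cap : ℕ) (s : ℕ × Finset (Site d)) : Prop where
  card_le : s.2.card ≤ cap
  coord : ∀ z ∈ s.2, z i0 = s.1 * τ i0
  zero : s.2 = ∅ → s.1 = 0

lemma inv_expl {i0 : Fin d} {τ : Site d} {cap : ℕ} (hcap : 1 ≤ cap) {s : ℕ × Finset (Site d)}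
    (hs : Inv i0 τ cap s) (x : Site d) : Inv i0 τ cap (expl i0 τ cap x s) := by
  unfold expl
  split_ifs with h1 h2 h3 h4
  · refine ⟨by simpa using hcap, ?_, fun h => rfl⟩
    intro z hz
    rw [Finset.mem_singleton] at hz
    subst hz
    simp
  · exact hs
  · refine ⟨by simpa using hcap, ?_, fun h => absurd h (Finset.singleton_ne_empty x)⟩
    intro z hz
    rw [Finset.mem_singleton] at hz
    subst hz
    have := hs.coord _ h3
    rw [Pi.sub_apply] at this
    push_cast
    linarith
  · refine ⟨(Finset.card_insert_le _ _).trans h4.2, ?_, fun h => absurd h (Finset.insert_ne_empty _ _)⟩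
    intro z hz
    rw [Finset.mem_insert] at hz
    rcases hz with rfl | hz
    · obtain ⟨⟨y, hy, v, hv, rfl⟩, -⟩ := mem_bdry.1 h4.1
      rw [Pi.add_apply, latV_apply hv, add_zero]
      exact hs.coord y hy
    · exact hs.coord z hz
  · exact hs

lemma inv_st {i0 : Fin d} {τ : Site d} {cap : ℕ} (hcap : 1 ≤ cap) (w : List (Site d)) :
    Inv i0 τ cap (st i0 τ cap w) := by
  induction w with
  | nil => exact ⟨by simp [st], by simp [st], fun _ => rfl⟩
  | cons x w ih => exact inv_expl hcap ih x

/-! ### domination -/

/-- the height of the origin dominates what the exploration has found -/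
lemma dom_act {i0 : Fin d} {τ : Site d} {cap : ℕ} {r : ℕ}
    (hτ : (τ = 0 ∧ r = 1) ∨ (τ = e i0 ∧ r = 0)) (w : List (Site d)) (g : Conf d) :
    ((st i0 τ cap w).2 = ∅ → g 0 ≤ act w g 0) ∧
      ∀ z ∈ (st i0 τ cap w).2, (r : ℤ) * (st i0 τ cap w).1 + newHeight g z ≤ act w g 0 := by
  induction w generalizing g with
  | nil => exact ⟨fun _ => le_rfl, by simp [st]⟩
  | cons x w ih =>
    rw [act_cons]
    obtain ⟨ih1, ih2⟩ := ih (ring x g)
    set s := st i0 τ cap w with hs
    have hst : st i0 τ cap (x :: w) = expl i0 τ cap x s := rfl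
    rw [hst]
    have hmono : g ≤ ring x g := by
      rw [ring_eq_ringSet]
      exact le_ringSet _ g
    unfold expl
    split_ifs with h1 h2 h3 h4
    · refine ⟨fun h => absurd h (Finset.singleton_ne_empty _), ?_⟩
      intro z hz
      rw [Finset.mem_singleton] at hz
      subst hz
      have := ih1 h1
      rw [h2, ring_self] at this
      simpa [h2] using this
    · refine ⟨fun _ => ?_, fun z hz => ?_⟩
      · exact (hmono 0).trans (ih1 h1)
      · rw [h1] at hz
        simp at hz
    · refine ⟨fun h => absurd h (Finset.singleton_ne_empty _), ?_⟩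
      intro z hz
      rw [Finset.mem_singleton] at hz
      subst hz
      have h5 := ih2 _ h3
      rcases hτ with ⟨rfl, rfl⟩ | ⟨rfl, rfl⟩
      · rw [sub_zero] at h5
        have h6 := succ_le_newHeight (ring z g) z
        rw [ring_self] at h6
        push_cast at h5 ⊢
        linarith
      · have h6 := add_le_newHeight (ring z g) (z - e i0) i0
        rw [sub_add_cancel, ring_self] at h6
        push_cast at h5 ⊢
        linarith
    · refine ⟨fun h => absurd h (Finset.insert_ne_empty _ _), ?_⟩
      intro z hz
      rw [Finset.mem_insert] at hz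
      rcases hz with rfl | hz
      · obtain ⟨⟨y, hy, v, hv, hyv⟩, -⟩ := mem_bdry.1 h4.1
        have h5 := ih2 y hy
        have h6 : newHeight g z ≤ newHeight (ring z g) y := by
          obtain ⟨i, -, hi | hi⟩ := mem_latV.1 hv
          · have := add_le_newHeight (ring z g) y i
            rw [← hi, ← hyv, ring_self] at this
            exact this
          · have := sub_le_newHeight (ring z g) y i
            rw [sub_eq_add_neg, ← hi, ← hyv, ring_self] at this
            exact this
        simp only
        linarith
      · have h5 := ih2 z hz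
        have h6 := newHeight_mono hmono z
        simp only
        linarith
    · refine ⟨fun h => absurd h h1, fun z hz => ?_⟩
      have h5 := ih2 z hz
      have h6 := newHeight_mono hmono z
      linarith

/-- the site selected by the exploration -/
noncomputable def pick (M : Finset (Site d)) : Site d :=
  open Classical in if h : M.Nonempty then h.choose else 0

lemma pick_mem {M : Finset (Site d)} (h : M.Nonempty) : pick M ∈ M := by
  unfold pick
  rw [dif_pos h]
  exact h.choose_spec

lemma pick_empty : pick (∅ : Finset (Site d)) = 0 := by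
  unfold pick
  rw [dif_neg (by simp)]

lemma pick_coord {i0 : Fin d} {τ : Site d} {cap : ℕ} (hcap : 1 ≤ cap) (w : List (Site d)) :
    (pick (st i0 τ cap w).2) i0 = (st i0 τ cap w).1 * τ i0 := by
  have hI := inv_st (i0 := i0) (τ := τ) hcap w
  rcases Finset.eq_empty_or_nonempty (st i0 τ cap w).2 with h | h
  · rw [h, pick_empty, hI.zero h]; simp
  · exact hI.coord _ (pick_mem h)

lemma pick_le {i0 : Fin d} {τ : Site d} {cap : ℕ} (hcap : 1 ≤ cap) {r : ℕ}
    (hτ : (τ = 0 ∧ r = 1) ∨ (τ = e i0 ∧ r = 0)) (w : List (Site d)) (g : Conf d) :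
    (r : ℤ) * (st i0 τ cap w).1 + g (pick (st i0 τ cap w).2) ≤ act w g 0 := by
  have hI := inv_st (i0 := i0) (τ := τ) hcap w
  obtain ⟨h1, h2⟩ := dom_act (cap := cap) hτ w g
  rcases Finset.eq_empty_or_nonempty (st i0 τ cap w).2 with h | h
  · rw [h, pick_empty, hI.zero h]
    have := h1 h
    simpa using this
  · have h3 := h2 _ (pick_mem h)
    have h4 := succ_le_newHeight g (pick (st i0 τ cap w).2)
    linarith

end Pool.Agent.Lib.MP_67d80e_pr
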