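import Pool.Agent.Lib.MP_67d80e_pr.Torus

set_option autoImplicit false

open scoped BigOperators
open Filter MeasureTheory

namespace Pool.Agent.Lib.MP_67d80e_pr

variable {d : ℕ}

section
variable (N : ℕ) [NeZero N]

/-- time average of the periodic dynamics started from the tilted configuration -/
noncomputable def ces (i0 : Fin d) (N : ℕ) [NeZero N] (J : ℕ) : Fn d →ₗ[ℝ] ℝ :=
  (J : ℝ)⁻¹ • ∑ j ∈ Finset.range J, (LinearMap.proj (tilt i0) : Fn d →ₗ[ℝ] ℝ) ∘ₗ (PT d N ^ j)

lemma ces_apply (i0 : Fin d) (J : ℕ) (F : Fn d) :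
    ces i0 N J F = (J : ℝ)⁻¹ * ∑ j ∈ Finset.range J, (PT d N ^ j) F (tilt i0) := by
  simp [ces, LinearMap.sum_apply]

lemma ces_mono (i0 : Fin d) (J : ℕ) : Monotone (ces i0 N J) := by
  intro F G hFG
  rw [ces_apply, ces_apply]
  refine mul_le_mul_of_nonneg_left (Finset.sum_le_sum fun j _ => ?_) (by positivity)
  exact ((isMarkov_PT N).pow j).mono hFG _

lemma ces_const (i0 : Fin d) {J : ℕ} (hJ : 0 < J) (c : ℝ) :
    ces i0 N J (fun _ => c) = c := by
  rw [ces_apply]
  have h1 : ∀ j ∈ Finset.range J, (PT d N ^ j) (fun _ => c) (tilt i0) = c := fun j _ => by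
    rw [((isMarkov_PT N).pow j).const]
  rw [Finset.sum_congr rfl h1, Finset.sum_const, Finset.card_range, nsmul_eq_mul]
  have : (J : ℝ) ≠ 0 := by exact_mod_cast hJ.ne'
  field_simp

lemma ces_telescope (i0 : Fin d) (J : ℕ) (F : Fn d) :
    ces i0 N J (PT d N F - F) = (J : ℝ)⁻¹ * ((PT d N ^ J) F (tilt i0) - F (tilt i0)) := by
  rw [ces_apply]
  congr 1
  have h1 : ∀ j ∈ Finset.range J, (PT d N ^ j) (PT d N F - F) (tilt i0) =
      (PT d N ^ (j + 1)) F (tilt i0) - (PT d N ^ j) F (tilt i0) := fun j _ => by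
    rw [map_sub, pow_succ, Module.End.mul_apply, Pi.sub_apply]
  rw [Finset.sum_congr rfl h1, Finset.sum_range_sub (fun j => (PT d N ^ j) F (tilt i0))]
  simp

variable {l : ℝ}

/-- the growth inequality for one letter of the box -/
lemma ces_growth_step (hl : 0 < l) (i0 : Fin d) {R : ℕ} (hR : 2 * R < N) {J : ℕ} (hJ : 0 < J)
    (i : ℕ) (x : Site d) :
    ces i0 N J ((PB d R ^ (i + 1)) (hgt x) - (PB d R ^ i) (hgt x)) ≤
      growC d l / l * (1 / (box d R).card + i * nT d N / ((box d R).card ^ 2 * J)) := by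
  set u : Fn d := (PB d R ^ i) (hgt x) with hu
  have hT : (0 : ℝ) < nT d N := by exact_mod_cast nT_pos (d := d) N
  have hB : (0 : ℝ) < (box d R).card := by exact_mod_cast card_box_pos (d := d) R
  have hJ' : (0 : ℝ) < J := by exact_mod_cast hJ
  have h1 : (PB d R ^ (i + 1)) (hgt x) = PB d R u := by
    rw [pow_succ', Module.End.mul_apply]
  have h2 : ((box d R).card : ℝ) • (PB d R u - u) ≤ (nT d N : ℝ) • (PT d N u - u) := by
    intro h
    have := PB_sub_le_PT_sub N hR (monotone_PB_pow R i x) h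
    simpa using this
  have h3 := ces_mono N i0 J h2
  rw [map_smul, map_smul, ces_telescope, smul_eq_mul, smul_eq_mul] at h3
  have h4 : (PT d N ^ J) u (tilt i0) ≤
      x i0 + growC d l / l * ((J : ℝ) / nT d N + (i : ℝ) / (box d R).card) := by
    have := mean_hgt_le N hl i0 R J i x
    rwa [Module.End.mul_apply] at this
  have h5 : (x i0 : ℝ) ≤ u (tilt i0) := hgt_le_PB_pow R i x (tilt i0)
  have h6 : ((box d R).card : ℝ) * ces i0 N J (PB d R u - u) ≤ (nT d N : ℝ) * ((J : ℝ)⁻¹ *
      (growC d l / l * ((J : ℝ) / nT d N + (i : ℝ) / (box d R).card))) := by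
    refine h3.trans (mul_le_mul_of_nonneg_left (mul_le_mul_of_nonneg_left ?_ ?_) hT.le)
    · linarith
    · positivity
  rw [h1]
  rw [← le_div_iff₀' hB] at h6
  refine h6.trans (le_of_eq ?_)
  field_simp

/-- the growth inequality for `I` letters of the box -/
lemma ces_growth (hl : 0 < l) (i0 : Fin d) {R : ℕ} (hR : 2 * R < N) {J : ℕ} (hJ : 0 < J)
    (I : ℕ) (x : Site d) :
    ces i0 N J ((PB d R ^ I) (hgt x) - hgt x) ≤
      growC d l / l * (I / (box d R).card + I ^ 2 * nT d N / ((box d R).card ^ 2 * J)) := by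
  have hd : 1 ≤ d := Nat.one_le_iff_ne_zero.2 (by rintro rfl; exact i0.elim0)
  have hC := growC_nonneg hd hl.le
  have hT : (0 : ℝ) < nT d N := by exact_mod_cast nT_pos (d := d) N
  have hB : (0 : ℝ) < (box d R).card := by exact_mod_cast card_box_pos (d := d) R
  have hJ' : (0 : ℝ) < J := by exact_mod_cast hJ
  have h1 : ∀ I : ℕ, ces i0 N J ((PB d R ^ I) (hgt x) - hgt x) ≤
      growC d l / l * (I / (box d R).card + (I : ℝ) * I * nT d N / ((box d R).card ^ 2 * J)) := by
    intro I
    induction I with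
    | zero => simp
    | succ I ih =>
      have h2 : (PB d R ^ (I + 1)) (hgt x) - hgt x =
          ((PB d R ^ (I + 1)) (hgt x) - (PB d R ^ I) (hgt x)) +
            ((PB d R ^ I) (hgt x) - hgt x) := by abel
      rw [h2, map_add]
      have h3 := ces_growth_step N hl i0 hR hJ I x
      refine (add_le_add h3 ih).trans ?_
      rw [← mul_add]
      refine mul_le_mul_of_nonneg_left ?_ (by positivity)
      push_cast
      have h4 : 1 / ((box d R).card : ℝ) + I * nT d N / ((box d R).card ^ 2 * J) +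
          (I / (box d R).card + (I : ℝ) * I * nT d N / ((box d R).card ^ 2 * J)) =
          (I + 1) / (box d R).card + ((I : ℝ) * I + I) * (nT d N / ((box d R).card ^ 2 * J)) := by
        ring
      have h5 : (I + 1 : ℝ) / (box d R).card + (I + 1 : ℝ) * (I + 1) * nT d N /
          ((box d R).card ^ 2 * J) = (I + 1) / (box d R).card +
          ((I + 1 : ℝ) * (I + 1)) * (nT d N / ((box d R).card ^ 2 * J)) := by ring
      rw [h4, h5]
      have h6 : (0 : ℝ) ≤ nT d N / ((box d R).card ^ 2 * J) := by positivity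
      have h7 : ((I : ℝ) * I + I) ≤ (I + 1 : ℝ) * (I + 1) := by
        have : (0 : ℝ) ≤ I := Nat.cast_nonneg I
        nlinarith
      have := mul_le_mul_of_nonneg_right h7 h6
      linarith
  have h2 := h1 I
  rw [pow_two (I : ℝ)]
  exact h2

/-- the mean increment of the height at one ring is at most the growth constant -/
lemma ces_newHeight_le (hl : 0 < l) (i0 : Fin d) {J : ℕ} (hJ : 0 < J) (x : Site d) :
    ces i0 N J (fun h => (newHeight h x : ℝ) - h x) ≤ growC d l / l := by
  have hd : 1 ≤ d := Nat.one_le_iff_ne_zero.2 (by rintro rfl; exact i0.elim0)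
  have hT : (0 : ℝ) < nT d N := by exact_mod_cast nT_pos (d := d) N
  have hJ' : (0 : ℝ) < J := by exact_mod_cast hJ
  have h1 : (fun h => (newHeight h x : ℝ) - h x : Fn d) =
      (nT d N : ℝ) • (PT d N (hgt x) - hgt x) := by
    ext h
    have := PT_hgt_sub N x h
    simp only [Pi.smul_apply, Pi.sub_apply, smul_eq_mul]
    rw [this]
  rw [h1, map_smul, ces_telescope, smul_eq_mul]
  have h2 := mean_hgt_le N hl i0 0 J 0 x
  rw [pow_zero, mul_one] at h2
  have h3 : (PT d N ^ J) (hgt x) (tilt i0) - hgt x (tilt i0) ≤ growC d l / l * (J / nT d N) := by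
    have h4 : hgt x (tilt i0) = x i0 := rfl
    rw [h4]
    simp only [Nat.cast_zero, zero_div, add_zero] at h2
    linarith
  calc (nT d N : ℝ) * ((J : ℝ)⁻¹ * ((PT d N ^ J) (hgt x) (tilt i0) - hgt x (tilt i0)))
      ≤ (nT d N : ℝ) * ((J : ℝ)⁻¹ * (growC d l / l * (J / nT d N))) := by
        refine mul_le_mul_of_nonneg_left (mul_le_mul_of_nonneg_left h3 ?_) hT.le
        positivity
    _ = growC d l / l := by field_simp

/-! ### symmetries -/

lemma PT_pow_comp {T : Conf d → Conf d} (σ : (Fin d → ZMod N) ≃ (Fin d → ZMod N))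
    (hT : ∀ a h, T (ringSet (TS N a) h) = ringSet (TS N (σ a)) (T h)) (j : ℕ) (F : Fn d)
    (h : Conf d) : (PT d N ^ j) (fun g => F (T g)) h = (PT d N ^ j) F (T h) := by
  induction j generalizing F with
  | zero => simp
  | succ j ih =>
    have h1 : PT d N (fun g => F (T g)) = fun g => PT d N F (T g) := by
      ext g
      rw [PT, avgOp_apply, avgOp_apply]
      congr 1
      rw [← Equiv.sum_comp σ (fun a => F (ringSet (TS N a) (T g)))]
      exact Finset.sum_congr rfl fun a _ => by rw [hT]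
    rw [pow_succ, Module.End.mul_apply, Module.End.mul_apply, h1, ih]

omit [NeZero N] in
lemma cls_add (x y : Site d) : cls N (x + y) = cls N x + cls N y := by
  ext i; simp [cls]

/-- the translation of height functions -/
def trans (y : Site d) (h : Conf d) : Conf d := fun z => h (z + y)

/-- the vertical shift of height functions -/
def vert (c : ℤ) (h : Conf d) : Conf d := fun z => h z + c

/-- change of signs of coordinates -/
def flip (ε : Fin d → ℤˣ) (h : Conf d) : Conf d := fun z => h (signedPerm 1 ε z)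

omit [NeZero N] in
lemma trans_ringSet (y : Site d) (a : Fin d → ZMod N) (h : Conf d) :
    trans y (ringSet (TS N a) h) = ringSet (TS N (a - cls N y)) (trans y h) := by
  ext z
  unfold trans
  by_cases hz : z + y ∈ TS N a
  · have hz' : z ∈ TS N (a - cls N y) := by
      rw [mem_TS] at hz ⊢
      rw [← hz, cls_add, add_sub_cancel_right]
    rw [ringSet_of_mem hz, ringSet_of_mem hz', newHeight_shift]
  · have hz' : z ∉ TS N (a - cls N y) := by
      intro hz'
      apply hz
      rw [mem_TS] at hz' ⊢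
      rw [cls_add, hz', sub_add_cancel]
    rw [ringSet_of_notMem hz, ringSet_of_notMem hz']

omit [NeZero N] in
lemma vert_ringSet (c : ℤ) (a : Fin d → ZMod N) (h : Conf d) :
    vert c (ringSet (TS N a) h) = ringSet (TS N a) (vert c h) := by
  unfold vert
  rw [ringSet_add_const]

lemma signedPerm_one_invol (ε : Fin d → ℤˣ) (z : Site d) :
    signedPerm 1 ε (signedPerm 1 ε z) = z := by
  ext i
  simp only [signedPerm, Equiv.Perm.coe_one, id]
  rw [← mul_assoc, ← Units.val_mul, Int.units_mul_self, Units.val_one, one_mul]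

/-- the action of sign changes on classes -/
def flipC (ε : Fin d → ℤˣ) : (Fin d → ZMod N) ≃ (Fin d → ZMod N) where
  toFun a := fun i => ((ε i : ℤ) : ZMod N) * a i
  invFun a := fun i => ((ε i : ℤ) : ZMod N) * a i
  left_inv a := by
    ext i
    simp only
    rw [← mul_assoc, ← Int.cast_mul, ← Units.val_mul, Int.units_mul_self]
    simp
  right_inv a := by
    ext i
    simp only
    rw [← mul_assoc, ← Int.cast_mul, ← Units.val_mul, Int.units_mul_self]
    simp

omit [NeZero N] in
lemma cls_signedPerm (ε : Fin d → ℤˣ) (z : Site d) :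
    cls N (signedPerm 1 ε z) = flipC N ε (cls N z) := by
  ext i
  simp [cls, signedPerm, flipC]

omit [NeZero N] in
lemma flip_ringSet (ε : Fin d → ℤˣ) (a : Fin d → ZMod N) (h : Conf d) :
    flip ε (ringSet (TS N a) h) = ringSet (TS N (flipC N ε a)) (flip ε h) := by
  ext z
  unfold flip
  have hinv : ∀ b : Fin d → ZMod N, flipC N ε (flipC N ε b) = b := (flipC N ε).left_inv
  by_cases hz : signedPerm 1 ε z ∈ TS N a
  · have hz' : z ∈ TS N (flipC N ε a) := by
      rw [mem_TS] at hz ⊢
      rw [← hz, cls_signedPerm, hinv]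
    rw [ringSet_of_mem hz, ringSet_of_mem hz', newHeight_signedPerm]
  · have hz' : z ∉ TS N (flipC N ε a) := by
      intro hz'
      apply hz
      rw [mem_TS] at hz' ⊢
      rw [cls_signedPerm, hz', hinv]
    rw [ringSet_of_notMem hz, ringSet_of_notMem hz']

lemma PT_pow_vert (c : ℤ) (j : ℕ) (F : Fn d) (h : Conf d) :
    (PT d N ^ j) (fun g => F (vert c g)) h = (PT d N ^ j) F (vert c h) :=
  PT_pow_comp N (Equiv.refl _) (fun a h => vert_ringSet N c a h) j F h

lemma PT_pow_trans (y : Site d) (j : ℕ) (F : Fn d) (h : Conf d) :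
    (PT d N ^ j) (fun g => F (trans y g)) h = (PT d N ^ j) F (trans y h) :=
  PT_pow_comp N (Equiv.subRight (cls N y)) (fun a h => trans_ringSet N y a h) j F h

lemma PT_pow_flip (ε : Fin d → ℤˣ) (j : ℕ) (F : Fn d) (h : Conf d) :
    (PT d N ^ j) (fun g => F (flip ε g)) h = (PT d N ^ j) F (flip ε h) :=
  PT_pow_comp N (flipC N ε) (fun a h => flip_ringSet N ε a h) j F h

lemma trans_tilt (i0 : Fin d) (y : Site d) : trans y (tilt i0) = vert (y i0) (tilt i0) := by
  ext z
  simp [trans, vert, tilt]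

lemma flip_tilt {i0 : Fin d} {ε : Fin d → ℤˣ} (hε : ε i0 = 1) : flip ε (tilt i0) = tilt i0 := by
  ext z
  simp [flip, tilt, signedPerm, hε]

/-- translation invariance of the time average -/
lemma ces_trans (i0 : Fin d) (J : ℕ) (y : Site d) {F : Fn d}
    (hF : ∀ c h, F (vert c h) = F h) :
    ces i0 N J (fun g => F (trans y g)) = ces i0 N J F := by
  rw [ces_apply, ces_apply]
  congr 1
  refine Finset.sum_congr rfl fun j _ => ?_
  rw [PT_pow_trans, trans_tilt, ← PT_pow_vert]
  simp only [hF]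

lemma ces_flip (i0 : Fin d) (J : ℕ) {ε : Fin d → ℤˣ} (hε : ε i0 = 1) (F : Fn d) :
    ces i0 N J (fun g => F (flip ε g)) = ces i0 N J F := by
  rw [ces_apply, ces_apply]
  congr 1
  refine Finset.sum_congr rfl fun j _ => ?_
  rw [PT_pow_flip, flip_tilt hε]

/-- the mean slope of the time average -/
lemma ces_hgt_sub (i0 : Fin d) {J : ℕ} (hJ : 0 < J) (y : Site d) :
    ces i0 N J (hgt y - hgt 0) = y i0 := by
  have h1 : ∀ j, (PT d N ^ j) (hgt y) (tilt i0) = (PT d N ^ j) (hgt 0) (tilt i0) + y i0 := by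
    intro j
    have h2 : (hgt y : Fn d) = fun g => hgt 0 (trans y g) := by
      ext g
      simp [hgt, trans]
    rw [h2, PT_pow_trans, trans_tilt, ← PT_pow_vert]
    have h3 : (fun g => hgt 0 (vert (y i0) g) : Fn d) = hgt 0 + (fun _ => (y i0 : ℝ)) := by
      ext g
      simp [hgt, vert]
    rw [h3, map_add, Pi.add_apply, ((isMarkov_PT N).pow j).const]
  rw [ces_apply]
  have h2 : ∀ j ∈ Finset.range J, (PT d N ^ j) (hgt y - hgt 0) (tilt i0) = y i0 := by
    intro j _
    rw [map_sub, Pi.sub_apply, h1]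
    ring
  rw [Finset.sum_congr rfl h2, Finset.sum_const, Finset.card_range, nsmul_eq_mul]
  have : (J : ℝ) ≠ 0 := by exact_mod_cast hJ.ne'
  field_simp

/-- the mean absolute difference of neighbouring heights -/
lemma ces_abs_le (hl : 0 < l) (i0 : Fin d) {J : ℕ} (hJ : 0 < J) (x : Site d) (i : Fin d) :
    ces i0 N J (fun h => |(h (x + e i) : ℝ) - h x|) ≤ 2 * (growC d l / l) := by
  have h1 : (fun h => |(h (x + e i) : ℝ) - h x| : Fn d) ≤
      (fun h => (newHeight h x : ℝ) - h x) +
        (fun h => (newHeight h (x + e i) : ℝ) - h (x + e i)) := by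
    intro h
    simp only [Pi.add_apply]
    have h2 : ((h (x + e i) : ℤ) : ℝ) ≤ newHeight h x := by exact_mod_cast add_le_newHeight h x i
    have h3 : ((h x : ℤ) : ℝ) ≤ newHeight h (x + e i) := by
      have := sub_le_newHeight h (x + e i) i
      rw [add_sub_cancel_right] at this
      exact_mod_cast this
    have h4 : ((h x : ℤ) : ℝ) ≤ newHeight h x := by exact_mod_cast le_newHeight h x
    have h5 : ((h (x + e i) : ℤ) : ℝ) ≤ newHeight h (x + e i) := by
      exact_mod_cast le_newHeight h (x + e i)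
    rw [abs_le]
    constructor <;> linarith
  refine (ces_mono N i0 J h1).trans ?_
  rw [map_add]
  have h2 := ces_newHeight_le N hl i0 hJ x
  have h3 := ces_newHeight_le N hl i0 hJ (x + e i)
  linarith

end

end Pool.Agent.Lib.MP_67d80e_pr
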