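import Pool.Agent.Lib.MP_67d80e_pr.Potential
import Pool.Agent.Lib.MP_67d80e_pr.Growth

set_option autoImplicit false

open scoped BigOperators
open Filter

namespace Pool.Agent.Lib.MP_67d80e_pr

lemma hS_eq_harmonic (n : ℕ) : hS n 1 = (harmonic n : ℝ) := by
  rw [harmonic_eq_sum_Icc]
  push_cast
  unfold hS
  simp

lemma hS_le_log {n : ℕ} (hn : 16 ≤ n) : hS n 1 ≤ Real.log n + 609 / 1000 := by
  have h1 := Real.strictAnti_eulerMascheroniSeq'.antitone hn
  have hn0 : n ≠ 0 := by omega
  unfold Real.eulerMascheroniSeq' at h1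
  rw [if_neg hn0, if_neg (by norm_num)] at h1
  rw [hS_eq_harmonic]
  have h2 : (harmonic 16 : ℝ) ≤ 33808 / 10000 := by
    rw [harmonic_eq_sum_Icc]
    norm_num [Finset.sum_Icc_succ_top]
  have h3 : Real.log ((16 : ℕ) : ℝ) = 4 * Real.log 2 := by
    rw [show ((16 : ℕ) : ℝ) = 2 ^ 4 by norm_num, Real.log_pow]
    norm_num
  have h4 := Real.log_two_gt_d9
  rw [h3] at h1
  linarith

/-- the critical inequality in high dimension -/
theorem crit {d : ℕ} (hd : 360 ≤ d) :
    0 < Real.log (7 * ((d : ℝ) - 1) / 25) ∧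
      growC d (Real.log (7 * ((d : ℝ) - 1) / 25)) / Real.log (7 * ((d : ℝ) - 1) / 25) <
        2 * spd (2 * (d - 1)) := by
  set D : ℝ := (d : ℝ) - 1 with hD
  have hd1 : (360 : ℝ) ≤ d := by exact_mod_cast hd
  have hD1 : 359 ≤ D := by rw [hD]; linarith
  have hD0 : 0 < D := by linarith
  set l := Real.log (7 * D / 25) with hl
  have harg : (1 : ℝ) < 7 * D / 25 := by
    rw [lt_div_iff₀ (by norm_num)]; linarith
  have hl0 : 0 < l := Real.log_pos harg
  refine ⟨hl0, ?_⟩
  have hcast : ((2 * (d - 1) : ℕ) : ℝ) = 2 * D := by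
    rw [hD]
    push_cast [Nat.cast_sub (by omega : 1 ≤ d)]
    ring
  -- the growth constant
  have h1 : growC d l ≤ 64 / 25 * D := by
    unfold growC
    rw [Real.exp_neg, hl, Real.exp_log (by linarith)]
    have h2 : (7 * D / 25)⁻¹ ≤ 1 := inv_le_one_of_one_le₀ harg.le
    have h3 : (d : ℝ) = D + 1 := by rw [hD]; ring
    rw [h3]
    linarith
  -- the harmonic number
  have hn : 16 ≤ 2 * (d - 1) := by omega
  have hH := hS_le_log hn
  rw [hcast] at hH
  have hHpos : 0 < hS (2 * (d - 1)) 1 := hS_pos le_rfl (by omega)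
  -- the logarithms
  have hlD : l = Real.log 7 + Real.log D - Real.log 25 := by
    rw [hl, Real.log_div (by positivity) (by norm_num), Real.log_mul (by norm_num) hD0.ne']
  have hl2D : Real.log (2 * D) = Real.log 2 + Real.log D := Real.log_mul (by norm_num) hD0.ne'
  have hmono : Real.log 359 ≤ Real.log D := Real.log_le_log (by norm_num) hD1
  have hkey : 72 * Real.log 2 ≤
      5 * (25 * Real.log 7 + 9 * Real.log 359 - 25 * Real.log 25 - 16 * Real.log 2) := by
    have h4 : Real.log (2 ^ 72 * (25 ^ 25 * 2 ^ 16) ^ 5) ≤ Real.log ((7 ^ 25 * 359 ^ 9) ^ 5) :=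
      Real.log_le_log (by positivity) (by norm_num)
    rw [Real.log_mul (by positivity) (by positivity), Real.log_pow, Real.log_pow, Real.log_pow,
      Real.log_mul (by positivity) (by positivity), Real.log_mul (by positivity) (by positivity),
      Real.log_pow, Real.log_pow, Real.log_pow, Real.log_pow] at h4
    push_cast at h4
    linarith
  have hlog2 := Real.log_two_gt_d9
  have h5 : 16 * hS (2 * (d - 1)) 1 < 25 * l := by
    rw [hl2D] at hH
    rw [hlD]
    nlinarith
  unfold spd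
  rw [hcast, div_lt_iff₀ hl0]
  refine lt_of_le_of_lt h1 ?_
  rw [show 2 * (2 * D / hS (2 * (d - 1)) 1) * l = 4 * D * l / hS (2 * (d - 1)) 1 by ring,
    lt_div_iff₀ hHpos]
  nlinarith [mul_lt_mul_of_pos_left h5 hD0]

end Pool.Agent.Lib.MP_67d80e_pr
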