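import Pool.Agent.Lib.MP_67d80e_pr.Semi

set_option autoImplicit false
set_option linter.unusedSectionVars false

open scoped BigOperators ENNReal NNReal Nat
open Filter MeasureTheory Topology

namespace Pool.Agent.Lib.MP_67d80e_pr

variable {d : ℕ}

/-- the generator annihilates `μ` -/
def GenInv (μ : Measure (Conf d)) : Prop :=
  ∀ (S Λ : Finset (Site d)) (G : Fn d), DepOn S G → S ⊆ Λ → IsBdd G →
    (∀ c h, G (vert c h) = G h) → ∫ g, (∑ x ∈ Λ, (G (ring x g) - G g)) ∂μ = 0

lemma PB_depOn {n : ℕ} {v : Fn d} (hv : DepOn (box d (n + 1)) v) :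
    DepOn (box d (n + 1)) (PB d n v) := by
  intro g h hgh
  rw [PB, avgOp_apply, avgOp_apply]
  congr 1
  refine Finset.sum_congr rfl fun x hx => ?_
  refine hv _ _ fun y hy => ?_
  rw [← ring_eq_ringSet, ← ring_eq_ringSet]
  by_cases hyx : y = x
  · subst hyx
    rw [ring_self, ring_self]
    have hn : nrm y ≤ n := mem_box_iff_nrm.1 hx
    refine newHeight_congr (hgh y hy) (fun i => hgh _ ?_) (fun i => hgh _ ?_)
    · rw [mem_box_iff_nrm]
      refine (nrm_nbrs (x := y) ?_).trans (by omega)
      exact Finset.mem_union_left _ (Finset.mem_image_of_mem _ (Finset.mem_univ i))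
    · rw [mem_box_iff_nrm]
      refine (nrm_nbrs (x := y) ?_).trans (by omega)
      exact Finset.mem_union_right _ (Finset.mem_image_of_mem _ (Finset.mem_univ i))
  · rw [ring_of_ne hyx, ring_of_ne hyx]
    exact hgh y hy

lemma PB_pow_depOn {n : ℕ} {G : Fn d} (hG : DepOn (box d n) G) (k : ℕ) :
    DepOn (box d (n + 1)) ((PB d n ^ k) G) := by
  induction k with
  | zero => simpa using hG.mono (box_subset_succ n)
  | succ k ih =>
    rw [pow_succ', Module.End.mul_apply]
    exact PB_depOn ih

lemma PB_pow_vert {n : ℕ} {G : Fn d} (hG : ∀ c h, G (vert c h) = G h) (k : ℕ) (c : ℤ)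
    (h : Conf d) : (PB d n ^ k) G (vert c h) = (PB d n ^ k) G h := by
  induction k generalizing h with
  | zero => simpa using hG c h
  | succ k ih =>
    rw [pow_succ', Module.End.mul_apply, PB, avgOp_apply, avgOp_apply]
    congr 1
    refine Finset.sum_congr rfl fun x _ => ?_
    rw [← ring_eq_ringSet, ← ring_eq_ringSet, ring_vert]
    exact ih _

/-- influence of a remote ring -/
lemma PB_pow_ring_sub {n : ℕ} {S : Finset (Site d)} {G : Fn d} (hG : DepOn S G) {C : ℝ}
    (hC : ∀ h, |G h| ≤ C) (k : ℕ) (x : Site d) (g : Conf d) :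
    |(PB d n ^ k) G (ring x g) - (PB d n ^ k) G g| ≤
      2 * C * wgt S * (1 + 4 * d / (box d n).card) ^ k / 2 ^ nrm x := by
  have hC0 : 0 ≤ C := (abs_nonneg _).trans (hC g)
  rw [PB_pow_apply, PB_pow_apply, ← map_sub]
  have h5 : ∀ w, |G (act w (ring x g)) - G (act w g)| ≤
      2 * C / 2 ^ nrm x * wgt (reach S w) := by
    intro w
    by_cases hx : x ∈ reach S w
    · have h6 := one_le_of_mem hx
      have h7 : |G (act w (ring x g)) - G (act w g)| ≤ 2 * C := by
        refine (abs_sub _ _).trans ?_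
        have h8 := hC (act w (ring x g))
        have h9 := hC (act w g)
        linarith
      refine h7.trans ?_
      have h10 := mul_le_mul_of_nonneg_left h6 (by positivity : 0 ≤ 2 * C)
      rw [mul_one] at h10
      refine h10.trans (le_of_eq ?_)
      ring
    · have : G (act w (ring x g)) = G (act w g) := hG _ _ (act_ring_eq hx g)
      rw [this, sub_self, abs_zero]
      have := wgt_nonneg (reach S w)
      positivity
  have h6 : |W n k ((fun w => G (act w (ring x g))) - fun w => G (act w g))| ≤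
      W n k (fun w => 2 * C / 2 ^ nrm x * wgt (reach S w)) := by
    rw [abs_le]
    constructor
    · rw [← map_neg]
      exact W_mono _ _ fun w => (abs_le.1 (h5 w)).1
    · exact W_mono _ _ fun w => (abs_le.1 (h5 w)).2
  refine h6.trans ?_
  have h7 : (fun w => 2 * C / 2 ^ nrm x * wgt (reach S w)) =
      (2 * C / 2 ^ nrm x) • (fun w => wgt (reach S w)) := rfl
  rw [h7, map_smul, smul_eq_mul]
  have h8 := mul_le_mul_of_nonneg_left (W_wgt_le S n k)
    (by positivity : 0 ≤ 2 * C / 2 ^ nrm x)
  refine h8.trans (le_of_eq ?_)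
  ring

section
variable {μ : Measure (Conf d)} [IsProbabilityMeasure μ] (hμ : GenInv μ) (hd : 1 ≤ d)
include hμ hd

lemma integral_PB_pow_succ {n : ℕ} {S : Finset (Site d)} {G : Fn d} (hG : DepOn S G)
    (hS : S ⊆ box d n) {C : ℝ} (hC : ∀ h, |G h| ≤ C) (hv : ∀ c h, G (vert c h) = G h) (k : ℕ) :
    |∫ g, (PB d n ^ (k + 1)) G g ∂μ - ∫ g, (PB d n ^ k) G g ∂μ| ≤
      ((box d n).card : ℝ)⁻¹ * (shl d n * (2 * C * wgt S / 2 ^ (n + 1))) *
        (1 + 4 * d / (box d n).card) ^ k := by
  have hB : (0 : ℝ) < (box d n).card := by exact_mod_cast card_box_pos (d := d) n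
  have hC0 : 0 ≤ C := (abs_nonneg _).trans (hC 0)
  set u : Fn d := (PB d n ^ k) G with hu
  have hudep : DepOn (box d (n + 1)) u := PB_pow_depOn (hG.mono hS) k
  have hub : ∀ h, |u h| ≤ C := abs_PB_pow_le hC k
  have huv : ∀ c h, u (vert c h) = u h := PB_pow_vert hv k
  have hul : IsLocal u := ⟨_, hudep⟩
  have hui : Integrable u μ := hul.integrable ⟨C, hub⟩ μ
  have hu1 : (PB d n ^ (k + 1)) G = PB d n u := by rw [pow_succ', Module.End.mul_apply]
  have hu1i : Integrable (PB d n u) μ :=
    IsLocal.integrable ⟨_, PB_depOn hudep⟩ ⟨C, fun h => (isMarkov_PB n).abs_le hub h⟩ μ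
  have hri : ∀ x, Integrable (fun g => u (ring x g) - u g) μ := fun x =>
    IsLocal.integrable ((hul.comp (localMap_ring x)).sub hul)
      ⟨C + C, fun h => (abs_sub _ _).trans (add_le_add (hub _) (hub _))⟩ μ
  have h1 : ∫ g, (PB d n ^ (k + 1)) G g ∂μ - ∫ g, u g ∂μ =
      ((box d n).card : ℝ)⁻¹ * ∫ g, (∑ x ∈ box d n, (u (ring x g) - u g)) ∂μ := by
    rw [hu1, ← integral_sub hu1i hui, ← integral_const_mul]
    refine integral_congr_ae (Filter.Eventually.of_forall fun g => ?_)
    simp only
    rw [← PB_sub_apply n u g]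
    field_simp
  have h2 := hμ _ _ u hudep (le_refl (box d (n + 1))) ⟨C, hub⟩ huv
  have h3 : ∫ g, (∑ x ∈ box d n, (u (ring x g) - u g)) ∂μ =
      - ∫ g, (∑ x ∈ box d (n + 1) \ box d n, (u (ring x g) - u g)) ∂μ := by
    have h4 : ∫ g, (∑ x ∈ box d (n + 1), (u (ring x g) - u g)) ∂μ =
        ∫ g, (∑ x ∈ box d (n + 1) \ box d n, (u (ring x g) - u g)) ∂μ +
        ∫ g, (∑ x ∈ box d n, (u (ring x g) - u g)) ∂μ := by
      rw [← integral_add (integrable_finsetSum _ fun x _ => hri x)
        (integrable_finsetSum _ fun x _ => hri x)]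
      refine integral_congr_ae (Filter.Eventually.of_forall fun g => ?_)
      exact (Finset.sum_sdiff (box_subset_succ n)).symm
    linarith
  rw [h1, h3, abs_mul, abs_neg, abs_of_pos (inv_pos.2 hB), mul_assoc]
  refine mul_le_mul_of_nonneg_left ?_ (inv_nonneg.2 hB.le)
  have h4 : ∀ g, |∑ x ∈ box d (n + 1) \ box d n, (u (ring x g) - u g)| ≤
      shl d n * (2 * C * wgt S / 2 ^ (n + 1)) * (1 + 4 * d / (box d n).card) ^ k := by
    intro g
    refine (Finset.abs_sum_le_sum_abs _ _).trans ?_
    have h5 : ∀ x ∈ box d (n + 1) \ box d n, |u (ring x g) - u g| ≤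
        2 * C * wgt S / 2 ^ (n + 1) * (1 + 4 * d / (box d n).card) ^ k := by
      intro x hx
      have h6 := PB_pow_ring_sub (n := n) hG hC k x g
      have h7 : (2 : ℝ) ^ (n + 1) ≤ 2 ^ nrm x := by
        refine pow_le_pow_right₀ (by norm_num) ?_
        have := (Finset.mem_sdiff.1 hx).2
        rw [mem_box_iff_nrm] at this
        omega
      refine h6.trans ?_
      rw [div_mul_eq_mul_div]
      refine div_le_div_of_nonneg_left ?_ (by positivity) h7
      have := wgt_nonneg S
      positivity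
    refine (Finset.sum_le_sum h5).trans (le_of_eq ?_)
    rw [Finset.sum_const, nsmul_eq_mul, Finset.card_sdiff_of_subset (box_subset_succ n),
      Nat.cast_sub (Finset.card_le_card (box_subset_succ n)), shl]
    ring
  have h5 := norm_integral_le_of_norm_le_const (μ := μ)
    (Filter.Eventually.of_forall fun g => (Real.norm_eq_abs _).trans_le (h4 g))
  rw [Real.norm_eq_abs, probReal_univ, mul_one] at h5
  exact h5

lemma integral_PB_pow {n : ℕ} {S : Finset (Site d)} {G : Fn d} (hG : DepOn S G)
    (hS : S ⊆ box d n) {C : ℝ} (hC : ∀ h, |G h| ≤ C) (hv : ∀ c h, G (vert c h) = G h) (k : ℕ) :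
    |∫ g, (PB d n ^ k) G g ∂μ - ∫ g, G g ∂μ| ≤
      shl d n * (C * wgt S / 2 ^ (n + 1)) * (1 + 4 * d / (box d n).card) ^ k := by
  have hB : (0 : ℝ) < (box d n).card := by exact_mod_cast card_box_pos (d := d) n
  have hC0 : 0 ≤ C := (abs_nonneg _).trans (hC 0)
  have hd' : (1 : ℝ) ≤ d := by exact_mod_cast hd
  set q : ℝ := 1 + 4 * d / (box d n).card with hq
  set E : ℝ := shl d n * (2 * C * wgt S / 2 ^ (n + 1)) with hE
  have hE0 : 0 ≤ E := by
    have := wgt_nonneg S
    have := shl_nonneg (d := d) n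
    positivity
  have h1 : ∀ k : ℕ, |∫ g, (PB d n ^ k) G g ∂μ - ∫ g, G g ∂μ| ≤
      ((box d n).card : ℝ)⁻¹ * E * ∑ j ∈ Finset.range k, q ^ j := by
    intro k
    induction k with
    | zero => simp
    | succ k ih =>
      have h2 := integral_PB_pow_succ hμ hd hG hS hC hv k
      rw [Finset.sum_range_succ, mul_add]
      have h3 : ∫ g, (PB d n ^ (k + 1)) G g ∂μ - ∫ g, G g ∂μ =
          (∫ g, (PB d n ^ k) G g ∂μ - ∫ g, G g ∂μ) +
          (∫ g, (PB d n ^ (k + 1)) G g ∂μ - ∫ g, (PB d n ^ k) G g ∂μ) := by ring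
      rw [h3]
      exact (abs_add_le _ _).trans (add_le_add ih h2)
  refine (h1 k).trans ?_
  have h2 : (∑ j ∈ Finset.range k, q ^ j) * (4 * d / (box d n).card) = q ^ k - 1 := by
    have := geom_sum_mul q k
    rw [hq] at this ⊢
    rwa [add_sub_cancel_left] at this
  have h3 : ((box d n).card : ℝ)⁻¹ * E * ∑ j ∈ Finset.range k, q ^ j = E / (4 * d) * (q ^ k - 1) := by
    rw [← h2]
    field_simp
  rw [h3]
  have hq1 : 1 ≤ q ^ k := one_le_pow₀ (by rw [hq]; have : (0 : ℝ) ≤ 4 * d / (box d n).card := by positivity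
                                          linarith)
  have h4 : E / (4 * d) ≤ shl d n * (C * wgt S / 2 ^ (n + 1)) := by
    rw [div_le_iff₀ (by positivity), hE]
    have h5 : 0 ≤ shl d n * (C * wgt S / 2 ^ (n + 1)) := by
      have := wgt_nonneg S
      have := shl_nonneg (d := d) n
      positivity
    have h6 : shl d n * (2 * C * wgt S / 2 ^ (n + 1)) =
        2 * (shl d n * (C * wgt S / 2 ^ (n + 1))) := by ring
    rw [h6]
    nlinarith
  have h5 : 0 ≤ shl d n * (C * wgt S / 2 ^ (n + 1)) := by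
    have := wgt_nonneg S
    have := shl_nonneg (d := d) n
    positivity
  calc E / (4 * d) * (q ^ k - 1) ≤ shl d n * (C * wgt S / 2 ^ (n + 1)) * (q ^ k - 1) :=
        mul_le_mul_of_nonneg_right h4 (by linarith)
    _ ≤ _ := mul_le_mul_of_nonneg_left (by linarith) h5

lemma integral_boxExpect {n : ℕ} {S : Finset (Site d)} {G : Fn d} (hG : DepOn S G)
    (hS : S ⊆ box d n) {C : ℝ} (hC : ∀ h, |G h| ≤ C) (hv : ∀ c h, G (vert c h) = G h) {t : ℝ}
    (ht : 0 ≤ t) :
    |∫ g, boxExpect n t G g ∂μ - ∫ g, G g ∂μ| ≤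
      shl d n * (C * wgt S / 2 ^ (n + 1)) * Real.exp (4 * d * t) := by
  have hB : (0 : ℝ) < (box d n).card := by exact_mod_cast card_box_pos (d := d) n
  have hC0 : 0 ≤ C := (abs_nonneg _).trans (hC 0)
  have hint : ∀ k, Integrable (fun g => pois ((box d n).card * t) k * (PB d n ^ k) G g) μ := by
    intro k
    refine Integrable.const_mul ?_ _
    exact IsLocal.integrable ⟨_, PB_pow_depOn (hG.mono hS) k⟩ ⟨C, abs_PB_pow_le hC k⟩ μ
  have hsum : Summable fun k => ∫ g, ‖pois ((box d n).card * t) k * (PB d n ^ k) G g‖ ∂μ := by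
    refine Summable.of_nonneg_of_le (fun k => integral_nonneg fun g => norm_nonneg _)
      (fun k => ?_) ((hasSum_pois ((box d n).card * t)).summable.mul_right C)
    have h1 : ∀ g, ‖pois ((box d n).card * t) k * (PB d n ^ k) G g‖ ≤
        pois ((box d n).card * t) k * C := by
      intro g
      rw [Real.norm_eq_abs, abs_mul, abs_of_nonneg (pois_nonneg (by positivity) k)]
      exact mul_le_mul_of_nonneg_left (abs_PB_pow_le hC k g) (pois_nonneg (by positivity) k)
    refine (integral_mono (hint k).norm (integrable_const _) h1).trans ?_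
    simp
  have h1 := hasSum_integral_of_summable_integral_norm hint hsum
  have h2 : ∫ g, boxExpect n t G g ∂μ =
      ∫ g, (∑' k, pois ((box d n).card * t) k * (PB d n ^ k) G g) ∂μ :=
    integral_congr_ae (Filter.Eventually.of_forall fun g => boxExpect_eq n t G g)
  rw [← h2] at h1
  have h3 := (hasSum_pois ((box d n).card * t)).mul_right (∫ g, G g ∂μ)
  rw [one_mul] at h3
  have h4 := h1.sub h3
  have h5 := (hasSum_pois_mul_pow ((box d n).card * t)
    (1 + 4 * d / (box d n).card)).mul_left (shl d n * (C * wgt S / 2 ^ (n + 1)))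
  have h6 : (box d n).card * t * ((1 + 4 * d / (box d n).card : ℝ) - 1) = 4 * d * t := by
    field_simp
    ring
  rw [h6] at h5
  rw [← h4.tsum_eq, ← Real.norm_eq_abs]
  refine tsum_of_norm_bounded h5 fun k => ?_
  rw [integral_const_mul, ← mul_sub, Real.norm_eq_abs, abs_mul,
    abs_of_nonneg (pois_nonneg (by positivity) k)]
  have h7 := integral_PB_pow hμ hd hG hS hC hv k
  have h8 := mul_le_mul_of_nonneg_left h7
    (pois_nonneg (show 0 ≤ ((box d n).card : ℝ) * t by positivity) k)
  refine h8.trans (le_of_eq ?_)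
  ring

end

lemma card_box (n : ℕ) : ((box d n).card : ℝ) = (2 * n + 1) ^ d := by
  unfold box
  rw [Fintype.card_piFinset]
  simp only [Int.card_Icc, Finset.prod_const, Finset.card_univ, Fintype.card_fin]
  have : ((n : ℤ) + 1 - -(n : ℤ)).toNat = 2 * n + 1 := by omega
  rw [this]
  push_cast
  ring

lemma tendsto_shl : Tendsto (fun n : ℕ => shl d n / 2 ^ (n + 1)) atTop (𝓝 0) := by
  have h1 : Tendsto (fun n : ℕ => (5 : ℝ) ^ d * ((n : ℝ) ^ d / 2 ^ n)) atTop (𝓝 0) := by
    have := (tendsto_pow_const_div_const_pow_of_one_lt d (one_lt_two : (1 : ℝ) < 2)).const_mul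
      ((5 : ℝ) ^ d)
    rwa [mul_zero] at this
  refine squeeze_zero' (Filter.Eventually.of_forall fun n => ?_) ?_ h1
  · have := shl_nonneg (d := d) n
    positivity
  · filter_upwards [eventually_ge_atTop 1] with n hn
    have h2 : shl d n ≤ (5 * n : ℝ) ^ d := by
      have h3 : shl d n ≤ (box d (n + 1)).card := by
        unfold shl
        have : (0 : ℝ) ≤ (box d n).card := Nat.cast_nonneg _
        linarith
      refine h3.trans ?_
      rw [card_box]
      refine pow_le_pow_left₀ (by positivity) ?_ d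
      have : (1 : ℝ) ≤ n := by exact_mod_cast hn
      push_cast
      linarith
    rw [mul_div_assoc', ← mul_pow]
    refine (div_le_div_of_nonneg_right h2 (by positivity)).trans ?_
    refine div_le_div_of_nonneg_left (by positivity) (by positivity) ?_
    exact pow_le_pow_right₀ (by norm_num) (Nat.le_succ n)

lemma isLocal_boxExpect {G : Fn d} (hG : IsLocal G) (n : ℕ) (t : ℝ) :
    IsLocal (boxExpect n t G) := by
  -- the box is enlarged so that it contains the sites on which `G` depends
  classical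
  obtain ⟨S, hS⟩ := hG
  let Λ : Finset (Site d) := S ∪ (box d n).biUnion fun x => insert x (nbrs x)
  have hstep : ∀ v : Fn d, DepOn Λ v → DepOn Λ (PB d n v) := by
    intro v hv g h hgh
    rw [PB, avgOp_apply, avgOp_apply]
    congr 1
    refine Finset.sum_congr rfl fun x hx => ?_
    refine hv _ _ fun y hy => ?_
    rw [← ring_eq_ringSet, ← ring_eq_ringSet]
    by_cases hyx : y = x
    · subst hyx
      rw [ring_self, ring_self]
      refine newHeight_congr (hgh y hy) (fun i => hgh _ ?_) (fun i => hgh _ ?_)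
      · refine Finset.mem_union_right _ (Finset.mem_biUnion.2 ⟨y, hx, ?_⟩)
        refine Finset.mem_insert_of_mem (Finset.mem_union_left _ ?_)
        exact Finset.mem_image_of_mem _ (Finset.mem_univ i)
      · refine Finset.mem_union_right _ (Finset.mem_biUnion.2 ⟨y, hx, ?_⟩)
        refine Finset.mem_insert_of_mem (Finset.mem_union_right _ ?_)
        exact Finset.mem_image_of_mem _ (Finset.mem_univ i)
    · rw [ring_of_ne hyx, ring_of_ne hyx]
      exact hgh y hy
  have hpow : ∀ k, DepOn Λ ((PB d n ^ k) G) := by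
    intro k
    induction k with
    | zero => simpa using DepOn.mono Finset.subset_union_left hS
    | succ k ih =>
      rw [pow_succ', Module.End.mul_apply]
      exact hstep _ ih
  refine ⟨Λ, fun g h hgh => ?_⟩
  rw [boxExpect_eq, boxExpect_eq]
  exact tsum_congr fun k => by rw [hpow k g h hgh]

/-- a probability measure annihilated by the generator is stationary -/
theorem isStationary_of_genInv {μ : Measure (Conf d)} (hp : IsProbabilityMeasure μ)
    (hμ : GenInv μ) (hd : 1 ≤ d) (h0 : ∀ᵐ g ∂μ, g 0 = 0) : IsStationary μ := by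
  refine ⟨hp, fun t ht F hF hFb => ?_⟩
  set G : Fn d := fun h => F (recenter h) with hGdef
  have hGl : IsLocal G := hF.comp localMap_recenter
  obtain ⟨C, hC⟩ := hFb
  have hGC : ∀ h, |G h| ≤ C := fun h => hC _
  have hv : ∀ c h, G (vert c h) = G h := fun c h => by
    rw [hGdef]
    simp only [recenter_vert]
  have h1 : ∫ g, F g ∂μ = ∫ g, G g ∂μ := by
    refine integral_congr_ae ?_
    filter_upwards [h0] with g hg
    have : recenter g = g := by
      ext x
      simp [recenter, hg]
    rw [hGdef]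
    simp only [this]
  rw [h1]
  obtain ⟨S, hS⟩ := hGl
  refine ⟨fun g => tendsto_boxExpect ⟨S, hS⟩ ⟨C, hGC⟩ ht g, ?_⟩
  have hlim1 : Tendsto (fun n => ∫ g, boxExpect n t G g ∂μ) atTop (𝓝 (∫ g, expect t G g ∂μ)) := by
    refine tendsto_integral_of_dominated_convergence (fun _ => C) (fun n => ?_)
      (integrable_const C) (fun n => ?_) ?_
    · exact (isLocal_boxExpect ⟨S, hS⟩ n t).measurable.aestronglyMeasurable
    · refine Filter.Eventually.of_forall fun g => ?_
      rw [Real.norm_eq_abs]
      exact abs_boxExpect_le ht hGC g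
    · refine Filter.Eventually.of_forall fun g => ?_
      exact tendsto_boxExpect ⟨S, hS⟩ ⟨C, hGC⟩ ht g
  have hlim2 : Tendsto (fun n => ∫ g, boxExpect n t G g ∂μ) atTop (𝓝 (∫ g, G g ∂μ)) := by
    obtain ⟨R, hR⟩ := exists_box S
    rw [tendsto_iff_norm_sub_tendsto_zero]
    have h2 : Tendsto (fun n : ℕ => C * wgt S * Real.exp (4 * d * t) *
        (shl d n / 2 ^ (n + 1))) atTop (𝓝 0) := by
      have := (tendsto_shl (d := d)).const_mul (C * wgt S * Real.exp (4 * d * t))
      rwa [mul_zero] at this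
    refine squeeze_zero' (Filter.Eventually.of_forall fun n => norm_nonneg _) ?_ h2
    filter_upwards [eventually_ge_atTop R] with n hn
    have hSn : S ⊆ box d n := by
      refine hR.trans fun x hx => ?_
      rw [mem_box_iff_nrm] at hx ⊢
      omega
    rw [Real.norm_eq_abs]
    refine (integral_boxExpect hμ hd hS hSn hGC hv ht).trans (le_of_eq ?_)
    ring
  exact tendsto_nhds_unique hlim1 hlim2

end Pool.Agent.Lib.MP_67d80e_pr
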