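import Pool.Agent.Lib.MP_67d80e_pr.Stat

set_option autoImplicit false
set_option linter.unusedSectionVars false

open scoped BigOperators ENNReal NNReal Nat
open Filter MeasureTheory Topology

namespace Pool.Agent.Lib.MP_67d80e_pr

variable {d : ℕ}

/-- the symmetries of the lattice -/
abbrev SymG (d : ℕ) := Equiv.Perm (Fin d) × (Fin d → ℤˣ)

/-- the action of a symmetry on sites -/
def sg (σ : SymG d) (x : Site d) : Site d := signedPerm σ.1 σ.2 x

/-- the action of a symmetry on height functions -/
def sact (σ : SymG d) (h : Conf d) : Conf d := fun x => h (sg σ x)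

lemma sg_add (σ : SymG d) (x y : Site d) : sg σ (x + y) = sg σ x + sg σ y := signedPerm_add _ _ _ _

lemma sg_zero (σ : SymG d) : sg σ (0 : Site d) = 0 := signedPerm_zero _ _

lemma sg_injective (σ : SymG d) : Function.Injective (sg σ) := by
  intro x y h
  ext i
  have h1 := congrFun h (σ.1.symm i)
  simp only [sg, signedPerm, Equiv.apply_symm_apply] at h1
  rcases Int.units_eq_one_or (σ.2 (σ.1.symm i)) with h2 | h2
  · rw [h2] at h1; simpa using h1
  · rw [h2] at h1; simpa using h1

/-- composition of symmetries -/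
def scomp (σ τ : SymG d) : SymG d := (τ.1 * σ.1, fun i => σ.2 i * τ.2 (σ.1 i))

lemma sg_scomp (σ τ : SymG d) (x : Site d) : sg (scomp σ τ) x = sg σ (sg τ x) := by
  ext i
  simp [sg, scomp, signedPerm, mul_assoc]

lemma sact_sact (σ τ : SymG d) (h : Conf d) : sact τ (sact σ h) = sact (scomp σ τ) h := by
  ext x
  simp only [sact, sg_scomp]

lemma scomp_injective (τ : SymG d) : Function.Injective (fun σ : SymG d => scomp σ τ) := by
  rintro ⟨π, ε⟩ ⟨π', ε'⟩ h
  simp only [scomp, Prod.mk.injEq] at h
  obtain ⟨h1, h2⟩ := h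
  have h3 : π = π' := mul_left_cancel h1
  subst h3
  rw [Prod.mk.injEq]
  refine ⟨rfl, ?_⟩
  funext i
  exact mul_right_cancel (congrFun h2 i)

lemma localMap_sact (σ : SymG d) : LocalMap (sact σ) := by
  intro x
  exact ⟨{sg σ x}, fun g h hgh => hgh _ (by simp)⟩

lemma sact_vert (σ : SymG d) (c : ℤ) (h : Conf d) : sact σ (vert c h) = vert c (sact σ h) := rfl

lemma ring_sact (σ : SymG d) (x : Site d) (h : Conf d) :
    ring x (sact σ h) = sact σ (ring (sg σ x) h) := by
  ext z
  by_cases hz : z = x
  · subst hz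
    rw [ring_self]
    unfold sact
    rw [ring_self]
    exact newHeight_signedPerm h σ.1 σ.2 z
  · rw [ring_of_ne hz]
    unfold sact
    rw [ring_of_ne (fun h => hz (sg_injective σ h))]

lemma recenter_trans_sact (σ : SymG d) (y : Site d) (h : Conf d) :
    recenter (trans y (sact σ h)) = sact σ (recenter (trans (sg σ y) h)) := by
  ext z
  simp [recenter, trans, sact, sg_add]

/-- the average of the images of a measure under all symmetries -/
noncomputable def symM (μ : Measure (Conf d)) : Measure (Conf d) :=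
  ((Finset.univ : Finset (SymG d)).card : ℝ≥0∞)⁻¹ • ∑ σ : SymG d, μ.map (sact σ)

lemma cardG_pos : 0 < (Finset.univ : Finset (SymG d)).card := Finset.card_pos.2 Finset.univ_nonempty

section
variable {μ : Measure (Conf d)} [hp : IsProbabilityMeasure μ]

lemma prob_map_sact (σ : SymG d) : IsProbabilityMeasure (μ.map (sact σ)) :=
  Measure.isProbabilityMeasure_map (localMap_sact σ).measurable.aemeasurable

lemma prob_symM : IsProbabilityMeasure (symM μ) := by
  have hc : ((Finset.univ : Finset (SymG d)).card : ℝ≥0∞) ≠ 0 := by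
    exact_mod_cast (cardG_pos (d := d)).ne'
  refine ⟨?_⟩
  rw [symM, Measure.smul_apply, Measure.finsetSum_apply]
  have h1 : ∀ σ ∈ (Finset.univ : Finset (SymG d)), (μ.map (sact σ)) Set.univ = 1 :=
    fun σ _ => (prob_map_sact (μ := μ) σ).measure_univ
  rw [Finset.sum_congr rfl h1, Finset.sum_const, nsmul_eq_mul, mul_one, smul_eq_mul]
  exact ENNReal.inv_mul_cancel hc (ENNReal.natCast_ne_top _)

lemma integral_symM {F : Fn d} (hF : Measurable F)
    (hint : ∀ σ : SymG d, Integrable (fun g => F (sact σ g)) μ) :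
    Integrable F (symM μ) ∧ ∫ g, F g ∂(symM μ) =
      ((Finset.univ : Finset (SymG d)).card : ℝ)⁻¹ * ∑ σ : SymG d, ∫ g, F (sact σ g) ∂μ := by
  have hc : ((Finset.univ : Finset (SymG d)).card : ℝ≥0∞) ≠ 0 := by
    exact_mod_cast (cardG_pos (d := d)).ne'
  have h1 : ∀ σ : SymG d, Integrable F (μ.map (sact σ)) := fun σ =>
    (integrable_map_measure hF.aestronglyMeasurable (localMap_sact σ).measurable.aemeasurable).2
      (hint σ)
  constructor
  · refine Integrable.smul_measure ?_ (ENNReal.inv_ne_top.2 hc)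
    rw [integrable_finsetSum_measure]
    exact fun σ _ => h1 σ
  · rw [symM, integral_smul_measure, integral_finsetSum_measure fun σ _ => h1 σ,
      ENNReal.toReal_inv, ENNReal.toReal_natCast, smul_eq_mul]
    congr 1
    refine Finset.sum_congr rfl fun σ _ => ?_
    exact integral_map (localMap_sact σ).measurable.aemeasurable hF.aestronglyMeasurable

lemma integral_symM_local {F : Fn d} (hF : IsLocal F) (hb : IsBdd F) :
    ∫ g, F g ∂(symM μ) =
      ((Finset.univ : Finset (SymG d)).card : ℝ)⁻¹ * ∑ σ : SymG d, ∫ g, F (sact σ g) ∂μ := by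
  refine (integral_symM hF.measurable fun σ => ?_).2
  refine IsLocal.integrable (hF.comp (localMap_sact σ)) ?_ μ
  obtain ⟨C, hC⟩ := hb
  exact ⟨C, fun h => hC _⟩

lemma genInv_symM (hμ : GenInv μ) : GenInv (symM μ) := by
  classical
  intro S Λ G hG hS hGb hv
  have hGl : IsLocal G := ⟨S, hG⟩
  have hDl : IsLocal (fun g => ∑ x ∈ Λ, (G (ring x g) - G g)) :=
    IsLocal.sum Λ fun x _ => (hGl.comp (localMap_ring x)).sub hGl
  have hDb : IsBdd (fun g : Conf d => ∑ x ∈ Λ, (G (ring x g) - G g)) := by
    obtain ⟨C, hC⟩ := hGb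
    refine ⟨∑ x ∈ Λ, (C + C), fun h => ?_⟩
    refine (Finset.abs_sum_le_sum_abs _ _).trans (Finset.sum_le_sum fun x _ => ?_)
    exact (abs_sub _ _).trans (add_le_add (hC _) (hC _))
  rw [integral_symM_local hDl hDb]
  have h1 : ∀ σ ∈ (Finset.univ : Finset (SymG d)),
      ∫ g, (∑ x ∈ Λ, (G (ring x (sact σ g)) - G (sact σ g))) ∂μ = 0 := by
    intro σ _
    set G' : Fn d := fun g => G (sact σ g) with hG'
    have h2 : DepOn (S.image (sg σ)) G' := by
      intro g h hgh
      refine hG _ _ fun x hx => ?_
      exact hgh _ (Finset.mem_image_of_mem _ hx)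
    have h3 := hμ (S.image (sg σ)) (Λ.image (sg σ)) G' h2 (Finset.image_subset_image hS)
      (by obtain ⟨C, hC⟩ := hGb; exact ⟨C, fun h => hC _⟩)
      (fun c h => by rw [hG']; simp only [sact_vert, hv])
    rw [← h3]
    refine integral_congr_ae (Filter.Eventually.of_forall fun g => ?_)
    simp only
    rw [Finset.sum_image fun x _ y _ h => sg_injective σ h]
    refine Finset.sum_congr rfl fun x _ => ?_
    rw [ring_sact]
  rw [Finset.sum_eq_zero h1, mul_zero]

lemma ae_zero_symM (h0 : ∀ᵐ g ∂μ, g 0 = 0) : ∀ᵐ g ∂(symM μ), g 0 = 0 := by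
  rw [symM]
  refine Measure.ae_smul_measure ?_ _
  have hms : MeasurableSet {g : Conf d | g 0 = 0} :=
    (measurable_pi_apply (0 : Site d)) (MeasurableSet.singleton 0)
  rw [ae_iff, Measure.finsetSum_apply]
  refine Finset.sum_eq_zero fun σ _ => ?_
  have h1 : ∀ᵐ g ∂(μ.map (sact σ)), g 0 = 0 := by
    rw [ae_map_iff (localMap_sact σ).measurable.aemeasurable hms]
    filter_upwards [h0] with g hg
    unfold sact
    rw [sg_zero]
    exact hg
  exact ae_iff.1 h1

lemma map_trans_symM (hT : ∀ y, μ.map (fun g => recenter (trans y g)) = μ) (y : Site d) :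
    (symM μ).map (fun g => recenter (trans y g)) = symM μ := by
  have := prob_symM (μ := μ)
  have hTm : LocalMap (fun g : Conf d => recenter (trans y g)) := by
    intro x
    refine ⟨{x + y, 0 + y}, fun g h hgh => ?_⟩
    simp only [recenter, trans]
    rw [hgh (x + y) (by simp), hgh (0 + y) (by simp)]
  have hp2 : IsProbabilityMeasure ((symM μ).map (fun g => recenter (trans y g))) :=
    Measure.isProbabilityMeasure_map hTm.measurable.aemeasurable
  refine measure_ext_local fun F hF hFb => ?_
  rw [integral_map hTm.measurable.aemeasurable hF.measurable.aestronglyMeasurable,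
    integral_symM_local (hF.comp hTm) (by obtain ⟨C, hC⟩ := hFb; exact ⟨C, fun h => hC _⟩),
    integral_symM_local hF hFb]
  congr 1
  refine Finset.sum_congr rfl fun σ _ => ?_
  have hTm' : LocalMap (fun g : Conf d => recenter (trans (sg σ y) g)) := by
    intro x
    refine ⟨{x + sg σ y, 0 + sg σ y}, fun g h hgh => ?_⟩
    simp only [recenter, trans]
    rw [hgh (x + sg σ y) (by simp), hgh (0 + sg σ y) (by simp)]
  conv_rhs => rw [← hT (sg σ y)]
  rw [integral_map hTm'.measurable.aemeasurable
    ((hF.comp (localMap_sact σ)).measurable.aestronglyMeasurable)]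
  refine integral_congr_ae (Filter.Eventually.of_forall fun g => ?_)
  simp only [recenter_trans_sact]

lemma map_sact_symM (τ : SymG d) : (symM μ).map (sact τ) = symM μ := by
  have := prob_symM (μ := μ)
  have hTm := localMap_sact (d := d) τ
  have hp2 : IsProbabilityMeasure ((symM μ).map (sact τ)) :=
    Measure.isProbabilityMeasure_map hTm.measurable.aemeasurable
  refine measure_ext_local fun F hF hFb => ?_
  rw [integral_map hTm.measurable.aemeasurable hF.measurable.aestronglyMeasurable,
    integral_symM_local (hF.comp hTm) (by obtain ⟨C, hC⟩ := hFb; exact ⟨C, fun h => hC _⟩),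
    integral_symM_local hF hFb]
  congr 1
  simp only [sact_sact]
  exact Function.Bijective.sum_comp
    ((Finite.injective_iff_bijective).1 (scomp_injective τ))
    (fun σ => ∫ g, F (sact σ g) ∂μ)

lemma integrable_hgt_symM (hi : ∀ x, Integrable (fun g : Conf d => (g x : ℝ)) μ) (x : Site d) :
    Integrable (fun g : Conf d => (g x : ℝ)) (symM μ) :=
  (integral_symM (isLocal_hgt x).measurable fun σ => hi (sg σ x)).1

end

end Pool.Agent.Lib.MP_67d80e_pr
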