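import Pool.Agent.Lib.MP_67d80e_pr.Decor
import Pool.Agent.Lib.MP_67d80e_pr.Numeric
import Pool.Agent.Lib.MP_67d80e_pr.Stat
import Pool.Agent.Lib.MP_67d80e_pr.Sym

set_option autoImplicit false

open scoped BigOperators
open Filter MeasureTheory Topology

namespace Pool.Agent.Lib.MP_67d80e_pr

variable {d : ℕ}

/-- tilted stationary measures in high dimension -/
theorem exists_tilted (hd : 360 ≤ d) (i0 : Fin d) : ∃ (μ : Measure (Conf d)) (U : Ultrafilter ℕ),
    IsLim i0 μ U ∧ 0 < ∫ g, (g (e i0) : ℝ) ∂μ := by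
  obtain ⟨hl, hcrit⟩ := crit hd
  obtain ⟨μ, U, h1, h2, h3⟩ := exists_limit hl i0
  have hμ : IsLim i0 μ U := ⟨h1, h2, h3⟩
  exact ⟨μ, U, hμ, slope_pos hμ (by omega) hl hcrit⟩

lemma genInv_of_isLim {i0 : Fin d} {μ : Measure (Conf d)} {U : Ultrafilter ℕ}
    (hμ : IsLim i0 μ U) : GenInv μ :=
  fun _ _ _ hG hS hGb hv => gen_zero hμ hG hS hGb hv

/-- the tilted stationary distributions -/
theorem tilted_stationary (hd : 360 ≤ d) (i : Fin d) : ∃ μ : Measure (Conf d),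
    IsStationary μ ∧ (∀ x, Integrable (fun g : Conf d => (g x : ℝ)) μ) ∧
      (∀ y, μ.map (fun g x => g (x + y) - g y) = μ) ∧
      0 < ∫ g, (g (e i) : ℝ) ∂μ ∧ ∀ j, j ≠ i → ∫ g, (g (e j) : ℝ) ∂μ = 0 := by
  obtain ⟨μ, U, hμ, hs⟩ := exists_tilted hd i
  refine ⟨μ, isStationary_of_genInv hμ.prob (genInv_of_isLim hμ) (by omega) (ae_zero hμ),
    integrable_hgt hμ, fun y => ?_, hs, fun j hj => integral_hgt_lateral hμ hj⟩
  have h1 := map_trans hμ y
  have h2 : (fun g : Conf d => recenter (trans y g)) = fun g x => g (x + y) - g y := by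
    funext g x
    simp [recenter, trans]
  rwa [h2] at h1

/-- a symmetric stationary distribution whose gradients do not decorrelate -/
theorem sym_not_decorrelated (hd : 360 ≤ d) : ∃ μ : Measure (Conf d), IsStationary μ ∧
    (∀ x, Integrable (fun g : Conf d => (g x : ℝ)) μ) ∧
    (∀ y, μ.map (fun g x => g (x + y) - g y) = μ) ∧
    (∀ π ε, μ.map (fun g x => g (signedPerm π ε x)) = μ) ∧
    ∃ φ ψ : (Fin d → ℤ) → ℝ, IsBdd φ ∧ IsBdd ψ ∧ ∃ ε : ℝ, 0 < ε ∧ ∃ x y : ℕ → Site d,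
      Tendsto (fun n => ‖x n - y n‖) atTop atTop ∧
        ∀ n, ε ≤ |gradCov μ φ ψ (x n) (y n)| := by
  set i0 : Fin d := ⟨0, by omega⟩
  obtain ⟨μ, U, hμ, hs⟩ := exists_tilted hd i0
  have hp := hμ.prob
  obtain ⟨φ, hφ, ε, hε, x, y, hxy, hcov⟩ :=
    decor_fails (map_trans hμ) (integrable_hgt hμ) (ae_zero hμ) i0 hs
  refine ⟨symM μ, isStationary_of_genInv prob_symM (genInv_symM (genInv_of_isLim hμ)) (by omega)
    (ae_zero_symM (ae_zero hμ)), integrable_hgt_symM (integrable_hgt hμ), fun y => ?_,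
    fun π ε => map_sact_symM (π, ε), φ, φ, hφ, hφ, ε, hε, x, y, hxy, hcov⟩
  have h1 := map_trans_symM (map_trans hμ) y
  have h2 : (fun g : Conf d => recenter (trans y g)) = fun g x => g (x + y) - g y := by
    funext g x
    simp [recenter, trans]
  rwa [h2] at h1

end Pool.Agent.Lib.MP_67d80e_pr
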