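import Pool.Agent.Lib.MP_67d80e_pr.Props

set_option autoImplicit false
set_option linter.unusedSectionVars false

open scoped BigOperators ENNReal NNReal
open Filter MeasureTheory Topology

namespace Pool.Agent.Lib.MP_67d80e_pr

variable {d : ℕ}

/-- the height differences produced by a ring outside `S` are not seen by a function of the
heights in `S` -/
lemma DepOn.ring_eq {S : Finset (Site d)} {G : Fn d} (hG : DepOn S G) {x : Site d} (hx : x ∉ S)
    (h : Conf d) : G (ring x h) = G h := by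
  refine hG _ _ fun y hy => ?_
  refine ring_of_ne ?_ h
  rintro rfl
  exact hx hy

lemma sum_ring_eq {S Λ : Finset (Site d)} {G : Fn d} (hG : DepOn S G) (hS : S ⊆ Λ) (h : Conf d) :
    ∑ x ∈ Λ, (G (ring x h) - G h) = ∑ x ∈ S, (G (ring x h) - G h) := by
  symm
  refine Finset.sum_subset hS fun x _ hx => ?_
  rw [hG.ring_eq hx, sub_self]

lemma exists_box (S : Finset (Site d)) : ∃ R : ℕ, S ⊆ box d R := by
  refine ⟨rch S, fun z hz => ?_⟩
  rw [mem_box]
  intro i
  have := rch_le_iff.1 (le_refl (rch S)) z hz i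
  rw [Int.abs_eq_natAbs]
  exact_mod_cast this

/-- for large tori one ring of the periodic clocks acts on a local function as one ring -/
lemma PT_sub_eq {N : ℕ} [NeZero N] {S : Finset (Site d)} {G : Fn d} (hG : DepOn S G) {R : ℕ}
    (hS : S ⊆ box d R) (hR : 2 * R < N) (h : Conf d) :
    (nT d N : ℝ) * ((PT d N G) h - G h) = ∑ x ∈ S, (G (ring x h) - G h) := by
  classical
  rw [PT_sub_apply]
  have hinj : Set.InjOn (cls (d := d) N) S := (cls_injOn N hR).mono (by exact_mod_cast hS)
  have h1 : ∑ a : Fin d → ZMod N, (G (ringSet (TS N a) h) - G h) =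
      ∑ a ∈ S.image (cls N), (G (ringSet (TS N a) h) - G h) := by
    symm
    refine Finset.sum_subset (Finset.subset_univ _) fun a _ ha => ?_
    rw [sub_eq_zero]
    refine hG _ _ fun y hy => ?_
    refine ringSet_of_notMem (fun hya => ha ?_) h
    rw [mem_TS] at hya
    exact Finset.mem_image.2 ⟨y, hy, hya⟩
  rw [h1, Finset.sum_image hinj]
  refine Finset.sum_congr rfl fun x hx => ?_
  congr 1
  refine hG _ _ fun y hy => ?_
  by_cases hyx : y = x
  · subst hyx
    rw [ringSet_of_mem (mem_TS.2 rfl), ring_self]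
  · rw [ring_of_ne hyx, ringSet_of_notMem]
    intro hya
    rw [mem_TS] at hya
    exact hyx (hinj hy hx hya)

lemma ring_vert (x : Site d) (c : ℤ) (h : Conf d) : ring x (vert c h) = vert c (ring x h) :=
  ring_add_const x h c

lemma recenter_eq_vert (h : Conf d) : recenter h = vert (-(h 0)) h := by
  ext x
  simp [recenter, vert, sub_eq_add_neg]

/-- the generator annihilates the limit -/
lemma gen_zero {i0 : Fin d} {μ : Measure (Conf d)} {U : Ultrafilter ℕ} (hμ : IsLim i0 μ U)
    {S Λ : Finset (Site d)} {G : Fn d} (hG : DepOn S G) (hSΛ : S ⊆ Λ) (hGb : IsBdd G)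
    (hv : ∀ c h, G (vert c h) = G h) :
    ∫ g, (∑ x ∈ Λ, (G (ring x g) - G g)) ∂μ = 0 := by
  have hp := hμ.prob
  simp_rw [sum_ring_eq hG hSΛ]
  obtain ⟨C, hC⟩ := hGb
  obtain ⟨R, hR⟩ := exists_box S
  set D : Fn d := fun g => ∑ x ∈ S, (G (ring x g) - G g) with hD
  have hGl : IsLocal G := ⟨S, hG⟩
  have hDl : IsLocal D := IsLocal.sum S fun x _ => (hGl.comp (localMap_ring x)).sub hGl
  have hDb : IsBdd D := by
    refine ⟨∑ x ∈ S, (C + C), fun h => ?_⟩
    refine (Finset.abs_sum_le_sum_abs _ _).trans (Finset.sum_le_sum fun x _ => ?_)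
    exact (abs_sub _ _).trans (add_le_add (hC _) (hC _))
  have hDrec : ∀ h, D (recenter h) = D h := by
    intro h
    rw [recenter_eq_vert, hD]
    simp only [ring_vert, hv]
  have h1 := hμ.lim D hDl hDb
  simp only [hDrec] at h1
  have h2 : Tendsto (fun N => cesN i0 N D) U (𝓝 0) := by
    have h3 : ∀ᶠ N in (U : Filter ℕ), |cesN i0 N D| ≤ 2 * C * (1 / ((N : ℝ) + 1)) := by
      have h4 : ∀ᶠ N in (U : Filter ℕ), 2 * R ≤ N := hμ.le (eventually_ge_atTop (2 * R))
      filter_upwards [h4] with N hN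
      have h5 : D = (nT d (N + 1) : ℝ) • (PT d (N + 1) G - G) := by
        ext h
        rw [Pi.smul_apply, Pi.sub_apply, smul_eq_mul, PT_sub_eq hG hR (by omega)]
      have hT : (0 : ℝ) < nT d (N + 1) := by exact_mod_cast nT_pos (d := d) (N + 1)
      rw [h5, map_smul, smul_eq_mul]
      unfold cesN
      rw [ces_telescope]
      have h6 : |(PT d (N + 1) ^ JN d N) G (tilt i0) - G (tilt i0)| ≤ 2 * C := by
        refine (abs_sub _ _).trans ?_
        have h7 := ((isMarkov_PT (d := d) (N + 1)).pow (JN d N)).abs_le hC (tilt i0)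
        have h8 := hC (tilt i0)
        linarith
      have h7 : (nT d (N + 1) : ℝ) * ((JN d N : ℝ)⁻¹ *
          ((PT d (N + 1) ^ JN d N) G (tilt i0) - G (tilt i0))) =
          ((PT d (N + 1) ^ JN d N) G (tilt i0) - G (tilt i0)) * (1 / ((N : ℝ) + 1)) := by
        unfold JN
        push_cast
        field_simp
      rw [h7, abs_mul, abs_of_nonneg (by positivity : (0 : ℝ) ≤ 1 / ((N : ℝ) + 1))]
      exact mul_le_mul_of_nonneg_right h6 (by positivity)
    have h4 : Tendsto (fun N : ℕ => 2 * C * (1 / ((N : ℝ) + 1))) U (𝓝 0) := by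
      refine Tendsto.mono_left ?_ hμ.le
      have := (tendsto_one_div_add_atTop_nhds_zero_nat (𝕜 := ℝ)).const_mul (2 * C)
      rwa [mul_zero] at this
    exact squeeze_zero_norm' (by simpa using h3) h4
  exact tendsto_nhds_unique h1 h2

end Pool.Agent.Lib.MP_67d80e_pr
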