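import Pool.Agent.Lib.MP_67d80e_pr.Defs

set_option autoImplicit false

open scoped BigOperators
open Filter MeasureTheory

namespace Pool.Agent.Lib.MP_67d80e_pr

variable {d : ℕ}

lemma newHeight_le_iff {h : Conf d} {x : Site d} {c : ℤ} :
    newHeight h x ≤ c ↔ h x + 1 ≤ c ∧ ∀ i, h (x + e i) ≤ c ∧ h (x - e i) ≤ c := by
  unfold newHeight
  rw [Finset.fold_max_le]
  simp

lemma succ_le_newHeight (h : Conf d) (x : Site d) : h x + 1 ≤ newHeight h x :=
  (newHeight_le_iff.1 le_rfl).1

lemma le_newHeight (h : Conf d) (x : Site d) : h x ≤ newHeight h x := by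
  have := succ_le_newHeight h x
  omega

lemma add_le_newHeight (h : Conf d) (x : Site d) (i : Fin d) : h (x + e i) ≤ newHeight h x :=
  ((newHeight_le_iff.1 le_rfl).2 i).1

lemma sub_le_newHeight (h : Conf d) (x : Site d) (i : Fin d) : h (x - e i) ≤ newHeight h x :=
  ((newHeight_le_iff.1 le_rfl).2 i).2

/-- `newHeight h x` is attained -/
lemma newHeight_eq_or (h : Conf d) (x : Site d) :
    newHeight h x = h x + 1 ∨ ∃ i, newHeight h x = h (x + e i) ∨ newHeight h x = h (x - e i) := by
  have h1 : newHeight h x ≤ newHeight h x := le_rfl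
  unfold newHeight at h1 ⊢
  rw [Finset.le_fold_max] at h1
  rcases h1 with h1 | ⟨i, -, h1⟩
  · left
    exact le_antisymm h1 (Finset.le_fold_max _ |>.2 (Or.inl le_rfl))
  · right
    refine ⟨i, ?_⟩
    rcases le_max_iff.1 h1 with h2 | h2
    · left
      refine le_antisymm h2 ?_
      exact add_le_newHeight h x i
    · right
      refine le_antisymm h2 ?_
      exact sub_le_newHeight h x i

lemma newHeight_mono {g h : Conf d} (hgh : g ≤ h) (x : Site d) : newHeight g x ≤ newHeight h x := by
  rw [newHeight_le_iff]
  refine ⟨?_, fun i => ⟨?_, ?_⟩⟩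
  · have h1 : g x ≤ h x := hgh x
    have h2 := succ_le_newHeight h x
    omega
  · exact (hgh _).trans (add_le_newHeight h x i)
  · exact (hgh _).trans (sub_le_newHeight h x i)

/-- `newHeight h x` only depends on the heights at `x` and at its neighbours -/
lemma newHeight_congr {g h : Conf d} {x : Site d} (h0 : g x = h x)
    (h1 : ∀ i, g (x + e i) = h (x + e i)) (h2 : ∀ i, g (x - e i) = h (x - e i)) :
    newHeight g x = newHeight h x := by
  unfold newHeight
  simp only [h0, h1, h2]

lemma newHeight_add_const (h : Conf d) (c : ℤ) (x : Site d) :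
    newHeight (fun z => h z + c) x = newHeight h x + c := by
  refine le_antisymm ?_ ?_
  · rw [newHeight_le_iff]
    refine ⟨?_, fun i => ⟨?_, ?_⟩⟩
    · have := succ_le_newHeight h x
      omega
    · have := add_le_newHeight h x i
      omega
    · have := sub_le_newHeight h x i
      omega
  · have : newHeight h x ≤ newHeight (fun z => h z + c) x - c := by
      rw [newHeight_le_iff]
      refine ⟨?_, fun i => ⟨?_, ?_⟩⟩
      · have := succ_le_newHeight (fun z => h z + c) x
        omega
      · have := add_le_newHeight (fun z => h z + c) x i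
        omega
      · have := sub_le_newHeight (fun z => h z + c) x i
        omega
    omega

lemma newHeight_shift (h : Conf d) (y x : Site d) :
    newHeight (fun z => h (z + y)) x = newHeight h (x + y) := by
  unfold newHeight
  have h1 : ∀ i : Fin d, x + e i + y = x + y + e i := fun i => by abel
  have h2 : ∀ i : Fin d, x - e i + y = x + y - e i := fun i => by abel
  simp only [h1, h2]

/-! ### signed permutations -/

lemma signedPerm_add (π : Equiv.Perm (Fin d)) (ε : Fin d → ℤˣ) (x y : Site d) :
    signedPerm π ε (x + y) = signedPerm π ε x + signedPerm π ε y := by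
  ext i
  simp [signedPerm, mul_add]

lemma signedPerm_sub (π : Equiv.Perm (Fin d)) (ε : Fin d → ℤˣ) (x y : Site d) :
    signedPerm π ε (x - y) = signedPerm π ε x - signedPerm π ε y := by
  ext i
  simp [signedPerm, mul_sub]

lemma signedPerm_zero (π : Equiv.Perm (Fin d)) (ε : Fin d → ℤˣ) :
    signedPerm π ε (0 : Site d) = 0 := by
  ext i
  simp [signedPerm]

lemma signedPerm_e (π : Equiv.Perm (Fin d)) (ε : Fin d → ℤˣ) (i : Fin d) :
    signedPerm π ε (e i) = (ε (π.symm i) : ℤ) • e (π.symm i) := by
  ext j
  simp only [signedPerm, e, Pi.smul_apply, smul_eq_mul]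
  by_cases hj : π j = i
  · have : j = π.symm i := by rw [← hj]; simp
    subst this
    simp
  · have : j ≠ π.symm i := by
      rintro rfl
      simp at hj
    rw [Pi.single_eq_of_ne hj, Pi.single_eq_of_ne this]
    simp

/-- the image of the `i`-th basis vector is plus or minus a basis vector -/
lemma signedPerm_e_cases (π : Equiv.Perm (Fin d)) (ε : Fin d → ℤˣ) (i : Fin d) :
    signedPerm π ε (e i) = e (π.symm i) ∨ signedPerm π ε (e i) = - e (π.symm i) := by
  rw [signedPerm_e]
  rcases Int.units_eq_one_or (ε (π.symm i)) with h | h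
  · left; rw [h]; simp
  · right; rw [h]; simp

lemma newHeight_signedPerm (h : Conf d) (π : Equiv.Perm (Fin d)) (ε : Fin d → ℤˣ) (x : Site d) :
    newHeight (fun z => h (signedPerm π ε z)) x = newHeight h (signedPerm π ε x) := by
  refine le_antisymm ?_ ?_
  · rw [newHeight_le_iff]
    refine ⟨succ_le_newHeight h _, fun i => ?_⟩
    rw [signedPerm_add, signedPerm_sub]
    rcases signedPerm_e_cases π ε i with h1 | h1
    · rw [h1]
      exact ⟨add_le_newHeight _ _ _, sub_le_newHeight _ _ _⟩
    · rw [h1, ← sub_eq_add_neg, sub_neg_eq_add]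
      exact ⟨sub_le_newHeight _ _ _, add_le_newHeight _ _ _⟩
  · rw [newHeight_le_iff]
    refine ⟨succ_le_newHeight (fun z => h (signedPerm π ε z)) x, fun i => ?_⟩
    have h2 := add_le_newHeight (fun z => h (signedPerm π ε z)) x (π i)
    have h3 := sub_le_newHeight (fun z => h (signedPerm π ε z)) x (π i)
    simp only [signedPerm_add, signedPerm_sub] at h2 h3
    rcases signedPerm_e_cases π ε (π i) with h1 | h1
    · rw [h1, Equiv.symm_apply_apply] at h2 h3
      exact ⟨h2, h3⟩
    · rw [h1, Equiv.symm_apply_apply, ← sub_eq_add_neg] at h2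
      rw [h1, Equiv.symm_apply_apply, sub_neg_eq_add] at h3
      exact ⟨h3, h2⟩

end Pool.Agent.Lib.MP_67d80e_pr
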