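import Pool.Agent.Lib.MP_67d80e_pr.Local

set_option autoImplicit false
set_option linter.unusedSectionVars false

open scoped BigOperators ENNReal NNReal
open Filter MeasureTheory Topology

namespace Pool.Agent.Lib.MP_67d80e_pr

variable {d : ℕ}

/-- a functional is represented by a probability measure for which all measurable functions are
integrable -/
def Repr (L : Fn d → ℝ) : Prop :=
  ∃ ν : Measure (Conf d), IsProbabilityMeasure ν ∧
    ∀ F : Fn d, Measurable F → Integrable F ν ∧ ∫ h, F h ∂ν = L F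

lemma repr_dirac (h0 : Conf d) : Repr (fun F => F h0) := by
  refine ⟨Measure.dirac h0, inferInstance, fun F hF => ?_⟩
  refine ⟨?_, integral_dirac' _ _ hF.stronglyMeasurable⟩
  refine integrable_dirac' hF.stronglyMeasurable ?_
  simp

lemma repr_map {L : Fn d → ℝ} (hL : Repr L) {T : Conf d → Conf d} (hT : Measurable T) :
    Repr (fun F => L (fun h => F (T h))) := by
  obtain ⟨ν, hν, h⟩ := hL
  refine ⟨ν.map T, Measure.isProbabilityMeasure_map hT.aemeasurable, fun F hF => ?_⟩
  obtain ⟨h1, h2⟩ := h _ (hF.comp hT)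
  refine ⟨(integrable_map_measure hF.aestronglyMeasurable hT.aemeasurable).2 h1, ?_⟩
  rw [integral_map hT.aemeasurable hF.aestronglyMeasurable]
  exact h2

lemma repr_avg {ι : Type*} {s : Finset ι} (hs : s.Nonempty) {L : ι → Fn d → ℝ}
    (hL : ∀ a ∈ s, Repr (L a)) : Repr (fun F => (s.card : ℝ)⁻¹ * ∑ a ∈ s, L a F) := by
  classical
  choose! ν hν h using hL
  have hc : (s.card : ℝ≥0∞) ≠ 0 := by
    exact_mod_cast hs.card_pos.ne'
  have hint : ∀ F : Fn d, Measurable F → Integrable F (∑ a ∈ s, ν a) := by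
    intro F hF
    rw [integrable_finsetSum_measure]
    exact fun a ha => (h a ha F hF).1
  refine ⟨(s.card : ℝ≥0∞)⁻¹ • ∑ a ∈ s, ν a, ⟨?_⟩, fun F hF => ⟨?_, ?_⟩⟩
  · rw [Measure.smul_apply, Measure.finsetSum_apply]
    have h1 : ∀ a ∈ s, ν a Set.univ = 1 := fun a ha => (hν a ha).measure_univ
    rw [Finset.sum_congr rfl h1, Finset.sum_const, nsmul_eq_mul, mul_one, smul_eq_mul]
    exact ENNReal.inv_mul_cancel hc (by simp)
  · exact (hint F hF).smul_measure (ENNReal.inv_ne_top.2 hc)
  · rw [integral_smul_measure, integral_finsetSum_measure fun a ha => (h a ha F hF).1]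
    rw [ENNReal.toReal_inv, ENNReal.toReal_natCast, smul_eq_mul]
    congr 1
    exact Finset.sum_congr rfl fun a ha => (h a ha F hF).2

lemma Repr.congr {L L' : Fn d → ℝ} (hL : Repr L) (h : ∀ F, L F = L' F) : Repr L' := by
  obtain ⟨ν, hν, h'⟩ := hL
  exact ⟨ν, hν, fun F hF => ⟨(h' F hF).1, (h' F hF).2.trans (h F)⟩⟩

section
variable (N : ℕ) [NeZero N]

lemma repr_PT (j : ℕ) (h0 : Conf d) : Repr (fun F => (PT d N ^ j) F h0) := by
  induction j with
  | zero => simpa using repr_dirac h0
  | succ j ih =>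
    have h1 := repr_avg (s := (Finset.univ : Finset (Fin d → ZMod N))) Finset.univ_nonempty
      (L := fun a F => (PT d N ^ j) (fun h => F (ringSet (TS N a) h)) h0)
      (fun a _ => repr_map ih (localMap_ringSet _).measurable)
    refine h1.congr fun F => ?_
    rw [pow_succ, Module.End.mul_apply]
    have h2 : PT d N F = ((Finset.univ : Finset (Fin d → ZMod N)).card : ℝ)⁻¹ •
        ∑ a : Fin d → ZMod N, (fun h => F (ringSet (TS N a) h)) := by
      ext h
      rw [PT, avgOp_apply]
      simp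
    rw [h2, map_smul, map_sum, Pi.smul_apply, Finset.sum_apply, smul_eq_mul]

lemma repr_ces (i0 : Fin d) {J : ℕ} (hJ : 0 < J) :
    Repr (fun F => ces i0 N J (fun h => F (recenter h))) := by
  have h1 := repr_avg (s := Finset.range J) ⟨0, Finset.mem_range.2 hJ⟩
    (L := fun j F => (PT d N ^ j) (fun h => F (recenter h)) (tilt i0))
    (fun j _ => repr_map (repr_PT N j (tilt i0)) localMap_recenter.measurable)
  refine h1.congr fun F => ?_
  rw [ces_apply, Finset.card_range]

/-- uniform bound on the mean absolute heights -/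
lemma ces_abs_bound {l : ℝ} (hl : 0 < l) (i0 : Fin d) (x : Site d) :
    ∃ B : ℝ, 0 ≤ B ∧ ∀ (N : ℕ) [NeZero N] (J : ℕ), 0 < J →
      ces i0 N J (fun h => |(h x : ℝ) - h 0|) ≤ B := by
  have hd : 1 ≤ d := Nat.one_le_iff_ne_zero.2 (by rintro rfl; exact i0.elim0)
  have hG : 0 ≤ growC d l / l := div_nonneg (growC_nonneg hd hl.le) hl.le
  refine site_induction (P := fun x => ∃ B : ℝ, 0 ≤ B ∧ ∀ (N : ℕ) [NeZero N] (J : ℕ), 0 < J →
      ces i0 N J (fun h => |(h x : ℝ) - h 0|) ≤ B) ?_ ?_ ?_ x
  · refine ⟨0, le_rfl, fun N _ J hJ => ?_⟩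
    have : (fun h => |(h 0 : ℝ) - h 0| : Fn d) = fun _ => 0 := by
      ext h; simp
    rw [this, ces_const N i0 hJ]
  · rintro x i ⟨B, hB, h⟩
    refine ⟨2 * (growC d l / l) + B, by positivity, fun N _ J hJ => ?_⟩
    have h1 : (fun h => |(h (x + e i) : ℝ) - h 0| : Fn d) ≤
        (fun h => |(h (x + e i) : ℝ) - h x|) + (fun h => |(h x : ℝ) - h 0|) := by
      intro h
      exact abs_sub_le _ _ _
    refine (ces_mono N i0 J h1).trans ?_
    rw [map_add]
    exact add_le_add (ces_abs_le N hl i0 hJ x i) (h N J hJ)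
  · rintro x i ⟨B, hB, h⟩
    refine ⟨2 * (growC d l / l) + B, by positivity, fun N _ J hJ => ?_⟩
    have h1 : (fun h => |(h (x - e i) : ℝ) - h 0| : Fn d) ≤
        (fun h => |(h (x - e i + e i) : ℝ) - h (x - e i)|) + (fun h => |(h x : ℝ) - h 0|) := by
      intro h
      simp only [Pi.add_apply, sub_add_cancel]
      rw [abs_sub_comm (h x : ℝ) (h (x - e i))]
      exact abs_sub_le _ _ _
    refine (ces_mono N i0 J h1).trans ?_
    rw [map_add]
    exact add_le_add (ces_abs_le N hl i0 hJ (x - e i) i) (h N J hJ)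

end

/-- the number of letters in the `N`-th time average -/
noncomputable def JN (d N : ℕ) : ℕ := (N + 1) * nT d (N + 1)

lemma JN_pos (d N : ℕ) : 0 < JN d N := Nat.mul_pos (Nat.succ_pos N) (nT_pos (N + 1))

/-- the `N`-th time average -/
noncomputable def cesN (i0 : Fin d) (N : ℕ) : Fn d →ₗ[ℝ] ℝ := ces i0 (N + 1) (JN d N)

/-- subsequential limits of the time averages -/
theorem exists_limit {l : ℝ} (hl : 0 < l) (i0 : Fin d) :
    ∃ (μ : Measure (Conf d)) (U : Ultrafilter ℕ), IsProbabilityMeasure μ ∧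
      (U : Filter ℕ) ≤ atTop ∧ ∀ F : Fn d, IsLocal F → IsBdd F →
        Tendsto (fun N => cesN i0 N (fun h => F (recenter h))) U (𝓝 (∫ g, F g ∂μ)) := by
  have hrepr : ∀ N : ℕ, ∃ ν : Measure (Conf d), IsProbabilityMeasure ν ∧
      ∀ F : Fn d, Measurable F → Integrable F ν ∧
        ∫ h, F h ∂ν = cesN i0 N (fun h => F (recenter h)) :=
    fun N => repr_ces (N + 1) i0 (JN_pos d N)
  choose ν hν hνF using hrepr
  choose B hB0 hB using fun x : Site d => ces_abs_bound hl i0 x
  -- tightness
  have htight : IsTightMeasureSet {((m : ProbabilityMeasure (Conf d)) : Measure (Conf d)) |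
      m ∈ Set.range fun N => (⟨ν N, hν N⟩ : ProbabilityMeasure (Conf d))} := by
    rw [isTightMeasureSet_iff_exists_isCompact_measure_compl_le]
    intro ε hε
    obtain ⟨ε', hε'0, hε'⟩ := ENNReal.exists_pos_sum_of_countable hε.ne' (Site d)
    let C : Site d → ℕ := fun x => ⌈B x / (ε' x : ℝ)⌉₊ 
    refine ⟨Set.pi Set.univ fun x => Set.Icc (-(C x : ℤ)) (C x),
      isCompact_univ_pi fun x => isCompact_Icc, ?_⟩
    rintro _ ⟨m, ⟨N, rfl⟩, rfl⟩
    have h1 : (Set.pi Set.univ fun x => Set.Icc (-(C x : ℤ)) (C x) : Set (Conf d))ᶜ ⊆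
        ⋃ x, {h : Conf d | (C x : ℝ) < |(h x : ℝ)|} := by
      intro h hh
      rw [Set.mem_compl_iff, Set.mem_univ_pi] at hh
      push Not at hh
      obtain ⟨x, hx⟩ := hh
      rw [Set.mem_iUnion]
      refine ⟨x, ?_⟩
      have h2 : (C x : ℤ) < |h x| := by
        by_contra hcon
        apply hx
        rw [Set.mem_Icc]
        exact abs_le.1 (not_lt.1 hcon)
      have h3 : ((C x : ℤ) : ℝ) < ((|h x| : ℤ) : ℝ) := by exact_mod_cast h2
      push_cast at h3
      exact h3
    change (ν N) _ ≤ ε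
    refine (measure_mono h1).trans ((measure_iUnion_le _).trans ?_)
    refine (ENNReal.tsum_le_tsum fun x => ?_).trans hε'.le
    have hmx : Measurable fun h : Conf d => |(h x : ℝ)| := by
      have : IsLocal (fun h : Conf d => |(h x : ℝ)|) :=
        ⟨{x}, fun g h hgh => by simp only; rw [hgh x (by simp)]⟩
      exact this.measurable
    obtain ⟨hint, hval⟩ := hνF N _ hmx
    have hle : ∫ h, |(h x : ℝ)| ∂(ν N) ≤ B x := by
      rw [hval]
      refine le_trans (le_of_eq ?_) (hB x (N + 1) (JN d N) (JN_pos d N))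
      unfold cesN
      congr 1
      ext h
      unfold recenter
      push_cast
      rfl
    have hne : 0 < (ε' x : ℝ) := by exact_mod_cast hε'0 x
    by_cases hC : C x = 0
    · have hBx : B x = 0 := by
        have : B x / (ε' x : ℝ) ≤ 0 := by
          have := Nat.ceil_eq_zero.1 hC
          exact this
        have h2 : B x ≤ 0 := by
          by_contra hcon
          have : 0 < B x / (ε' x : ℝ) := div_pos (not_le.1 hcon) hne
          linarith
        exact le_antisymm h2 (hB0 x)
      have h2 : ∫ h, |(h x : ℝ)| ∂(ν N) = 0 :=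
        le_antisymm (hle.trans hBx.le) (integral_nonneg fun h => abs_nonneg _)
      rw [integral_eq_zero_iff_of_nonneg (fun h => abs_nonneg _) hint] at h2
      have h3 : (ν N) {h : Conf d | (C x : ℝ) < |(h x : ℝ)|} = 0 := by
        rw [hC]
        refine measure_mono_null ?_ (ae_iff.1 h2)
        intro h hh
        simp only [Nat.cast_zero, Set.mem_ofPred_eq] at hh
        simp only [Pi.zero_apply, Set.mem_ofPred_eq]
        exact hh.ne'
      rw [h3]
      exact bot_le
    · have hCpos : (0 : ℝ) < C x := by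
        have : 0 < C x := Nat.pos_of_ne_zero hC
        exact_mod_cast this
      have h2 := mul_meas_ge_le_integral_of_nonneg (μ := ν N)
        (f := fun h : Conf d => |(h x : ℝ)|) (Filter.Eventually.of_forall fun h => abs_nonneg _)
        hint (C x)
      have h3 : (C x : ℝ) * (ν N).real {h : Conf d | (C x : ℝ) ≤ |(h x : ℝ)|} ≤ B x := h2.trans hle
      have h4 : (ν N).real {h : Conf d | (C x : ℝ) ≤ |(h x : ℝ)|} ≤ ε' x := by
        have h5 : B x / (ε' x : ℝ) ≤ C x := Nat.le_ceil _
        rw [div_le_iff₀ hne] at h5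
        have h6 : (C x : ℝ) * (ν N).real {h : Conf d | (C x : ℝ) ≤ |(h x : ℝ)|} ≤ C x * ε' x :=
          h3.trans h5
        exact le_of_mul_le_mul_left h6 hCpos
      refine (measure_mono (t := {h : Conf d | (C x : ℝ) ≤ |(h x : ℝ)|}) fun h hh => ?_).trans ?_
      · simp only [Set.mem_ofPred_eq] at hh ⊢
        exact hh.le
      · have h7 : (ν N) {h : Conf d | (C x : ℝ) ≤ |(h x : ℝ)|} ≠ ⊤ := measure_ne_top _ _
        rw [measureReal_def] at h4
        rw [← ENNReal.ofReal_toReal h7]
        calc ENNReal.ofReal _ ≤ ENNReal.ofReal (ε' x : ℝ) := ENNReal.ofReal_le_ofReal h4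
          _ = ε' x := ENNReal.ofReal_coe_nnreal
  have hcomp := isCompact_closure_of_isTightMeasureSet htight
  let m : ℕ → ProbabilityMeasure (Conf d) := fun N => ⟨ν N, hν N⟩
  let U : Ultrafilter ℕ := Filter.hyperfilter ℕ
  have hUtop : (U : Filter ℕ) ≤ atTop := Nat.hyperfilter_le_atTop
  have h1 : ((U.map m : Ultrafilter (ProbabilityMeasure (Conf d))) :
      Filter (ProbabilityMeasure (Conf d))) ≤ 𝓟 (closure (Set.range m)) := by
    rw [le_principal_iff, Ultrafilter.coe_map, Filter.mem_map]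
    exact Filter.univ_mem' fun N => subset_closure ⟨N, rfl⟩
  obtain ⟨μ, -, hμ⟩ := hcomp.ultrafilter_le_nhds _ h1
  have h2 : Tendsto m U (𝓝 μ) := by
    rw [Ultrafilter.coe_map] at hμ
    exact hμ
  refine ⟨(μ : Measure (Conf d)), U, inferInstance, hUtop, fun F hF hFb => ?_⟩
  rw [ProbabilityMeasure.tendsto_iff_forall_integral_tendsto] at h2
  obtain ⟨C, hC⟩ := hFb
  let f : BoundedContinuousFunction (Conf d) ℝ :=
    BoundedContinuousFunction.ofNormedAddCommGroup F hF.continuous C
      (fun h => by simpa using hC h)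
  have h3 := h2 f
  refine h3.congr fun N => ?_
  exact (hνF N F hF.measurable).2

end Pool.Agent.Lib.MP_67d80e_pr
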