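import Pool.Agent.Lib.MP_67d80e_pr.Growth

set_option autoImplicit false
set_option linter.unusedSectionVars false

open scoped BigOperators
open Filter MeasureTheory Topology

namespace Pool.Agent.Lib.MP_67d80e_pr

variable {d : ℕ}

/-- induction over the sites of the lattice -/
lemma site_induction {P : Site d → Prop} (h0 : P 0) (hadd : ∀ x i, P x → P (x + e i))
    (hsub : ∀ x i, P x → P (x - e i)) (x : Site d) : P x := by
  have h : ∀ n : ℕ, ∀ x : Site d, ∑ i, (x i).natAbs = n → P x := by
    intro n
    induction n with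
    | zero =>
      intro x hx
      have : x = 0 := by
        ext i
        have := (Finset.sum_eq_zero_iff.1 hx) i (Finset.mem_univ i)
        simpa using this
      rw [this]
      exact h0
    | succ n ih =>
      intro x hx
      have hne : ∃ i, x i ≠ 0 := by
        by_contra hcon
        push Not at hcon
        simp [hcon] at hx
      obtain ⟨i, hi⟩ := hne
      have hkey : ∀ y : Site d, (∀ j, j ≠ i → y j = x j) → (y i).natAbs + 1 = (x i).natAbs →
          ∑ j, (y j).natAbs = n := by
        intro y hy hyi
        rw [← Finset.add_sum_erase _ _ (Finset.mem_univ i)] at hx ⊢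
        have h1 : ∑ j ∈ Finset.univ.erase i, (y j).natAbs =
            ∑ j ∈ Finset.univ.erase i, (x j).natAbs :=
          Finset.sum_congr rfl fun j hj => by rw [hy j (Finset.ne_of_mem_erase hj)]
        rw [h1]
        omega
      have hee : ∀ j, j ≠ i → (e i : Site d) j = 0 := fun j hj => Pi.single_eq_of_ne hj _
      have hei : (e i : Site d) i = 1 := Pi.single_eq_same _ _
      rcases lt_or_gt_of_ne hi with hneg | hpos
      · have h1 : P (x + e i) := by
          apply ih
          apply hkey
          · intro j hj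
            rw [Pi.add_apply, hee j hj, add_zero]
          · rw [Pi.add_apply, hei]
            omega
        have := hsub _ i h1
        rwa [add_sub_cancel_right] at this
      · have h1 : P (x - e i) := by
          apply ih
          apply hkey
          · intro j hj
            rw [Pi.sub_apply, hee j hj, sub_zero]
          · rw [Pi.sub_apply, hei]
            omega
        have := hadd _ i h1
        rwa [sub_add_cancel] at this
  exact h _ x rfl

/-- `F` depends on the heights in `S` only -/
def DepOn (S : Finset (Site d)) (F : Fn d) : Prop :=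
  ∀ g h : Conf d, (∀ x ∈ S, g x = h x) → F g = F h

lemma isLocal_iff {F : Fn d} : IsLocal F ↔ ∃ S, DepOn S F := Iff.rfl

lemma DepOn.mono {S T : Finset (Site d)} (hST : S ⊆ T) {F : Fn d} (hF : DepOn S F) : DepOn T F :=
  fun g h hgh => hF g h fun x hx => hgh x (hST hx)

/-- a map of height functions all of whose coordinates depend on finitely many heights -/
def LocalMap (T : Conf d → Conf d) : Prop :=
  ∀ x : Site d, ∃ S : Finset (Site d), ∀ g h : Conf d, (∀ y ∈ S, g y = h y) → T g x = T h x

lemma IsLocal.comp {T : Conf d → Conf d} (hT : LocalMap T) {F : Fn d} (hF : IsLocal F) :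
    IsLocal (fun h => F (T h)) := by
  classical
  obtain ⟨S, hS⟩ := hF
  choose U hU using hT
  refine ⟨S.biUnion U, fun g h hgh => hS _ _ fun x hx => hU x g h fun y hy => ?_⟩
  exact hgh y (Finset.mem_biUnion.2 ⟨x, hx, hy⟩)

lemma localMap_recenter : LocalMap (recenter (d := d)) := by
  intro x
  refine ⟨{x, 0}, fun g h hgh => ?_⟩
  unfold recenter
  rw [hgh x (by simp), hgh 0 (by simp)]

lemma localMap_trans (y : Site d) : LocalMap (trans y) := by
  intro x
  exact ⟨{x + y}, fun g h hgh => hgh (x + y) (by simp)⟩

lemma localMap_flip (ε : Fin d → ℤˣ) : LocalMap (flip ε) := by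
  intro x
  exact ⟨{signedPerm 1 ε x}, fun g h hgh => hgh _ (by simp)⟩

lemma newHeight_local (x : Site d) : ∃ S : Finset (Site d), x ∈ S ∧ ∀ g h : Conf d,
    (∀ y ∈ S, g y = h y) → newHeight g x = newHeight h x := by
  classical
  refine ⟨{x} ∪ Finset.univ.image (fun i => x + e i) ∪ Finset.univ.image (fun i => x - e i),
    by simp, fun g h hgh => ?_⟩
  refine newHeight_congr (hgh x (by simp)) (fun i => hgh _ ?_) (fun i => hgh _ ?_)
  · simp only [Finset.mem_union, Finset.mem_image]
    exact Or.inl (Or.inr ⟨i, Finset.mem_univ i, rfl⟩)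
  · simp only [Finset.mem_union, Finset.mem_image]
    exact Or.inr ⟨i, Finset.mem_univ i, rfl⟩

lemma localMap_ringSet (S : Set (Site d)) : LocalMap (ringSet S) := by
  intro x
  obtain ⟨U, hxU, hU⟩ := newHeight_local x
  refine ⟨U, fun g h hgh => ?_⟩
  by_cases hx : x ∈ S
  · rw [ringSet_of_mem hx, ringSet_of_mem hx, hU g h hgh]
  · rw [ringSet_of_notMem hx, ringSet_of_notMem hx, hgh x hxU]

lemma localMap_ring (y : Site d) : LocalMap (ring y) := by
  have : ring y = ringSet (d := d) {y} := by
    funext h
    exact ring_eq_ringSet y h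
  rw [this]
  exact localMap_ringSet _

lemma IsLocal.add {F G : Fn d} (hF : IsLocal F) (hG : IsLocal G) :
    IsLocal (fun h => F h + G h) := by
  classical
  obtain ⟨S, hS⟩ := hF
  obtain ⟨T, hT⟩ := hG
  refine ⟨S ∪ T, fun g h hgh => ?_⟩
  simp only
  rw [hS g h fun x hx => hgh x (Finset.mem_union_left _ hx),
    hT g h fun x hx => hgh x (Finset.mem_union_right _ hx)]

lemma IsLocal.sub {F G : Fn d} (hF : IsLocal F) (hG : IsLocal G) :
    IsLocal (fun h => F h - G h) := by
  classical
  obtain ⟨S, hS⟩ := hF
  obtain ⟨T, hT⟩ := hG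
  refine ⟨S ∪ T, fun g h hgh => ?_⟩
  simp only
  rw [hS g h fun x hx => hgh x (Finset.mem_union_left _ hx),
    hT g h fun x hx => hgh x (Finset.mem_union_right _ hx)]

lemma IsLocal.sum {ι : Type*} (s : Finset ι) {F : ι → Fn d} (hF : ∀ i ∈ s, IsLocal (F i)) :
    IsLocal (fun h => ∑ i ∈ s, F i h) := by
  classical
  choose! S hS using hF
  refine ⟨s.biUnion S, fun g h hgh => ?_⟩
  refine Finset.sum_congr rfl fun i hi => ?_
  exact hS i hi g h fun x hx => hgh x (Finset.mem_biUnion.2 ⟨i, hi, hx⟩)

/-- local functions are continuous -/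
lemma IsLocal.continuous {F : Fn d} (hF : IsLocal F) : Continuous F := by
  obtain ⟨S, hS⟩ := hF
  apply IsLocallyConstant.continuous
  rw [IsLocallyConstant.iff_eventually_eq]
  intro g
  have h1 : ∀ᶠ h : Conf d in 𝓝 g, ∀ x ∈ S, h x = g x := by
    rw [Filter.eventually_all_finset]
    intro x _
    have h2 : Tendsto (fun h : Conf d => h x) (𝓝 g) (𝓝 (g x)) := (continuous_apply x).tendsto g
    have h3 : ({g x} : Set ℤ) ∈ 𝓝 (g x) := (isOpen_discrete _).mem_nhds rfl
    filter_upwards [h2 h3] with h hh using hh
  filter_upwards [h1] with h hh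
  exact hS h g hh

lemma LocalMap.continuous {T : Conf d → Conf d} (hT : LocalMap T) : Continuous T := by
  refine continuous_pi fun x => ?_
  obtain ⟨S, hS⟩ := hT x
  apply IsLocallyConstant.continuous
  rw [IsLocallyConstant.iff_eventually_eq]
  intro g
  have h1 : ∀ᶠ h : Conf d in 𝓝 g, ∀ x ∈ S, h x = g x := by
    rw [Filter.eventually_all_finset]
    intro x _
    have h2 : Tendsto (fun h : Conf d => h x) (𝓝 g) (𝓝 (g x)) := (continuous_apply x).tendsto g
    have h3 : ({g x} : Set ℤ) ∈ 𝓝 (g x) := (isOpen_discrete _).mem_nhds rfl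
    filter_upwards [h2 h3] with h hh using hh
  filter_upwards [h1] with h hh
  exact hS h g hh

lemma IsLocal.measurable {F : Fn d} (hF : IsLocal F) : Measurable F := hF.continuous.measurable

lemma LocalMap.measurable {T : Conf d → Conf d} (hT : LocalMap T) : Measurable T :=
  hT.continuous.measurable

lemma IsLocal.integrable {F : Fn d} (hF : IsLocal F) (hb : IsBdd F) (μ : Measure (Conf d))
    [IsFiniteMeasure μ] : Integrable F μ := by
  obtain ⟨C, hC⟩ := hb
  exact Integrable.of_bound hF.measurable.aestronglyMeasurable C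
    (Filter.Eventually.of_forall fun h => by simpa using hC h)

/-- two probability measures which agree on bounded local functions are equal -/
lemma measure_ext_local {μ ν : Measure (Conf d)} [IsProbabilityMeasure μ] [IsProbabilityMeasure ν]
    (h : ∀ F : Fn d, IsLocal F → IsBdd F → ∫ g, F g ∂μ = ∫ g, F g ∂ν) : μ = ν := by
  refine ext_of_generate_finite _ (generateFrom_measurableCylinders (α := fun _ : Site d => ℤ)).symm
    isPiSystem_measurableCylinders ?_ (by simp)
  intro s hs
  rw [mem_measurableCylinders] at hs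
  obtain ⟨S, A, hA, rfl⟩ := hs
  set Cy : Set (Conf d) := cylinder (α := fun _ : Site d => ℤ) S A with hCy
  have hmeas : MeasurableSet Cy :=
    MeasurableSet.cylinder (α := fun _ : Site d => ℤ) S hA
  have h1 : IsLocal (Set.indicator Cy (fun _ => (1 : ℝ))) := by
    refine ⟨S, fun g h hgh => ?_⟩
    have : g ∈ Cy ↔ h ∈ Cy := by
      rw [hCy, mem_cylinder, mem_cylinder]
      have : S.restrict g = S.restrict h := by
        ext x
        exact hgh x x.2
      rw [this]
    by_cases hg : g ∈ Cy
    · rw [Set.indicator_of_mem hg, Set.indicator_of_mem (this.1 hg)]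
    · rw [Set.indicator_of_notMem hg, Set.indicator_of_notMem (fun hh => hg (this.2 hh))]
  have h2 : IsBdd (Set.indicator Cy (fun _ => (1 : ℝ))) := by
    refine ⟨1, fun g => ?_⟩
    by_cases hg : g ∈ Cy
    · rw [Set.indicator_of_mem hg]; simp
    · rw [Set.indicator_of_notMem hg]; simp
  have h3 := h _ h1 h2
  rw [integral_indicator_const _ hmeas, integral_indicator_const _ hmeas] at h3
  simp only [smul_eq_mul, mul_one] at h3
  rwa [measureReal_def, measureReal_def, ENNReal.toReal_eq_toReal_iff' (measure_ne_top _ _)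
    (measure_ne_top _ _)] at h3

end Pool.Agent.Lib.MP_67d80e_pr
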