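import Pool.Agent.Lib.MP_67d80e_pr.Height

set_option autoImplicit false

open scoped BigOperators
open Filter MeasureTheory

namespace Pool.Agent.Lib.MP_67d80e_pr

variable {d : ℕ}

open Classical in
/-- simultaneous ring at all sites of `S` -/
noncomputable def ringSet (S : Set (Site d)) (h : Conf d) : Conf d :=
  fun y => if y ∈ S then newHeight h y else h y

lemma ringSet_of_mem {S : Set (Site d)} {y : Site d} (hy : y ∈ S) (h : Conf d) :
    ringSet S h y = newHeight h y := by
  simp [ringSet, hy]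

lemma ringSet_of_notMem {S : Set (Site d)} {y : Site d} (hy : y ∉ S) (h : Conf d) :
    ringSet S h y = h y := by
  simp [ringSet, hy]

lemma ring_eq_ringSet (x : Site d) (h : Conf d) : ring x h = ringSet {x} h := by
  ext y
  unfold ring
  by_cases hy : y = x
  · subst hy
    rw [Function.update_self, ringSet_of_mem (by simp)]
  · rw [Function.update_of_ne hy, ringSet_of_notMem (by simpa using hy)]

lemma ring_self (x : Site d) (h : Conf d) : ring x h x = newHeight h x := by
  unfold ring
  rw [Function.update_self]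

lemma ring_of_ne {x y : Site d} (hy : y ≠ x) (h : Conf d) : ring x h y = h y := by
  unfold ring
  rw [Function.update_of_ne hy]

lemma le_ringSet (S : Set (Site d)) (h : Conf d) : h ≤ ringSet S h := by
  intro y
  by_cases hy : y ∈ S
  · rw [ringSet_of_mem hy]
    exact le_newHeight h y
  · rw [ringSet_of_notMem hy]

lemma ringSet_mono (S : Set (Site d)) : Monotone (ringSet (d := d) S) := by
  intro g h hgh y
  by_cases hy : y ∈ S
  · rw [ringSet_of_mem hy, ringSet_of_mem hy]
    exact newHeight_mono hgh y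
  · rw [ringSet_of_notMem hy, ringSet_of_notMem hy]
    exact hgh y

lemma ringSet_mono_set {S T : Set (Site d)} (hST : S ⊆ T) (h : Conf d) :
    ringSet S h ≤ ringSet T h := by
  intro y
  by_cases hy : y ∈ S
  · rw [ringSet_of_mem hy, ringSet_of_mem (hST hy)]
  · rw [ringSet_of_notMem hy]
    exact le_ringSet T h y

lemma ringSet_add_const (S : Set (Site d)) (h : Conf d) (c : ℤ) :
    ringSet S (fun z => h z + c) = fun z => ringSet S h z + c := by
  ext y
  by_cases hy : y ∈ S
  · rw [ringSet_of_mem hy, ringSet_of_mem hy, newHeight_add_const]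
  · rw [ringSet_of_notMem hy, ringSet_of_notMem hy]

lemma ring_add_const (x : Site d) (h : Conf d) (c : ℤ) :
    ring x (fun z => h z + c) = fun z => ring x h z + c := by
  rw [ring_eq_ringSet, ring_eq_ringSet, ringSet_add_const]

/-- functions of the height function -/
abbrev Fn (d : ℕ) := Conf d → ℝ

/-- the operator `F ↦ ∑ F ∘ V a` -/
noncomputable def sumOp {ι : Type*} (s : Finset ι) (V : ι → Conf d → Conf d) :
    Module.End ℝ (Fn d) := ∑ a ∈ s, LinearMap.funLeft ℝ ℝ (V a)

lemma sumOp_apply {ι : Type*} (s : Finset ι) (V : ι → Conf d → Conf d) (F : Fn d) (h : Conf d) :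
    sumOp s V F h = ∑ a ∈ s, F (V a h) := by
  simp [sumOp, LinearMap.sum_apply, LinearMap.funLeft_apply, Finset.sum_apply]

/-- the averaging operator -/
noncomputable def avgOp {ι : Type*} (s : Finset ι) (V : ι → Conf d → Conf d) :
    Module.End ℝ (Fn d) := (s.card : ℝ)⁻¹ • sumOp s V

lemma avgOp_apply {ι : Type*} (s : Finset ι) (V : ι → Conf d → Conf d) (F : Fn d) (h : Conf d) :
    avgOp s V F h = (s.card : ℝ)⁻¹ * ∑ a ∈ s, F (V a h) := by
  rw [avgOp, LinearMap.smul_apply, Pi.smul_apply, sumOp_apply, smul_eq_mul]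

/-- an operator which is monotone and preserves constants -/
structure IsMarkov (P : Module.End ℝ (Fn d)) : Prop where
  mono : Monotone P
  one : P (fun _ => 1) = fun _ => 1

namespace IsMarkov

lemma const {P : Module.End ℝ (Fn d)} (hP : IsMarkov P) (c : ℝ) :
    P (fun _ => c) = fun _ => c := by
  have h1 : (fun _ => c : Fn d) = c • (fun _ => 1 : Fn d) := by
    ext h; simp
  rw [h1, map_smul, hP.one]

lemma id : IsMarkov (1 : Module.End ℝ (Fn d)) :=
  ⟨fun _ _ h => h, rfl⟩

lemma mul {P Q : Module.End ℝ (Fn d)} (hP : IsMarkov P) (hQ : IsMarkov Q) : IsMarkov (P * Q) :=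
  ⟨fun _ _ h => hP.mono (hQ.mono h), by rw [Module.End.mul_apply, hQ.one, hP.one]⟩

lemma pow {P : Module.End ℝ (Fn d)} (hP : IsMarkov P) (k : ℕ) : IsMarkov (P ^ k) := by
  induction k with
  | zero => simpa using id
  | succ k ih => rw [pow_succ]; exact ih.mul hP

lemma abs_le {P : Module.End ℝ (Fn d)} (hP : IsMarkov P) {F : Fn d} {C : ℝ}
    (hF : ∀ h, |F h| ≤ C) (h : Conf d) : |P F h| ≤ C := by
  rw [_root_.abs_le]
  constructor
  · have h1 : (fun _ => -C : Fn d) ≤ F := fun g => (_root_.abs_le.1 (hF g)).1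
    have h2 := hP.mono h1 h
    rwa [hP.const] at h2
  · have h1 : F ≤ (fun _ => C : Fn d) := fun g => (_root_.abs_le.1 (hF g)).2
    have h2 := hP.mono h1 h
    rwa [hP.const] at h2

end IsMarkov

lemma isMarkov_avgOp {ι : Type*} {s : Finset ι} (hs : s.Nonempty) (V : ι → Conf d → Conf d) :
    IsMarkov (avgOp s V) := by
  have hc : (0 : ℝ) < s.card := by exact_mod_cast hs.card_pos
  constructor
  · intro F G hFG h
    rw [avgOp_apply, avgOp_apply]
    exact mul_le_mul_of_nonneg_left (Finset.sum_le_sum fun a _ => hFG _) (inv_nonneg.2 hc.le)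
  · ext h
    rw [avgOp_apply]
    simp [hc.ne']

/-- the functional `h ↦ exp (l * h x)` -/
noncomputable def expF (l : ℝ) (x : Site d) : Fn d := fun h => Real.exp (l * h x)

/-- the function `h ↦ h x` -/
def hgt (x : Site d) : Fn d := fun h => (h x : ℝ)

lemma exp_newHeight_le (l : ℝ) (h : Conf d) (x : Site d) :
    Real.exp (l * newHeight h x) ≤ Real.exp l * expF l x h +
      ∑ i, (expF l (x + e i) h + expF l (x - e i) h) := by
  have hnn : ∀ i : Fin d, 0 ≤ expF l (x + e i) h + expF l (x - e i) h := fun i => by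
    unfold expF; positivity
  rcases newHeight_eq_or h x with h1 | ⟨i, h1⟩
  · rw [h1]
    have h2 : Real.exp (l * ((h x + 1 : ℤ) : ℝ)) = Real.exp l * expF l x h := by
      unfold expF
      rw [← Real.exp_add]
      congr 1
      push_cast
      ring
    rw [h2]
    have := Finset.sum_nonneg fun i (_ : i ∈ Finset.univ) => hnn i
    linarith
  · have h3 : Real.exp (l * newHeight h x) ≤ expF l (x + e i) h + expF l (x - e i) h := by
      rcases h1 with h1 | h1
      · rw [h1]
        have : 0 ≤ expF l (x - e i) h := by unfold expF; positivity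
        have h4 : Real.exp (l * (h (x + e i) : ℝ)) = expF l (x + e i) h := rfl
        linarith
      · rw [h1]
        have : 0 ≤ expF l (x + e i) h := by unfold expF; positivity
        have h4 : Real.exp (l * (h (x - e i) : ℝ)) = expF l (x - e i) h := rfl
        linarith
    have h4 := Finset.single_le_sum (fun i (_ : i ∈ Finset.univ) => hnn i) (Finset.mem_univ i)
    have h5 : 0 ≤ Real.exp l * expF l x h := by unfold expF; positivity
    linarith

/-- one step of the exponential bound -/
lemma avgOp_expF_le {ι : Type*} {s : Finset ι} (hs : s.Nonempty) (S : ι → Set (Site d))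
    (hS : ∀ a ∈ s, ∀ b ∈ s, ∀ x, x ∈ S a → x ∈ S b → a = b) {l : ℝ} (hl : 0 ≤ l) (x : Site d) :
    avgOp s (fun a => ringSet (S a)) (expF l x) ≤
      expF l x + (s.card : ℝ)⁻¹ • ((Real.exp l - 1) • expF l x +
        ∑ i, (expF l (x + e i) + expF l (x - e i))) := by
  classical
  intro h
  have hc : (0 : ℝ) < s.card := by exact_mod_cast hs.card_pos
  set E : ℝ := (Real.exp l - 1) * expF l x h + ∑ i, (expF l (x + e i) h + expF l (x - e i) h)
    with hE
  have hE0 : 0 ≤ E := by
    have h1 : 0 ≤ (Real.exp l - 1) * expF l x h :=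
      mul_nonneg (by linarith [Real.add_one_le_exp l]) (by unfold expF; positivity)
    have h2 : 0 ≤ ∑ i, (expF l (x + e i) h + expF l (x - e i) h) :=
      Finset.sum_nonneg fun i _ => by unfold expF; positivity
    linarith
  have h1 : ∀ a ∈ s, expF l x (ringSet (S a) h) ≤ expF l x h + if x ∈ S a then E else 0 := by
    intro a _
    by_cases hx : x ∈ S a
    · rw [if_pos hx]
      have h2 := exp_newHeight_le l h x
      have h3 : expF l x (ringSet (S a) h) = Real.exp (l * newHeight h x) := by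
        unfold expF
        rw [ringSet_of_mem hx]
      rw [h3, hE]
      linarith
    · rw [if_neg hx]
      unfold expF
      rw [ringSet_of_notMem hx]
      simp
  have h2 : ∑ a ∈ s, (if x ∈ S a then E else 0) ≤ E := by
    rw [← Finset.sum_filter, Finset.sum_const, nsmul_eq_mul]
    have h3 : (s.filter fun a => x ∈ S a).card ≤ 1 := by
      rw [Finset.card_le_one]
      intro a ha b hb
      rw [Finset.mem_filter] at ha hb
      exact hS a ha.1 b hb.1 x ha.2 hb.2
    have h4 : (((s.filter fun a => x ∈ S a).card : ℕ) : ℝ) ≤ 1 := by exact_mod_cast h3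
    nlinarith
  have h3 : ∑ a ∈ s, expF l x (ringSet (S a) h) ≤ s.card * expF l x h + E := by
    refine (Finset.sum_le_sum h1).trans ?_
    rw [Finset.sum_add_distrib, Finset.sum_const, nsmul_eq_mul]
    linarith
  rw [avgOp_apply]
  have h4 : (expF l x + (s.card : ℝ)⁻¹ • ((Real.exp l - 1) • expF l x +
        ∑ i, (expF l (x + e i) + expF l (x - e i)))) h = (s.card : ℝ)⁻¹ * (s.card * expF l x h + E) := by
    simp only [Pi.add_apply, Pi.smul_apply, smul_eq_mul, Finset.sum_apply]
    rw [hE]
    field_simp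
  rw [h4]
  exact mul_le_mul_of_nonneg_left h3 (inv_nonneg.2 hc.le)

/-- the growth constant: `2 (d - 1) + 2 cosh l + exp l - 1` -/
noncomputable def growC (d : ℕ) (l : ℝ) : ℝ :=
  2 * d - 3 + 2 * Real.exp l + Real.exp (-l)

lemma sum_exp_nbrs (i0 : Fin d) (l : ℝ) (x : Site d) :
    (Real.exp l - 1) * Real.exp (l * x i0) +
      ∑ i, (Real.exp (l * ((x + e i : Site d) i0 : ℤ)) +
        Real.exp (l * ((x - e i : Site d) i0 : ℤ))) = growC d l * Real.exp (l * x i0) := by
  have h1 : ∀ i : Fin d, i ≠ i0 → Real.exp (l * ((x + e i : Site d) i0 : ℤ)) +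
      Real.exp (l * ((x - e i : Site d) i0 : ℤ)) = 2 * Real.exp (l * x i0) := by
    intro i hi
    have h2 : (e i : Site d) i0 = 0 := Pi.single_eq_of_ne (Ne.symm hi) _
    rw [Pi.add_apply, Pi.sub_apply, h2]
    simp
    ring
  have h2 : Real.exp (l * ((x + e i0 : Site d) i0 : ℤ)) +
      Real.exp (l * ((x - e i0 : Site d) i0 : ℤ)) =
      (Real.exp l + Real.exp (-l)) * Real.exp (l * x i0) := by
    have h3 : (e i0 : Site d) i0 = 1 := Pi.single_eq_same _ _
    rw [Pi.add_apply, Pi.sub_apply, h3, add_mul, ← Real.exp_add, ← Real.exp_add]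
    push_cast
    congr 2 <;> ring
  have hd : 1 ≤ d := Nat.one_le_iff_ne_zero.2 (by rintro rfl; exact i0.elim0)
  rw [← Finset.add_sum_erase _ _ (Finset.mem_univ i0), h2,
    Finset.sum_congr rfl fun i hi => h1 i (Finset.ne_of_mem_erase hi), Finset.sum_const,
    Finset.card_erase_of_mem (Finset.mem_univ _), Finset.card_univ, Fintype.card_fin, nsmul_eq_mul,
    Nat.cast_sub hd]
  unfold growC
  push_cast
  ring

lemma growC_nonneg {d : ℕ} (hd : 1 ≤ d) {l : ℝ} (hl : 0 ≤ l) : 0 ≤ growC d l := by
  unfold growC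
  have h1 : (1 : ℝ) ≤ d := by exact_mod_cast hd
  have h2 := Real.add_one_le_exp l
  have h3 := Real.exp_pos (-l)
  linarith

/-- one step of the exponential bound, tested at the tilted configuration -/
lemma expF_step {ι : Type*} {s : Finset ι} (hs : s.Nonempty) (S : ι → Set (Site d))
    (hS : ∀ a ∈ s, ∀ b ∈ s, ∀ x, x ∈ S a → x ∈ S b → a = b) {l : ℝ} (hl : 0 ≤ l) (i0 : Fin d)
    {Q : Module.End ℝ (Fn d)} (hQ : Monotone Q) (h0 : Conf d) {K : ℝ}
    (hK : ∀ x, Q (expF l x) h0 ≤ K * Real.exp (l * x i0)) (x : Site d) :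
    (Q * avgOp s (fun a => ringSet (S a))) (expF l x) h0 ≤
      K * (1 + growC d l / s.card) * Real.exp (l * x i0) := by
  have hc : (0 : ℝ) < s.card := by exact_mod_cast hs.card_pos
  rw [Module.End.mul_apply]
  refine (hQ (avgOp_expF_le hs S hS hl x) h0).trans ?_
  have h1 : Q (expF l x + (s.card : ℝ)⁻¹ • ((Real.exp l - 1) • expF l x +
        ∑ i, (expF l (x + e i) + expF l (x - e i)))) h0 = Q (expF l x) h0 +
        (s.card : ℝ)⁻¹ * ((Real.exp l - 1) * Q (expF l x) h0 +
        ∑ i, (Q (expF l (x + e i)) h0 + Q (expF l (x - e i)) h0)) := by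
    simp only [map_add, map_smul, map_sum, Pi.add_apply, Pi.smul_apply, smul_eq_mul,
      Finset.sum_apply]
  rw [h1]
  have h2 : (Real.exp l - 1) * Q (expF l x) h0 +
        ∑ i, (Q (expF l (x + e i)) h0 + Q (expF l (x - e i)) h0) ≤
        K * (growC d l * Real.exp (l * x i0)) := by
    rw [← sum_exp_nbrs, mul_add, Finset.mul_sum]
    refine add_le_add ?_ (Finset.sum_le_sum fun i _ => ?_)
    · have := mul_le_mul_of_nonneg_left (hK x) (by linarith [Real.add_one_le_exp l] :
        0 ≤ Real.exp l - 1)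
      linarith
    · rw [mul_add]
      exact add_le_add (hK _) (hK _)
  have h3 := mul_le_mul_of_nonneg_left h2 (inv_nonneg.2 hc.le)
  have h4 := hK x
  calc _ ≤ K * Real.exp (l * x i0) + (s.card : ℝ)⁻¹ * (K * (growC d l * Real.exp (l * x i0))) :=
        add_le_add h4 h3
    _ = _ := by field_simp

lemma expF_pow {ι : Type*} {s : Finset ι} (hs : s.Nonempty) (S : ι → Set (Site d))
    (hS : ∀ a ∈ s, ∀ b ∈ s, ∀ x, x ∈ S a → x ∈ S b → a = b) {l : ℝ} (hl : 0 ≤ l) (i0 : Fin d)
    {Q : Module.End ℝ (Fn d)} (hQ : IsMarkov Q) (h0 : Conf d) {K : ℝ}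
    (hK : ∀ x, Q (expF l x) h0 ≤ K * Real.exp (l * x i0)) (j : ℕ) (x : Site d) :
    (Q * avgOp s (fun a => ringSet (S a)) ^ j) (expF l x) h0 ≤
      K * (1 + growC d l / s.card) ^ j * Real.exp (l * x i0) := by
  induction j generalizing x with
  | zero => simpa using hK x
  | succ j ih =>
    rw [pow_succ, ← mul_assoc, pow_succ, ← mul_assoc]
    exact expF_step hs S hS hl i0 (hQ.mul ((isMarkov_avgOp hs _).pow j)).mono h0 ih x

/-- the logarithmic bound on the mean height, given the exponential bound -/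
lemma hgt_le_log {l : ℝ} (hl : 0 < l) {Q : Module.End ℝ (Fn d)} (hQ : IsMarkov Q) (h0 : Conf d)
    {K : ℝ} (hK0 : 0 < K) (x : Site d) (hK : Q (expF l x) h0 ≤ K) :
    Q (hgt x) h0 ≤ Real.log K / l := by
  have h1 : l • hgt x ≤ K⁻¹ • expF l x + (fun _ => Real.log K - 1 : Fn d) := by
    intro h
    simp only [Pi.smul_apply, Pi.add_apply, smul_eq_mul, hgt, expF]
    have h2 := Real.add_one_le_exp (l * h x - Real.log K)
    rw [Real.exp_sub, Real.exp_log hK0] at h2
    have h3 : K⁻¹ * Real.exp (l * h x) = Real.exp (l * h x) / K := by ring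
    rw [h3]
    linarith
  have h2 := hQ.mono h1 h0
  rw [map_smul, map_add, map_smul, hQ.const] at h2
  simp only [Pi.smul_apply, Pi.add_apply, smul_eq_mul] at h2
  have h3 : K⁻¹ * Q (expF l x) h0 ≤ 1 := by
    rw [inv_mul_le_iff₀ hK0]
    linarith
  rw [le_div_iff₀ hl]
  linarith

end Pool.Agent.Lib.MP_67d80e_pr
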