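import Pool.Agent.Lib.MP_67d80e_pr.Explore

set_option autoImplicit false
set_option linter.unusedSectionVars false
set_option linter.unusedTactic false

open scoped BigOperators
open Filter MeasureTheory

namespace Pool.Agent.Lib.MP_67d80e_pr

variable {d : ℕ}

/-- tail sums of the harmonic series -/
noncomputable def hS (T n : ℕ) : ℝ := ∑ j ∈ Finset.Icc n T, (1 / (j : ℝ))

/-- the speed of the exploration -/
noncomputable def spd (T : ℕ) : ℝ := T / hS T 1

/-- the potential: the mean of `1 / j` over `n ≤ j ≤ T`, times the speed -/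
noncomputable def psi (T n : ℕ) : ℝ := spd T * hS T n / (T + 1 - n)

lemma hS_pos {T n : ℕ} (hn : 1 ≤ n) (hnT : n ≤ T) : 0 < hS T n := by
  unfold hS
  refine Finset.sum_pos (fun j hj => ?_) ⟨n, Finset.mem_Icc.2 ⟨le_rfl, hnT⟩⟩
  have : 1 ≤ j := hn.trans (Finset.mem_Icc.1 hj).1
  positivity

lemma hS_succ {T n : ℕ} (hnT : n ≤ T) : hS T n = 1 / (n : ℝ) + hS T (n + 1) := by
  unfold hS
  rw [← Finset.add_sum_Ioc_eq_sum_Icc hnT]
  congr 1
  refine Finset.sum_congr ?_ fun _ _ => rfl
  ext j
  simp only [Finset.mem_Ioc, Finset.mem_Icc]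
  omega

lemma hS_le {T n : ℕ} (hn : 1 ≤ n) (hnT : n ≤ T) : hS T n ≤ (T + 1 - n) / n := by
  unfold hS
  have h1 : ∀ j ∈ Finset.Icc n T, (1 / (j : ℝ)) ≤ 1 / n := by
    intro j hj
    have : (n : ℝ) ≤ j := by exact_mod_cast (Finset.mem_Icc.1 hj).1
    have hn' : (0 : ℝ) < n := by exact_mod_cast hn
    exact one_div_le_one_div_of_le hn' this
  refine (Finset.sum_le_sum h1).trans ?_
  rw [Finset.sum_const, Nat.card_Icc, nsmul_eq_mul, Nat.cast_sub (by omega)]
  push_cast
  rw [mul_one_div]

lemma spd_pos {T : ℕ} (hT : 1 ≤ T) : 0 < spd T := by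
  unfold spd
  have := hS_pos le_rfl hT
  positivity

lemma psi_one {T : ℕ} (hT : 1 ≤ T) : psi T 1 = 1 := by
  unfold psi spd
  have := hS_pos le_rfl hT
  have hT' : (0 : ℝ) < T := by exact_mod_cast hT
  push_cast
  rw [add_sub_cancel_right]
  field_simp

lemma psi_nonneg {T n : ℕ} (hn : 1 ≤ n) (hnT : n ≤ T) : 0 ≤ psi T n := by
  unfold psi
  have h1 := hS_pos hn hnT
  have h2 := spd_pos (hn.trans hnT)
  have h3 : (0 : ℝ) < T + 1 - n := by
    have : (n : ℝ) ≤ T := by exact_mod_cast hnT
    linarith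
  positivity

lemma psi_mul {T n : ℕ} (hnT : n ≤ T) : (T + 1 - n) * psi T n = spd T * hS T n := by
  unfold psi
  have h3 : (0 : ℝ) < T + 1 - n := by
    have : (n : ℝ) ≤ T := by exact_mod_cast hnT
    linarith
  field_simp

/-- the exact balance of the potential -/
lemma psi_balance {T n : ℕ} (hn : 1 ≤ n) (hnT : n < T) :
    n * (T - n) * (psi T n - psi T (n + 1)) + n * psi T n = spd T := by
  have h1 := psi_mul (T := T) (n := n) hnT.le
  have h2 := psi_mul (T := T) (n := n + 1) hnT
  have h3 := hS_succ (T := T) hnT.le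
  have hn' : (0 : ℝ) < n := by exact_mod_cast hn
  push_cast at h2
  have h4 : (n : ℝ) * (T - n) * (psi T n - psi T (n + 1)) + n * psi T n =
      n * ((T + 1 - n) * psi T n - (T + 1 - (n + 1)) * psi T (n + 1)) := by ring
  rw [h4, h1, h2, h3]
  field_simp
  ring

lemma psi_top {T : ℕ} (hT : 1 ≤ T) : T * psi T T = spd T := by
  have h1 := psi_mul (T := T) (n := T) le_rfl
  have hT' : (0 : ℝ) < T := by exact_mod_cast hT
  have h2 : hS T T = 1 / T := by simp [hS]
  rw [h2] at h1
  have h3 : psi T T = spd T * (1 / T) := by linarith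
  rw [h3]
  field_simp

lemma psi_anti {T n : ℕ} (hn : 1 ≤ n) (hnT : n < T) : 0 ≤ psi T n - psi T (n + 1) := by
  have h1 := psi_balance hn hnT
  have hn' : (0 : ℝ) < n := by exact_mod_cast hn
  have hT' : (0 : ℝ) < T - n := by
    have : (n : ℝ) < T := by exact_mod_cast hnT
    linarith
  have h2 : n * psi T n ≤ spd T := by
    unfold psi
    have h3 := hS_le hn hnT.le
    have h4 := spd_pos (hn.trans hnT.le)
    have h5 : (0 : ℝ) < T + 1 - n := by linarith
    rw [mul_div_assoc', div_le_iff₀ h5]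
    have h6 : (n : ℝ) * hS T n ≤ T + 1 - n := by
      rw [le_div_iff₀ hn'] at h3
      linarith
    calc (n : ℝ) * (spd T * hS T n) = spd T * (n * hS T n) := by ring
      _ ≤ spd T * (T + 1 - n) := mul_le_mul_of_nonneg_left h6 h4.le
  have h3 : 0 ≤ (n * (T - n)) * (psi T n - psi T (n + 1)) := by linarith
  have h4 : (0 : ℝ) < n * (T - n) := by positivity
  exact nonneg_of_mul_nonneg_right h3 h4

lemma psi_le_one {T n : ℕ} (hn : 1 ≤ n) (hnT : n ≤ T) : psi T n ≤ 1 := by
  induction n, hn using Nat.le_induction with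
  | base => exact (psi_one hnT).le
  | succ n hn ih =>
    have := ih (by omega)
    have := psi_anti hn (show n < T by omega)
    linarith

/-- the potential of a state -/
noncomputable def Phi (T : ℕ) (s : ℕ × Finset (Site d)) : ℝ :=
  if s.2 = ∅ then -spd T else s.1 + 1 - psi T s.2.card

/-- the range of a finite set -/
def rch (M : Finset (Site d)) : ℕ := M.sup fun z => Finset.univ.sup fun i => (z i).natAbs

lemma rch_le_iff {M : Finset (Site d)} {n : ℕ} :
    rch M ≤ n ↔ ∀ z ∈ M, ∀ i, (z i).natAbs ≤ n := by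
  simp [rch, Finset.sup_le_iff]

section drift

variable {i0 : Fin d} {τ : Site d} (hd : 2 ≤ d) (hτ : τ = 0 ∨ τ = e i0)
include hd hτ

omit hd in
lemma tau_natAbs (i : Fin d) : (τ i).natAbs ≤ 1 := by
  rcases hτ with rfl | rfl
  · simp
  · by_cases hi : i = i0
    · rw [hi, e_apply_self]; rfl
    · rw [e_apply_ne hi]; simp

omit hτ in
lemma latV_natAbs {v : Site d} (hv : v ∈ latV i0) (i : Fin d) : (v i).natAbs ≤ 1 := by
  obtain ⟨k, -, rfl | rfl⟩ := mem_latV.1 hv
  · by_cases hi : i = k
    · rw [hi, e_apply_self]; rfl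
    · rw [e_apply_ne hi]; simp
  · rw [Pi.neg_apply, Int.natAbs_neg]
    by_cases hi : i = k
    · rw [hi, e_apply_self]; rfl
    · rw [e_apply_ne hi]; simp

/-- the potential never decreases along the exploration -/
lemma Phi_expl_nonneg {s : ℕ × Finset (Site d)} (hs : Inv i0 τ (2 * (d - 1)) s) (x : Site d) :
    0 ≤ Phi (2 * (d - 1)) (expl i0 τ (2 * (d - 1)) x s) - Phi (2 * (d - 1)) s := by
  have hT : 1 ≤ 2 * (d - 1) := by omega
  unfold expl
  split_ifs with h1 h2 h3 h4
  · have hc := spd_pos hT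
    have h5 : Phi (2 * (d - 1)) s = -spd (2 * (d - 1)) := by rw [Phi, if_pos h1]
    have h6 : Phi (2 * (d - 1)) ((0 : ℕ), ({0} : Finset (Site d))) = 0 := by
      rw [Phi, if_neg (Finset.singleton_ne_empty _), Finset.card_singleton, psi_one hT]
      simp
    rw [h5, h6]
    linarith
  · simp
  · have hne : s.2.Nonempty := Finset.nonempty_iff_ne_empty.2 h1
    have h5 : Phi (2 * (d - 1)) s = s.1 + 1 - psi (2 * (d - 1)) s.2.card := by
      rw [Phi, if_neg h1]
    have h6 : Phi (2 * (d - 1)) (s.1 + 1, ({x} : Finset (Site d))) = s.1 + 1 := by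
      rw [Phi, if_neg (Finset.singleton_ne_empty _), Finset.card_singleton, psi_one hT]
      push_cast
      ring
    rw [h5, h6]
    have := psi_nonneg (T := 2 * (d - 1)) hne.card_pos hs.card_le
    linarith
  · have hne : s.2.Nonempty := Finset.nonempty_iff_ne_empty.2 h1
    have h5 : Phi (2 * (d - 1)) s = s.1 + 1 - psi (2 * (d - 1)) s.2.card := by
      rw [Phi, if_neg h1]
    have h6 : Phi (2 * (d - 1)) (s.1, insert x s.2) =
        s.1 + 1 - psi (2 * (d - 1)) (s.2.card + 1) := by
      rw [Phi, if_neg (Finset.insert_ne_empty _ _),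
        Finset.card_insert_of_notMem (mem_bdry.1 h4.1).2]
    rw [h5, h6]
    have := psi_anti (T := 2 * (d - 1)) hne.card_pos h4.2
    linarith
  · simp

/-- the drift of the potential -/
lemma Phi_drift {s : ℕ × Finset (Site d)} (hs : Inv i0 τ (2 * (d - 1)) s) {R : ℕ}
    (hR : rch s.2 < R) :
    spd (2 * (d - 1)) ≤ ∑ x ∈ box d R,
      (Phi (2 * (d - 1)) (expl i0 τ (2 * (d - 1)) x s) - Phi (2 * (d - 1)) s) := by
  have hT : 1 ≤ 2 * (d - 1) := by omega
  have hnn : ∀ x ∈ box d R, 0 ≤ Phi (2 * (d - 1)) (expl i0 τ (2 * (d - 1)) x s) -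
      Phi (2 * (d - 1)) s := fun x _ => Phi_expl_nonneg hd hτ hs x
  by_cases hM : s.2 = ∅
  · refine le_trans (le_of_eq ?_) (Finset.single_le_sum hnn (zero_mem_box R))
    have h5 : Phi (2 * (d - 1)) s = -spd (2 * (d - 1)) := by rw [Phi, if_pos hM]
    have h6 : Phi (2 * (d - 1)) ((0 : ℕ), ({0} : Finset (Site d))) = 0 := by
      rw [Phi, if_neg (Finset.singleton_ne_empty _), Finset.card_singleton, psi_one hT]
      simp
    rw [h5]
    unfold expl
    rw [if_pos hM, if_pos rfl, h6]
    ring
  have hne : s.2.Nonempty := Finset.nonempty_iff_ne_empty.2 hM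
  set n := s.2.card with hn
  have hn1 : 1 ≤ n := hne.card_pos
  have hnT : n ≤ 2 * (d - 1) := hs.card_le
  set T := 2 * (d - 1) with hTdef
  have hPs : Phi T s = s.1 + 1 - psi T n := by rw [Phi, if_neg hM]
  have hrch : ∀ z ∈ s.2, ∀ i, (z i).natAbs + 1 ≤ R := by
    intro z hz i
    have := rch_le_iff.1 (le_refl (rch s.2)) z hz i
    omega
  -- specials
  set Sp : Finset (Site d) := s.2.image (fun z => z + τ) with hSp
  have hSpcard : Sp.card = n := by
    rw [hSp, Finset.card_image_of_injective _ (add_left_injective τ)]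
  have hSpbox : Sp ⊆ box d R := by
    intro x hx
    rw [hSp, Finset.mem_image] at hx
    obtain ⟨z, hz, rfl⟩ := hx
    rw [mem_box]
    intro i
    have h1 := hrch z hz i
    have h2 := tau_natAbs hτ i
    rw [Pi.add_apply]
    have h3 := Int.natAbs_add_le (z i) (τ i)
    have h4 : |z i + τ i| = ((z i + τ i).natAbs : ℤ) := Int.abs_eq_natAbs _
    rw [h4]
    omega
  have hSpterm : ∀ x ∈ Sp, Phi T (expl i0 τ T x s) - Phi T s = psi T n := by
    intro x hx
    rw [hSp, Finset.mem_image] at hx
    obtain ⟨z, hz, rfl⟩ := hx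
    have h3 : z + τ - τ ∈ s.2 := by simpa using hz
    unfold expl
    rw [if_neg hM, if_pos h3, hPs]
    have h6 : Phi T (s.1 + 1, ({z + τ} : Finset (Site d))) = s.1 + 1 := by
      rw [Phi, if_neg (Finset.singleton_ne_empty _), Finset.card_singleton, psi_one hT]
      push_cast
      ring
    rw [h6]
    ring
  have hBbox : bdry i0 s.2 ⊆ box d R := by
    intro x hx
    obtain ⟨⟨z, hz, v, hv, rfl⟩, -⟩ := mem_bdry.1 hx
    rw [mem_box]
    intro i
    have h1 := hrch z hz i
    have h2 := latV_natAbs hd hv i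
    rw [Pi.add_apply]
    have h3 := Int.natAbs_add_le (z i) (v i)
    have h4 : |z i + v i| = ((z i + v i).natAbs : ℤ) := Int.abs_eq_natAbs _
    rw [h4]
    omega
  have hdisj : ∀ x ∈ bdry i0 s.2, x - τ ∉ s.2 := by
    intro x hx hx'
    rcases hτ with rfl | rfl
    · rw [sub_zero] at hx'
      exact (mem_bdry.1 hx).2 hx'
    · obtain ⟨⟨z, hz, v, hv, rfl⟩, -⟩ := mem_bdry.1 hx
      have h1 := hs.coord _ hx'
      have h2 := hs.coord _ hz
      rw [Pi.sub_apply, Pi.add_apply, latV_apply hv] at h1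
      rw [e_apply_self] at h1 h2
      omega
  rcases hnT.lt_or_eq with hlt | heq
  · have hBterm : ∀ x ∈ bdry i0 s.2, Phi T (expl i0 τ T x s) - Phi T s =
        psi T n - psi T (n + 1) := by
      intro x hx
      unfold expl
      rw [if_neg hM, if_neg (hdisj x hx), if_pos ⟨hx, hlt⟩, hPs]
      have h6 : Phi T (s.1, insert x s.2) = s.1 + 1 - psi T (n + 1) := by
        rw [Phi, if_neg (Finset.insert_ne_empty _ _),
          Finset.card_insert_of_notMem (mem_bdry.1 hx).2]
      rw [h6]
      ring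
    have hdis : Disjoint Sp (bdry i0 s.2) := by
      rw [Finset.disjoint_left]
      intro x hx hx'
      rw [hSp, Finset.mem_image] at hx
      obtain ⟨z, hz, rfl⟩ := hx
      apply hdisj _ hx'
      simpa using hz
    have h1 : ∑ x ∈ Sp ∪ bdry i0 s.2, (Phi T (expl i0 τ T x s) - Phi T s) ≤
        ∑ x ∈ box d R, (Phi T (expl i0 τ T x s) - Phi T s) :=
      Finset.sum_le_sum_of_subset_of_nonneg (Finset.union_subset hSpbox hBbox)
        fun x hx _ => hnn x hx
    refine le_trans ?_ h1
    rw [Finset.sum_union hdis, Finset.sum_congr rfl hSpterm, Finset.sum_congr rfl hBterm,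
      Finset.sum_const, Finset.sum_const, hSpcard, nsmul_eq_mul, nsmul_eq_mul]
    have h2 := psi_balance hn1 hlt
    have h3 := psi_anti hn1 hlt
    have h4 : (n : ℝ) * (T - n) ≤ (bdry i0 s.2).card := by
      have := card_bdry_ge i0 s.2
      rw [← hn] at this
      have h5 : ((n : ℤ) * ((T : ℕ) - n) : ℤ) ≤ ((bdry i0 s.2).card : ℤ) := by
        rw [hTdef]; push_cast; push_cast at this; exact this
      exact_mod_cast h5
    have h5 := mul_le_mul_of_nonneg_right h4 h3
    linarith
  · have h1 : ∑ x ∈ Sp, (Phi T (expl i0 τ T x s) - Phi T s) ≤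
        ∑ x ∈ box d R, (Phi T (expl i0 τ T x s) - Phi T s) :=
      Finset.sum_le_sum_of_subset_of_nonneg hSpbox fun x hx _ => hnn x hx
    refine le_trans ?_ h1
    rw [Finset.sum_congr rfl hSpterm, Finset.sum_const, hSpcard, nsmul_eq_mul, heq]
    exact (psi_top hT).ge

/-- the reach grows slowly -/
lemma rch_drift {s : ℕ × Finset (Site d)} (hs : Inv i0 τ (2 * (d - 1)) s) (R : ℕ) :
    ∑ x ∈ box d R, ((rch (expl i0 τ (2 * (d - 1)) x s).2 : ℝ) - rch s.2) ≤
      (2 * (d - 1) : ℕ) + (2 * (d - 1) : ℕ) * (2 * (d - 1) : ℕ) := by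
  set T := 2 * (d - 1) with hTdef
  set A : Finset (Site d) := s.2.image (fun z => z + τ) ∪ bdry i0 s.2 with hA
  have h1 : ∀ x, ((rch (expl i0 τ T x s).2 : ℝ) - rch s.2) ≤ if x ∈ A then 1 else 0 := by
    intro x
    have hle : ∀ M : Finset (Site d), rch M ≤ rch s.2 + 1 → ((rch M : ℝ) - rch s.2) ≤ 1 := by
      intro M hM
      have : (rch M : ℝ) ≤ rch s.2 + 1 := by exact_mod_cast hM
      linarith
    unfold expl
    split_ifs with h1 h2 h3 h4 h5 h6 h7
    · refine hle _ ?_
      rw [rch_le_iff]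
      intro z hz i
      rw [Finset.mem_singleton] at hz
      subst hz
      simp
    · have : rch ({0} : Finset (Site d)) = 0 := by
        rw [← Nat.le_zero, rch_le_iff]
        intro z hz i
        rw [Finset.mem_singleton] at hz
        subst hz
        simp
      simp only [this, h1]
      simp [rch]
    · simp
    · simp
    · refine hle _ ?_
      rw [rch_le_iff]
      intro z hz i
      rw [Finset.mem_singleton] at hz
      subst hz
      have h8 := rch_le_iff.1 (le_refl (rch s.2)) _ h5 i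
      have h9 := tau_natAbs hτ i
      rw [Pi.sub_apply] at h8
      omega
    · exfalso
      apply h6
      rw [hA, Finset.mem_union, Finset.mem_image]
      left
      exact ⟨x - τ, h5, by abel⟩
    · refine hle _ ?_
      rw [rch_le_iff]
      intro z hz i
      rw [Finset.mem_insert] at hz
      rcases hz with rfl | hz
      · obtain ⟨⟨y, hy, v, hv, rfl⟩, -⟩ := mem_bdry.1 h7.1
        have h8 := rch_le_iff.1 (le_refl (rch s.2)) _ hy i
        have h9 := latV_natAbs hd hv i
        rw [Pi.add_apply]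
        have h10 := Int.natAbs_add_le (y i) (v i)
        omega
      · have h8 := rch_le_iff.1 (le_refl (rch s.2)) _ hz i
        omega
    · exfalso
      rename_i h8
      apply h8
      rw [hA, Finset.mem_union]
      right
      exact h7.1
    · simp
    · simp
  refine (Finset.sum_le_sum fun x _ => h1 x).trans ?_
  rw [← Finset.sum_filter, Finset.sum_const, nsmul_eq_mul, mul_one]
  have h2 : ((box d R).filter fun x => x ∈ A).card ≤ A.card :=
    Finset.card_le_card fun x hx => (Finset.mem_filter.1 hx).2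
  have h3 : A.card ≤ T + T * T := by
    rw [hA]
    refine (Finset.card_union_le _ _).trans ?_
    have h4 : (s.2.image (fun z => z + τ)).card ≤ T := Finset.card_image_le.trans hs.card_le
    have h5 := card_bdry_le i0 s.2
    have h6 : s.2.card * (2 * (d - 1)) ≤ T * T := Nat.mul_le_mul_right _ hs.card_le
    omega
  have h4 : ((box d R).filter fun x => x ∈ A).card ≤ T + T * T := h2.trans h3
  exact_mod_cast h4

/-- the mean reach after `J` letters -/
lemma W_rch_le (R J : ℕ) :
    W R J (fun w => (rch (st i0 τ (2 * (d - 1)) w).2 : ℝ)) ≤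
      J * (((2 * (d - 1) : ℕ) + (2 * (d - 1) : ℕ) * (2 * (d - 1) : ℕ)) / (box d R).card) := by
  have hT : 1 ≤ 2 * (d - 1) := by omega
  have hB : (0 : ℝ) < (box d R).card := by exact_mod_cast card_box_pos (d := d) R
  induction J with
  | zero => simp [W_zero, st, rch]
  | succ J ih =>
    have h1 := W_succ_sub R J (fun w => (rch (st i0 τ (2 * (d - 1)) w).2 : ℝ))
    have h2 : W R J (fun w => ∑ x ∈ box d R, ((rch (st i0 τ (2 * (d - 1)) (x :: w)).2 : ℝ) -
        rch (st i0 τ (2 * (d - 1)) w).2)) ≤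
        (2 * (d - 1) : ℕ) + (2 * (d - 1) : ℕ) * (2 * (d - 1) : ℕ) := by
      rw [← W_const (d := d) R J ((2 * (d - 1) : ℕ) + (2 * (d - 1) : ℕ) * (2 * (d - 1) : ℕ))]
      exact W_mono R J fun w => rch_drift hd hτ (inv_st hT w) R
    have h3 := mul_le_mul_of_nonneg_left h2 (inv_nonneg.2 hB.le)
    push_cast at h1 h3 ih ⊢
    have h4 : ((box d R).card : ℝ)⁻¹ * (2 * ((d - 1 : ℕ) : ℝ) + 2 * ((d - 1 : ℕ) : ℝ) *
        (2 * ((d - 1 : ℕ) : ℝ))) = (2 * ((d - 1 : ℕ) : ℝ) + 2 * ((d - 1 : ℕ) : ℝ) *
        (2 * ((d - 1 : ℕ) : ℝ))) / (box d R).card := by ring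
    rw [h4] at h3
    linarith

/-- the mean of the counter after `J` letters -/
lemma W_count_ge {R : ℕ} (hR : 0 < R) (J : ℕ) :
    spd (2 * (d - 1)) * (J / (box d R).card) * (1 - J * (((2 * (d - 1) : ℕ) + (2 * (d - 1) : ℕ) *
      (2 * (d - 1) : ℕ)) / (box d R).card) / R) - (spd (2 * (d - 1)) + 1) ≤
      W R J (fun w => ((st i0 τ (2 * (d - 1)) w).1 : ℝ)) := by
  have hT : 1 ≤ 2 * (d - 1) := by omega
  have hB : (0 : ℝ) < (box d R).card := by exact_mod_cast card_box_pos (d := d) R
  have hR' : (0 : ℝ) < R := by exact_mod_cast hR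
  set T := 2 * (d - 1) with hTdef
  have hc := spd_pos hT
  set K : ℝ := ((T : ℕ) + (T : ℕ) * (T : ℕ)) / (box d R).card with hK
  have hK0 : 0 ≤ K := by positivity
  -- drift inequality for the potential
  have h1 : ∀ J : ℕ, W R J (fun w => Phi T (st i0 τ T w)) + spd T / (box d R).card *
      (1 - J * K / R) ≤ W R (J + 1) (fun w => Phi T (st i0 τ T w)) := by
    intro J
    have h2 := W_succ_sub R J (fun w => Phi T (st i0 τ T w))
    have h3 : spd T * (1 - J * K / R) ≤
        W R J (fun w => ∑ x ∈ box d R, (Phi T (st i0 τ T (x :: w)) - Phi T (st i0 τ T w))) := by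
      have h4 : (fun w => spd T * (1 - (rch (st i0 τ T w).2 : ℝ) / R)) ≤
          (fun w => ∑ x ∈ box d R, (Phi T (st i0 τ T (x :: w)) - Phi T (st i0 τ T w))) := by
        intro w
        have hI := inv_st (i0 := i0) (τ := τ) hT w
        by_cases hw : rch (st i0 τ T w).2 < R
        · have h5 := Phi_drift hd hτ hI hw
          refine le_trans ?_ h5
          have h6 : (0 : ℝ) ≤ (rch (st i0 τ T w).2 : ℝ) / R := by positivity
          nlinarith
        · have h5 : (0 : ℝ) ≤ ∑ x ∈ box d R, (Phi T (st i0 τ T (x :: w)) - Phi T (st i0 τ T w)) :=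
            Finset.sum_nonneg fun x _ => Phi_expl_nonneg hd hτ hI x
          refine le_trans ?_ h5
          have h6 : (1 : ℝ) ≤ (rch (st i0 τ T w).2 : ℝ) / R := by
            rw [le_div_iff₀ hR', one_mul]
            exact_mod_cast not_lt.1 hw
          nlinarith
      have h5 := W_mono R J h4
      refine le_trans ?_ h5
      have h6 : (fun w => spd T * (1 - (rch (st i0 τ T w).2 : ℝ) / R)) =
          spd T • ((fun _ => 1 : List (Site d) → ℝ) -
            (R : ℝ)⁻¹ • (fun w => (rch (st i0 τ T w).2 : ℝ))) := by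
        ext w
        simp only [Pi.smul_apply, Pi.sub_apply, smul_eq_mul]
        ring
      rw [h6, map_smul, map_sub, W_const, map_smul, smul_eq_mul, smul_eq_mul]
      have h7 := W_rch_le (i0 := i0) (τ := τ) hd hτ R J
      refine mul_le_mul_of_nonneg_left ?_ hc.le
      have h8 := mul_le_mul_of_nonneg_left h7 (inv_nonneg.2 hR'.le)
      have h9 : J * K / R = (R : ℝ)⁻¹ * (J * K) := by ring
      rw [h9]
      linarith
    have h4 := mul_le_mul_of_nonneg_left h3 (inv_nonneg.2 hB.le)
    have h5 : ((box d R).card : ℝ)⁻¹ * (spd T * (1 - J * K / R)) =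
        spd T / (box d R).card * (1 - J * K / R) := by ring
    rw [h5] at h4
    linarith
  have h2 : ∀ J : ℕ, - spd T + spd T * (J / (box d R).card) * (1 - J * K / R) ≤
      W R J (fun w => Phi T (st i0 τ T w)) := by
    intro J
    induction J with
    | zero =>
      simp [W_zero, st, Phi]
    | succ J ih =>
      refine le_trans ?_ (h1 J)
      push_cast
      have h3 : spd T * ((J + 1) / (box d R).card) * (1 - (J + 1) * K / R) ≤
          spd T * (J / (box d R).card) * (1 - J * K / R) +
            spd T / (box d R).card * (1 - J * K / R) := by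
        have h4 : spd T * (J / (box d R).card) * (1 - J * K / R) +
            spd T / (box d R).card * (1 - J * K / R) =
            spd T * ((J + 1) / (box d R).card) * (1 - J * K / R) := by ring
        rw [h4]
        refine mul_le_mul_of_nonneg_left ?_ (by positivity)
        have : J * K / R ≤ (J + 1) * K / R := by
          apply div_le_div_of_nonneg_right _ hR'.le
          nlinarith
        linarith
      linarith
  have h3 : (fun w => Phi T (st i0 τ T w)) ≤
      (fun w => ((st i0 τ T w).1 : ℝ)) + (fun _ => 1 : List (Site d) → ℝ) := by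
    intro w
    have hI := inv_st (i0 := i0) (τ := τ) hT w
    simp only [Pi.add_apply]
    unfold Phi
    split_ifs with h4
    · have : (0 : ℝ) ≤ (st i0 τ T w).1 := Nat.cast_nonneg _
      linarith
    · have := psi_nonneg (T := T) (Finset.nonempty_iff_ne_empty.2 h4).card_pos hI.card_le
      linarith
  have h4 := W_mono R J h3
  rw [map_add, W_const] at h4
  have h5 := h2 J
  linarith

end drift

end Pool.Agent.Lib.MP_67d80e_pr
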