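import Pool.Agent.Lib.MP_67d80e_pr.Law
import Pool.Agent.Lib.MP_67d80e_pr.Potential

set_option autoImplicit false
set_option linter.unusedSectionVars false

open scoped BigOperators ENNReal NNReal
open Filter MeasureTheory Topology

namespace Pool.Agent.Lib.MP_67d80e_pr

variable {d : ℕ}

/-- `μ` is a limit of the time averages along `U` -/
structure IsLim (i0 : Fin d) (μ : Measure (Conf d)) (U : Ultrafilter ℕ) : Prop where
  prob : IsProbabilityMeasure μ
  le : (U : Filter ℕ) ≤ atTop
  lim : ∀ F : Fn d, IsLocal F → IsBdd F →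
        Tendsto (fun N => cesN i0 N (fun h => F (recenter h))) U (𝓝 (∫ g, F g ∂μ))

lemma recenter_vert (c : ℤ) (h : Conf d) : recenter (vert c h) = recenter h := by
  ext x; simp [recenter, vert]

lemma recenter_idem (h : Conf d) : recenter (recenter h) = recenter h := by
  ext x; simp [recenter]

lemma isLocal_hgt (x : Site d) : IsLocal (hgt x) :=
  ⟨{x}, fun g h hgh => by unfold hgt; rw [hgh x (by simp)]⟩

lemma cesN_mono (i0 : Fin d) (N : ℕ) : Monotone (cesN i0 N) := ces_mono (N + 1) i0 _

lemma cesN_const (i0 : Fin d) (N : ℕ) (c : ℝ) : cesN i0 N (fun _ => c) = c :=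
  ces_const (N + 1) i0 (JN_pos d N) c

/-- nonnegative local functions with bounded time averages are integrable -/
lemma integrable_of_bound {i0 : Fin d} {μ : Measure (Conf d)} {U : Ultrafilter ℕ}
    (hμ : IsLim i0 μ U) {F : Fn d} (hF : IsLocal F) (hF0 : ∀ h, 0 ≤ F h) {B : ℝ}
    (hB : ∀ N, cesN i0 N (fun h => F (recenter h)) ≤ B) : Integrable F μ := by
  have := hμ.prob
  have hB0 : 0 ≤ B := by
    refine le_trans ?_ (hB 0)
    rw [← cesN_const i0 0 0]
    exact cesN_mono i0 0 fun h => hF0 _
  have hK : ∀ K : ℕ, ∫⁻ h, ENNReal.ofReal (min (F h) K) ∂μ ≤ ENNReal.ofReal B := by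
    intro K
    have hloc : IsLocal (fun h => min (F h) K) := by
      obtain ⟨S, hS⟩ := hF
      exact ⟨S, fun g h hgh => by simp only; rw [hS g h hgh]⟩
    have hbd : IsBdd (fun h => min (F h) (K : ℝ)) := by
      refine ⟨K, fun h => ?_⟩
      rw [abs_of_nonneg (le_min (hF0 h) (Nat.cast_nonneg K))]
      exact min_le_right _ _
    have h1 : ∫ h, min (F h) K ∂μ ≤ B := by
      refine le_of_tendsto (hμ.lim _ hloc hbd) (Filter.Eventually.of_forall fun N => ?_)
      refine le_trans ?_ (hB N)
      exact cesN_mono i0 N fun h => min_le_left _ _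
    rw [← ofReal_integral_eq_lintegral_ofReal (hloc.integrable hbd μ)
      (Filter.Eventually.of_forall fun h => le_min (hF0 h) (Nat.cast_nonneg K))]
    exact ENNReal.ofReal_le_ofReal h1
  have hsup : ∫⁻ h, ENNReal.ofReal (F h) ∂μ ≤ ENNReal.ofReal B := by
    have h1 : ∀ h, ENNReal.ofReal (F h) = ⨆ K : ℕ, ENNReal.ofReal (min (F h) K) := by
      intro h
      refine le_antisymm ?_ (iSup_le fun K => ENNReal.ofReal_le_ofReal (min_le_left _ _))
      obtain ⟨K, hK⟩ := exists_nat_ge (F h)
      refine le_iSup_of_le K ?_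
      rw [min_eq_left hK]
    simp_rw [h1]
    rw [lintegral_iSup]
    · exact iSup_le hK
    · intro K
      exact (hF.measurable.min measurable_const).ennreal_ofReal
    · intro K K' hKK h
      refine ENNReal.ofReal_le_ofReal (min_le_min_left _ ?_)
      exact_mod_cast hKK
  refine ⟨hF.measurable.aestronglyMeasurable, ?_⟩
  rw [hasFiniteIntegral_iff_ofReal (Filter.Eventually.of_forall hF0)]
  exact hsup.trans_lt ENNReal.ofReal_lt_top

section
variable {i0 : Fin d} {μ : Measure (Conf d)} {U : Ultrafilter ℕ} (hμ : IsLim i0 μ U)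
include hμ

lemma integrable_hgt (x : Site d) : Integrable (fun h : Conf d => (h x : ℝ)) μ := by
  obtain ⟨B, -, hB⟩ := ces_abs_bound (l := 1) one_pos i0 x
  have hloc : IsLocal (fun h : Conf d => |(h x : ℝ)|) :=
    ⟨{x}, fun g h hgh => by simp only; rw [hgh x (by simp)]⟩
  have h1 : Integrable (fun h : Conf d => |(h x : ℝ)|) μ := by
    refine integrable_of_bound hμ hloc (fun h => abs_nonneg _) (B := B) fun N => ?_
    refine le_trans (le_of_eq ?_) (hB (N + 1) (JN d N) (JN_pos d N))
    unfold cesN
    congr 1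
    ext h
    unfold recenter
    push_cast
    rfl
  refine (integrable_norm_iff (isLocal_hgt x).measurable.aestronglyMeasurable).1 ?_
  exact h1

lemma ae_zero : ∀ᵐ h ∂μ, h 0 = 0 := by
  have := hμ.prob
  set F : Fn d := fun h => min |(h 0 : ℝ)| 1 with hF
  have hloc : IsLocal F := ⟨{0}, fun g h hgh => by rw [hF]; simp only; rw [hgh 0 (by simp)]⟩
  have hnn : ∀ h, 0 ≤ F h := fun h => le_min (abs_nonneg _) zero_le_one
  have hbd : IsBdd F := ⟨1, fun h => by rw [abs_of_nonneg (hnn h)]; exact min_le_right _ _⟩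
  have h1 := hμ.lim F hloc hbd
  have h2 : ∀ N, cesN i0 N (fun h => F (recenter h)) = 0 := by
    intro N
    have : (fun h => F (recenter h) : Fn d) = fun _ => 0 := by
      ext h
      simp [hF, recenter]
    rw [this, cesN_const]
  simp_rw [h2] at h1
  have h3 : ∫ g, F g ∂μ = 0 := tendsto_nhds_unique h1 tendsto_const_nhds
  rw [integral_eq_zero_iff_of_nonneg hnn (hloc.integrable hbd μ)] at h3
  filter_upwards [h3] with h hh
  simp only [hF, Pi.zero_apply] at hh
  by_contra hne
  have h4 : (1 : ℝ) ≤ |(h 0 : ℝ)| := by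
    have : (1 : ℤ) ≤ |h 0| := Int.one_le_abs hne
    exact_mod_cast this
  rw [min_eq_right h4] at hh
  exact one_ne_zero hh

/-- translation invariance -/
lemma map_trans (y : Site d) : μ.map (fun g => recenter (trans y g)) = μ := by
  have := hμ.prob
  have hT : LocalMap (fun g : Conf d => recenter (trans y g)) := by
    intro x
    refine ⟨{x + y, 0 + y}, fun g h hgh => ?_⟩
    simp only [recenter, trans]
    rw [hgh (x + y) (by simp), hgh (0 + y) (by simp)]
  have hp : IsProbabilityMeasure (μ.map (fun g => recenter (trans y g))) :=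
    Measure.isProbabilityMeasure_map hT.measurable.aemeasurable
  refine measure_ext_local fun F hF hFb => ?_
  rw [integral_map hT.measurable.aemeasurable hF.measurable.aestronglyMeasurable]
  have h1 := hμ.lim _ (hF.comp hT) (by
    obtain ⟨C, hC⟩ := hFb
    exact ⟨C, fun h => hC _⟩)
  have h2 := hμ.lim F hF hFb
  refine tendsto_nhds_unique h1 (h2.congr fun N => ?_)
  have h3 := ces_trans (N + 1) i0 (JN d N) y (F := fun h => F (recenter h))
    (fun c h => by rw [recenter_vert])
  unfold cesN
  rw [← h3]
  congr 1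
  ext h
  congr 1
  ext x
  simp [recenter, trans]

/-- invariance under lateral sign changes -/
lemma map_flip {ε : Fin d → ℤˣ} (hε : ε i0 = 1) : μ.map (flip ε) = μ := by
  have := hμ.prob
  have hT := localMap_flip (d := d) ε
  have hp : IsProbabilityMeasure (μ.map (flip ε)) :=
    Measure.isProbabilityMeasure_map hT.measurable.aemeasurable
  refine measure_ext_local fun F hF hFb => ?_
  rw [integral_map hT.measurable.aemeasurable hF.measurable.aestronglyMeasurable]
  have h1 := hμ.lim _ (hF.comp hT) (by
    obtain ⟨C, hC⟩ := hFb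
    exact ⟨C, fun h => hC _⟩)
  have h2 := hμ.lim F hF hFb
  refine tendsto_nhds_unique h1 (h2.congr fun N => ?_)
  have h3 := ces_flip (N + 1) i0 (JN d N) hε (fun h => F (recenter h))
  unfold cesN
  rw [← h3]
  congr 1
  ext h
  congr 1
  ext x
  simp [recenter, flip, signedPerm_zero]

lemma integral_hgt_add (x y : Site d) :
    ∫ g, (g (x + y) : ℝ) ∂μ = ∫ g, (g x : ℝ) ∂μ + ∫ g, (g y : ℝ) ∂μ := by
  have hT : Measurable (fun g : Conf d => recenter (trans y g)) :=
    (localMap_recenter.measurable).comp (localMap_trans y).measurable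
  have h1 : ∫ g, (g x : ℝ) ∂μ = ∫ g, ((g (x + y) : ℝ) - g y) ∂μ := by
    conv_lhs => rw [← map_trans hμ y]
    change ∫ g, hgt x g ∂_ = _
    rw [integral_map hT.aemeasurable (isLocal_hgt x).measurable.aestronglyMeasurable]
    refine integral_congr_ae (Filter.Eventually.of_forall fun g => ?_)
    simp [recenter, trans, hgt]
  rw [integral_sub (integrable_hgt hμ _) (integrable_hgt hμ _)] at h1
  linarith

lemma integral_hgt_lateral {i : Fin d} (hi : i ≠ i0) : ∫ g, (g (e i) : ℝ) ∂μ = 0 := by
  set ε : Fin d → ℤˣ := Function.update 1 i (-1) with hε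
  have hε0 : ε i0 = 1 := by rw [hε, Function.update_of_ne (Ne.symm hi)]; rfl
  have h1 : ∫ g, (g (e i) : ℝ) ∂μ = ∫ g, (g (-e i) : ℝ) ∂μ := by
    conv_lhs => rw [← map_flip hμ hε0]
    change ∫ g, hgt (e i) g ∂_ = _
    rw [integral_map (localMap_flip ε).measurable.aemeasurable
      (isLocal_hgt (e i)).measurable.aestronglyMeasurable]
    refine integral_congr_ae (Filter.Eventually.of_forall fun g => ?_)
    have : signedPerm 1 ε (e i) = -e i := by
      ext j
      simp only [signedPerm, Equiv.Perm.coe_one, id, Pi.neg_apply]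
      by_cases hj : j = i
      · subst hj
        rw [hε, Function.update_self]
        simp
      · rw [e_apply_ne hj]
        simp
    simp only [hgt, flip, this]
  have h2 := integral_hgt_add hμ (e i) (-e i)
  have h3 := integral_hgt_add hμ 0 0
  rw [add_neg_cancel] at h2
  rw [add_zero] at h3
  linarith

/-- the mean heights are linear -/
lemma integral_hgt (x : Site d) :
    ∫ g, (g x : ℝ) ∂μ = x i0 * ∫ g, (g (e i0) : ℝ) ∂μ := by
  refine site_induction (P := fun x => ∫ g, (g x : ℝ) ∂μ = x i0 * ∫ g, (g (e i0) : ℝ) ∂μ)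
    ?_ ?_ ?_ x
  · have h3 := integral_hgt_add hμ 0 0
    rw [add_zero] at h3
    simp only [Pi.zero_apply, Int.cast_zero, zero_mul]
    linarith
  · intro x i hx
    rw [integral_hgt_add hμ, hx]
    by_cases hi : i = i0
    · subst hi
      rw [Pi.add_apply, e_apply_self]
      push_cast
      ring
    · rw [integral_hgt_lateral hμ hi, Pi.add_apply, e_apply_ne (Ne.symm hi)]
      simp
  · intro x i hx
    have h1 := integral_hgt_add hμ (x - e i) (e i)
    rw [sub_add_cancel] at h1
    by_cases hi : i = i0
    · subst hi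
      rw [Pi.sub_apply, e_apply_self]
      push_cast
      linarith
    · rw [integral_hgt_lateral hμ hi] at h1
      rw [Pi.sub_apply, e_apply_ne (Ne.symm hi)]
      simp only [sub_zero]
      linarith

end

/-! ### exchange of averages over words -/

lemma W_exchange (R I : ℕ) (L : Fn d →ₗ[ℝ] ℝ) (f : List (Site d) → Fn d) :
    L (fun g => W R I (fun w => f w g)) = W R I (fun w => L (f w)) := by
  induction I generalizing f with
  | zero => rfl
  | succ I ih =>
    have h1 : (fun g => W R (I + 1) (fun w => f w g) : Fn d) = ((box d R).card : ℝ)⁻¹ •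
        ∑ x ∈ box d R, (fun g => W R I (fun w => f (x :: w) g) : Fn d) := by
      ext g
      rw [W_succ]
      simp
    rw [h1, map_smul, map_sum, W_succ, smul_eq_mul]
    congr 1
    exact Finset.sum_congr rfl fun x _ => ih _

lemma W_tendsto {α : Type*} {U : Filter α} (R I : ℕ) {a : α → List (Site d) → ℝ}
    {b : List (Site d) → ℝ} (h : ∀ w, Tendsto (fun N => a N w) U (𝓝 (b w))) :
    Tendsto (fun N => W R I (a N)) U (𝓝 (W R I b)) := by
  induction I generalizing a b with
  | zero => exact h []
  | succ I ih =>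
    simp_rw [W_succ]
    refine Tendsto.const_mul _ (tendsto_finsetSum _ fun x _ => ih fun w => h (x :: w))

end Pool.Agent.Lib.MP_67d80e_pr
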