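import Pool.Agent.Lib.MP_67d80e_pr.Gen

set_option autoImplicit false
set_option linter.unusedSectionVars false

open scoped BigOperators ENNReal NNReal
open Filter MeasureTheory Topology

namespace Pool.Agent.Lib.MP_67d80e_pr

variable {d : ℕ}

/-- the neighbours of a site -/
def nbrs (x : Site d) : Finset (Site d) :=
  Finset.univ.image (fun i => x + e i) ∪ Finset.univ.image (fun i => x - e i)

/-- the sites on whose heights the final heights in `S` can depend -/
def reach (S : Finset (Site d)) : List (Site d) → Finset (Site d)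
  | [] => S
  | x :: w => if x ∈ reach S w then reach S w ∪ nbrs x else reach S w

lemma reach_cons_of_mem {S : Finset (Site d)} {x : Site d} {w : List (Site d)}
    (hx : x ∈ reach S w) : reach S (x :: w) = reach S w ∪ nbrs x := by
  simp [reach, hx]

lemma reach_cons_of_notMem {S : Finset (Site d)} {x : Site d} {w : List (Site d)}
    (hx : x ∉ reach S w) : reach S (x :: w) = reach S w := by
  simp [reach, hx]

lemma reach_subset_cons (S : Finset (Site d)) (x : Site d) (w : List (Site d)) :
    reach S w ⊆ reach S (x :: w) := by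
  by_cases hx : x ∈ reach S w
  · rw [reach_cons_of_mem hx]
    exact Finset.subset_union_left
  · rw [reach_cons_of_notMem hx]

lemma act_dep {S : Finset (Site d)} (w : List (Site d)) {g h : Conf d}
    (hgh : ∀ y ∈ reach S w, g y = h y) : ∀ y ∈ S, act w g y = act w h y := by
  induction w generalizing g h with
  | nil => exact hgh
  | cons x w ih =>
    rw [act_cons, act_cons]
    apply ih
    intro y hy
    have hsub := reach_subset_cons S x w
    by_cases hyx : y = x
    · subst hyx
      rw [ring_self, ring_self]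
      rw [reach_cons_of_mem hy] at hgh
      refine newHeight_congr (hgh y (Finset.mem_union_left _ hy)) (fun i => ?_) (fun i => ?_)
      · exact hgh _ (Finset.mem_union_right _ (Finset.mem_union_left _
          (Finset.mem_image_of_mem _ (Finset.mem_univ i))))
      · exact hgh _ (Finset.mem_union_right _ (Finset.mem_union_right _
          (Finset.mem_image_of_mem _ (Finset.mem_univ i))))
    · rw [ring_of_ne hyx, ring_of_ne hyx]
      exact hgh y (hsub hy)

lemma act_ring_eq {S : Finset (Site d)} {w : List (Site d)} {x : Site d}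
    (hx : x ∉ reach S w) (g : Conf d) : ∀ y ∈ S, act w (ring x g) y = act w g y := by
  apply act_dep
  intro y hy
  refine ring_of_ne ?_ g
  rintro rfl
  exact hx hy

/-- removing the letters outside of a box -/
noncomputable def filt (n : ℕ) (w : List (Site d)) : List (Site d) :=
  w.filter fun x => decide (x ∈ box d n)

lemma filt_cons_of_mem {n : ℕ} {x : Site d} (hx : x ∈ box d n) (w : List (Site d)) :
    filt n (x :: w) = x :: filt n w := by
  simp [filt, hx]

lemma filt_cons_of_notMem {n : ℕ} {x : Site d} (hx : x ∉ box d n) (w : List (Site d)) :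
    filt n (x :: w) = filt n w := by
  simp [filt, hx]

lemma act_filt {S : Finset (Site d)} {n : ℕ} {w : List (Site d)} (h : reach S w ⊆ box d n)
    (g : Conf d) : ∀ y ∈ S, act w g y = act (filt n w) g y := by
  induction w generalizing g with
  | nil => intro y _; rfl
  | cons x w ih =>
    have hw : reach S w ⊆ box d n := (reach_subset_cons S x w).trans h
    by_cases hx : x ∈ box d n
    · rw [filt_cons_of_mem hx]
      exact ih hw (ring x g)
    · rw [filt_cons_of_notMem hx, act_cons]
      intro y hy
      rw [act_ring_eq (fun hx' => hx (hw hx')) g y hy]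
      exact ih hw g y hy

/-- the maximum norm of a site -/
def nrm (x : Site d) : ℕ := Finset.univ.sup fun i => (x i).natAbs

lemma nrm_le_iff {x : Site d} {n : ℕ} : nrm x ≤ n ↔ ∀ i, (x i).natAbs ≤ n := by
  simp [nrm, Finset.sup_le_iff]

lemma mem_box_iff_nrm {x : Site d} {n : ℕ} : x ∈ box d n ↔ nrm x ≤ n := by
  rw [mem_box, nrm_le_iff]
  refine forall_congr' fun i => ?_
  rw [Int.abs_eq_natAbs]
  exact Nat.cast_le

lemma natAbs_e_le (i j : Fin d) : ((e i : Site d) j).natAbs ≤ 1 := by
  by_cases hj : j = i
  · subst hj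
    rw [e_apply_self]; rfl
  · rw [e_apply_ne hj]; simp

lemma nrm_nbrs {x y : Site d} (hy : y ∈ nbrs x) : nrm y ≤ nrm x + 1 := by
  rw [nrm_le_iff]
  intro j
  have h1 := nrm_le_iff.1 (le_refl (nrm x)) j
  unfold nbrs at hy
  rw [Finset.mem_union, Finset.mem_image, Finset.mem_image] at hy
  rcases hy with ⟨i, -, rfl⟩ | ⟨i, -, rfl⟩
  · rw [Pi.add_apply]
    have := Int.natAbs_add_le (x j) ((e i : Site d) j)
    have := natAbs_e_le i j
    omega
  · rw [Pi.sub_apply]
    have := Int.natAbs_sub_le (x j) ((e i : Site d) j)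
    have := natAbs_e_le i j
    omega

lemma card_nbrs_le (x : Site d) : (nbrs x).card ≤ 2 * d := by
  unfold nbrs
  refine (Finset.card_union_le _ _).trans ?_
  have h1 : (Finset.univ.image (fun i => x + e i)).card ≤ d := by
    refine Finset.card_image_le.trans ?_
    simp
  have h2 : (Finset.univ.image (fun i => x - e i)).card ≤ d := by
    refine Finset.card_image_le.trans ?_
    simp
  omega

/-- the weight of a finite set -/
noncomputable def wgt (M : Finset (Site d)) : ℝ := ∑ y ∈ M, (2 : ℝ) ^ nrm y

lemma wgt_nonneg (M : Finset (Site d)) : 0 ≤ wgt M := Finset.sum_nonneg fun _ _ => by positivity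

lemma wgt_union_le (M M' : Finset (Site d)) : wgt (M ∪ M') ≤ wgt M + wgt M' := by
  unfold wgt
  rw [← Finset.sum_union_inter (s₁ := M) (s₂ := M')]
  have : 0 ≤ ∑ y ∈ M ∩ M', (2 : ℝ) ^ nrm y := Finset.sum_nonneg fun _ _ => by positivity
  linarith

lemma wgt_nbrs_le (x : Site d) : wgt (nbrs x) ≤ 4 * d * 2 ^ nrm x := by
  unfold wgt
  have h1 : ∀ y ∈ nbrs x, (2 : ℝ) ^ nrm y ≤ 2 ^ (nrm x + 1) := fun y hy =>
    pow_le_pow_right₀ (by norm_num) (nrm_nbrs hy)
  refine (Finset.sum_le_sum h1).trans ?_
  rw [Finset.sum_const, nsmul_eq_mul]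
  have h2 : ((nbrs x).card : ℝ) ≤ 2 * d := by exact_mod_cast card_nbrs_le x
  have h3 := mul_le_mul_of_nonneg_right h2 (by positivity : (0 : ℝ) ≤ 2 ^ (nrm x + 1))
  refine h3.trans (le_of_eq ?_)
  rw [pow_succ]
  ring

lemma wgt_drift (S : Finset (Site d)) (n : ℕ) (w : List (Site d)) :
    ∑ x ∈ box d n, (wgt (reach S (x :: w)) - wgt (reach S w)) ≤ 4 * d * wgt (reach S w) := by
  have h1 : ∀ x ∈ box d n, wgt (reach S (x :: w)) - wgt (reach S w) ≤
      if x ∈ reach S w then 4 * d * (2 : ℝ) ^ nrm x else 0 := by
    intro x _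
    by_cases hx : x ∈ reach S w
    · rw [if_pos hx, reach_cons_of_mem hx]
      have := wgt_union_le (reach S w) (nbrs x)
      have := wgt_nbrs_le x
      linarith
    · rw [if_neg hx, reach_cons_of_notMem hx, sub_self]
  refine (Finset.sum_le_sum h1).trans ?_
  rw [← Finset.sum_filter, wgt, Finset.mul_sum]
  refine Finset.sum_le_sum_of_subset_of_nonneg (fun x hx => (Finset.mem_filter.1 hx).2) ?_
  intro x _ _
  positivity

lemma W_wgt_le (S : Finset (Site d)) (n J : ℕ) :
    W n J (fun w => wgt (reach S w)) ≤ wgt S * (1 + 4 * d / (box d n).card) ^ J := by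
  have hB : (0 : ℝ) < (box d n).card := by exact_mod_cast card_box_pos (d := d) n
  induction J with
  | zero => simp [W_zero, reach]
  | succ J ih =>
    have h1 := W_succ_sub n J (fun w => wgt (reach S w))
    have h2 : W n J (fun w => ∑ x ∈ box d n, (wgt (reach S (x :: w)) - wgt (reach S w))) ≤
        4 * d * W n J (fun w => wgt (reach S w)) := by
      rw [← smul_eq_mul, ← map_smul]
      exact W_mono n J fun w => wgt_drift S n w
    have h3 := mul_le_mul_of_nonneg_left h2 (inv_nonneg.2 hB.le)
    have h4 : W n (J + 1) (fun w => wgt (reach S w)) ≤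
        (1 + 4 * d / (box d n).card) * W n J (fun w => wgt (reach S w)) := by
      have h5 : ((box d n).card : ℝ)⁻¹ * (4 * d * W n J (fun w => wgt (reach S w))) =
          4 * d / (box d n).card * W n J (fun w => wgt (reach S w)) := by ring
      rw [h5] at h3
      linarith
    refine h4.trans ?_
    have h6 := mul_le_mul_of_nonneg_left ih (show (0 : ℝ) ≤ 1 + 4 * d / (box d n).card by positivity)
    refine h6.trans (le_of_eq ?_)
    rw [pow_succ]
    ring

lemma one_le_of_mem {M : Finset (Site d)} {x : Site d} (hx : x ∈ M) :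
    1 ≤ wgt M / 2 ^ nrm x := by
  rw [le_div_iff₀ (by positivity), one_mul]
  exact Finset.single_le_sum (f := fun y => (2 : ℝ) ^ nrm y) (fun _ _ => by positivity) hx

lemma one_le_of_not_subset {M : Finset (Site d)} {n : ℕ} (h : ¬ M ⊆ box d n) :
    1 ≤ wgt M / 2 ^ (n + 1) := by
  rw [Finset.not_subset] at h
  obtain ⟨x, hx, hxn⟩ := h
  rw [mem_box_iff_nrm, not_le] at hxn
  refine (one_le_of_mem hx).trans ?_
  have h1 : (2 : ℝ) ^ (n + 1) ≤ 2 ^ nrm x := pow_le_pow_right₀ (by norm_num) hxn
  exact div_le_div_of_nonneg_left (wgt_nonneg M) (by positivity) h1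

end Pool.Agent.Lib.MP_67d80e_pr
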