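import Pool.Agent.Lib.MP_67d80e_pr.Reach

set_option autoImplicit false
set_option linter.unusedSectionVars false

open scoped BigOperators ENNReal NNReal Nat
open Filter MeasureTheory Topology

namespace Pool.Agent.Lib.MP_67d80e_pr

variable {d : ℕ}

/-- Poisson weights -/
noncomputable def pois (a : ℝ) (k : ℕ) : ℝ := Real.exp (-a) * (a ^ k / (k ! : ℕ))

lemma pois_nonneg {a : ℝ} (ha : 0 ≤ a) (k : ℕ) : 0 ≤ pois a k := by
  unfold pois; positivity

lemma hasSum_pois_mul_pow (a q : ℝ) :
    HasSum (fun k => pois a k * q ^ k) (Real.exp (a * (q - 1))) := by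
  have h1 := (NormedSpace.expSeries_div_hasSum_exp (a * q)).mul_left (Real.exp (-a))
  rw [← Real.exp_eq_exp_ℝ, ← Real.exp_add] at h1
  have h2 : -a + a * q = a * (q - 1) := by ring
  rw [h2] at h1
  have h3 : (fun k => pois a k * q ^ k) =
      fun i : ℕ => Real.exp (-a) * ((a * q) ^ i / (i ! : ℕ)) := by
    funext k
    unfold pois
    rw [mul_pow]
    ring
  rw [h3]
  exact h1

lemma hasSum_pois (a : ℝ) : HasSum (pois a) 1 := by
  have := hasSum_pois_mul_pow a 1
  simpa using this

lemma summable_pois_mul {a : ℝ} (ha : 0 ≤ a) {f : ℕ → ℝ} {C : ℝ} (hf : ∀ k, |f k| ≤ C) :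
    Summable (fun k => pois a k * f k) := by
  refine Summable.of_norm_bounded (g := fun k => pois a k * C)
    ((hasSum_pois a).summable.mul_right C) fun k => ?_
  rw [Real.norm_eq_abs, abs_mul, abs_of_nonneg (pois_nonneg ha k)]
  exact mul_le_mul_of_nonneg_left (hf k) (pois_nonneg ha k)

/-! ### the box dynamics in terms of averaging operators -/

lemma boxSum_eq (n : ℕ) (F : Fn d) : boxSum n F = ((box d n).card : ℝ) • PB d n F := by
  have hB : ((box d n).card : ℝ) ≠ 0 := by exact_mod_cast (card_box_pos (d := d) n).ne'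
  ext h
  rw [Pi.smul_apply, PB, avgOp_apply, smul_eq_mul, boxSum]
  simp only [← ring_eq_ringSet]
  field_simp

lemma boxSum_iterate (n k : ℕ) (F : Fn d) :
    (boxSum n)^[k] F = ((box d n).card : ℝ) ^ k • (PB d n ^ k) F := by
  induction k generalizing F with
  | zero => simp
  | succ k ih =>
    rw [Function.iterate_succ_apply, ih, boxSum_eq, map_smul, smul_smul, pow_succ, pow_succ,
      Module.End.mul_apply]

lemma boxExpect_eq (n : ℕ) (t : ℝ) (F : Fn d) (h : Conf d) :
    boxExpect n t F h = ∑' k, pois ((box d n).card * t) k * (PB d n ^ k) F h := by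
  unfold boxExpect
  refine tsum_congr fun k => ?_
  rw [boxSum_iterate, Pi.smul_apply, smul_eq_mul]
  unfold pois
  rw [mul_pow]
  ring

lemma abs_PB_pow_le {n : ℕ} {G : Fn d} {C : ℝ} (hC : ∀ h, |G h| ≤ C) (k : ℕ) (h : Conf d) :
    |(PB d n ^ k) G h| ≤ C := ((isMarkov_PB n).pow k).abs_le hC h

lemma summable_box {n : ℕ} {t : ℝ} (ht : 0 ≤ t) {G : Fn d} {C : ℝ} (hC : ∀ h, |G h| ≤ C)
    (h : Conf d) : Summable (fun k => pois ((box d n).card * t) k * (PB d n ^ k) G h) :=
  summable_pois_mul (by positivity) fun k => abs_PB_pow_le hC k h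

lemma abs_boxExpect_le {n : ℕ} {t : ℝ} (ht : 0 ≤ t) {G : Fn d} {C : ℝ} (hC : ∀ h, |G h| ≤ C)
    (h : Conf d) : |boxExpect n t G h| ≤ C := by
  rw [boxExpect_eq, ← Real.norm_eq_abs]
  have h1 := (hasSum_pois ((box d n).card * t)).mul_right C
  rw [one_mul] at h1
  refine tsum_of_norm_bounded h1 fun k => ?_
  rw [Real.norm_eq_abs, abs_mul, abs_of_nonneg (pois_nonneg (by positivity) k)]
  exact mul_le_mul_of_nonneg_left (abs_PB_pow_le hC k h) (pois_nonneg (by positivity) k)

/-! ### comparison of two consecutive boxes -/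

lemma box_subset_succ (n : ℕ) : box d n ⊆ box d (n + 1) := by
  intro x hx
  rw [mem_box_iff_nrm] at hx ⊢
  omega

/-- the number of sites in a shell, as a real number -/
noncomputable def shl (d n : ℕ) : ℝ := (box d (n + 1)).card - (box d n).card

lemma shl_nonneg (n : ℕ) : 0 ≤ shl d n := by
  unfold shl
  have : ((box d n).card : ℝ) ≤ (box d (n + 1)).card := by
    exact_mod_cast Finset.card_le_card (box_subset_succ n)
  linarith

/-- the operator of one ring of the larger box in which the rings outside of the smaller one have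
no effect -/
noncomputable def Pl (d n : ℕ) : Module.End ℝ (Fn d) :=
  ((box d (n + 1)).card : ℝ)⁻¹ • (((box d n).card : ℝ) • PB d n + shl d n • 1)

lemma Pl_apply (n : ℕ) (v : Fn d) (g : Conf d) :
    Pl d n v g = ((box d (n + 1)).card : ℝ)⁻¹ *
      ((∑ x ∈ box d n, v (ring x g)) + shl d n * v g) := by
  have hB : ((box d n).card : ℝ) ≠ 0 := by exact_mod_cast (card_box_pos (d := d) n).ne'
  rw [Pl, LinearMap.smul_apply, LinearMap.add_apply, LinearMap.smul_apply, LinearMap.smul_apply,
    Module.End.one_apply, Pi.smul_apply, Pi.add_apply, Pi.smul_apply, Pi.smul_apply,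
    smul_eq_mul, smul_eq_mul, smul_eq_mul, PB, avgOp_apply]
  simp only [← ring_eq_ringSet]
  congr 2
  field_simp

lemma W_filt (n k : ℕ) (G : Fn d) (g : Conf d) :
    W (n + 1) k (fun w => G (act (filt n w) g)) = (Pl d n ^ k) G g := by
  classical
  have hB : ((box d n).card : ℝ) ≠ 0 := by exact_mod_cast (card_box_pos (d := d) n).ne'
  induction k generalizing g with
  | zero => simp [W_zero, filt, act_nil]
  | succ k ih =>
    rw [W_succ, pow_succ', Module.End.mul_apply]
    rw [Pl_apply, ← Finset.sum_sdiff (box_subset_succ n)]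
    congr 1
    rw [add_comm]
    congr 1
    · refine Finset.sum_congr rfl fun x hx => ?_
      rw [← ih]
      congr 1
      ext w
      rw [filt_cons_of_mem hx, act_cons]
    · have h2 : ∀ x ∈ box d (n + 1) \ box d n, W (n + 1) k (fun w => G (act (filt n (x :: w)) g)) =
          (Pl d n ^ k) G g := by
        intro x hx
        rw [← ih]
        congr 1
        ext w
        rw [filt_cons_of_notMem (Finset.mem_sdiff.1 hx).2]
      rw [Finset.sum_congr rfl h2, Finset.sum_const, nsmul_eq_mul,
        Finset.card_sdiff_of_subset (box_subset_succ n),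
        Nat.cast_sub (Finset.card_le_card (box_subset_succ n))]
      rfl

/-- thinning -/
lemma thinning {n : ℕ} {t : ℝ} (ht : 0 ≤ t) {G : Fn d} {C : ℝ} (hC : ∀ h, |G h| ≤ C)
    (g : Conf d) :
    ∑' k, pois ((box d (n + 1)).card * t) k * (Pl d n ^ k) G g = boxExpect n t G g := by
  have hB' : ((box d (n + 1)).card : ℝ) ≠ 0 := by
    exact_mod_cast (card_box_pos (d := d) (n + 1)).ne'
  set m' : ℝ := ((box d (n + 1)).card : ℝ) with hm'
  set m : ℝ := ((box d n).card : ℝ) with hm
  set c : ℝ := shl d n with hc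
  have hcm : c = m' - m := rfl
  have hm0 : 0 ≤ m := Nat.cast_nonneg _
  let a : ℕ → ℝ := fun i => (m * t) ^ i / (i ! : ℕ) * (PB d n ^ i) G g
  let b : ℕ → ℝ := fun j => (c * t) ^ j / (j ! : ℕ)
  have hb : HasSum b (Real.exp (c * t)) := by
    have := NormedSpace.expSeries_div_hasSum_exp (c * t)
    rwa [← Real.exp_eq_exp_ℝ] at this
  have hbn : Summable fun j => ‖b j‖ := by
    have h1 : ∀ j, ‖b j‖ = b j := fun j => by
      rw [Real.norm_eq_abs, abs_of_nonneg]
      have := shl_nonneg (d := d) n
      positivity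
    simp_rw [h1]
    exact hb.summable
  have han : Summable fun i => ‖a i‖ := by
    have h1 := NormedSpace.expSeries_div_hasSum_exp (m * t)
    refine Summable.of_nonneg_of_le (fun i => norm_nonneg _) (fun i => ?_)
      (h1.summable.mul_right C)
    rw [Real.norm_eq_abs, abs_mul, abs_of_nonneg (by positivity)]
    exact mul_le_mul_of_nonneg_left (abs_PB_pow_le hC i g) (by positivity)
  have hprod := tsum_mul_tsum_eq_tsum_sum_antidiagonal_of_summable_norm han hbn
  have hterm : ∀ k, pois (m' * t) k * (Pl d n ^ k) G g =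
      Real.exp (-(m' * t)) * ∑ p ∈ Finset.HasAntidiagonal.antidiagonal k, a p.1 * b p.2 := by
    intro k
    have hPl : (Pl d n ^ k) G g = (m'⁻¹) ^ k * ∑ p ∈ Finset.HasAntidiagonal.antidiagonal k,
        ((k.choose p.1 : ℕ) : ℝ) * (c ^ p.2 * (m ^ p.1 * (PB d n ^ p.1) G g)) := by
      have h1 : Pl d n ^ k = (m'⁻¹) ^ k • (m • PB d n + c • (1 : Module.End ℝ (Fn d))) ^ k := by
        rw [Pl, smul_pow]
      have hcomm : Commute (m • PB d n) (c • (1 : Module.End ℝ (Fn d))) :=
        (Commute.one_right _).smul_right c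
      rw [h1, LinearMap.smul_apply, Pi.smul_apply, smul_eq_mul, hcomm.add_pow',
        LinearMap.sum_apply, Finset.sum_apply]
      congr 1
      refine Finset.sum_congr rfl fun p _ => ?_
      have h8 : ((c • (1 : Module.End ℝ (Fn d))) ^ p.2) G = c ^ p.2 • G := by
        rw [smul_pow, one_pow]
        rfl
      rw [LinearMap.smul_apply, Pi.smul_apply, Module.End.mul_apply, h8, map_smul, smul_pow,
        LinearMap.smul_apply]
      simp only [Pi.smul_apply, smul_eq_mul, nsmul_eq_mul]
    rw [hPl, Finset.mul_sum, Finset.mul_sum, Finset.mul_sum]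
    refine Finset.sum_congr rfl fun p hp => ?_
    rw [Finset.HasAntidiagonal.mem_antidiagonal] at hp
    have h2 : (k ! : ℝ) = (k.choose p.1 : ℝ) * (p.1 ! : ℕ) * (p.2 ! : ℕ) := by
      have := Nat.add_choose_mul_factorial_mul_factorial p.2 p.1
      rw [add_comm p.2 p.1, hp, mul_right_comm] at this
      exact_mod_cast this.symm
    have h3 : ((p.1 ! : ℕ) : ℝ) ≠ 0 := by exact_mod_cast (Nat.factorial_pos p.1).ne'
    have h4 : ((p.2 ! : ℕ) : ℝ) ≠ 0 := by exact_mod_cast (Nat.factorial_pos p.2).ne'
    have h5 : ((k.choose p.1 : ℕ) : ℝ) ≠ 0 := by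
      have : 0 < k.choose p.1 := Nat.choose_pos (by omega)
      exact_mod_cast this.ne'
    simp only [pois, a, b]
    rw [h2, mul_pow m' t k, mul_pow m t, mul_pow c t, inv_pow]
    have h6 : t ^ k = t ^ p.1 * t ^ p.2 := by rw [← pow_add, hp]
    have h7 : m' ^ k ≠ 0 := pow_ne_zero k hB'
    rw [h6]
    field_simp
  simp_rw [hterm]
  rw [tsum_mul_left, ← hprod, hb.tsum_eq, boxExpect_eq]
  have h1 : ∀ k, pois (m * t) k * (PB d n ^ k) G g = Real.exp (-(m * t)) * a k := by
    intro k
    simp only [pois, a]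
    ring
  simp_rw [← hm, h1]
  rw [tsum_mul_left]
  have h2 : Real.exp (-(m * t)) = Real.exp (-(m' * t)) * Real.exp (c * t) := by
    rw [← Real.exp_add, hcm]
    congr 1
    ring
  rw [h2]
  ring

/-- two consecutive boxes give almost the same expectations -/
lemma boxExpect_succ_sub {S : Finset (Site d)} {G : Fn d} (hG : DepOn S G) {C : ℝ}
    (hC : ∀ h, |G h| ≤ C) {t : ℝ} (ht : 0 ≤ t) (n : ℕ) (g : Conf d) :
    |boxExpect (n + 1) t G g - boxExpect n t G g| ≤
      2 * C * wgt S * Real.exp (4 * d * t) / 2 ^ (n + 1) := by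
  have hm : (0 : ℝ) < (box d (n + 1)).card := by exact_mod_cast card_box_pos (d := d) (n + 1)
  have hC0 : 0 ≤ C := (abs_nonneg _).trans (hC g)
  rw [← thinning (n := n) ht hC g, boxExpect_eq (n + 1)]
  have hs1 := summable_box (n := n + 1) ht hC g
  have hs2 : Summable (fun k => pois ((box d (n + 1)).card * t) k * (Pl d n ^ k) G g) := by
    refine summable_pois_mul (C := C) (by positivity) fun k => ?_
    rw [← W_filt, abs_le]
    constructor
    · rw [← W_const (d := d) (n + 1) k (-C)]
      exact W_mono _ _ fun w => (abs_le.1 (hC _)).1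
    · rw [← W_const (d := d) (n + 1) k C]
      exact W_mono _ _ fun w => (abs_le.1 (hC _)).2
  rw [← hs1.tsum_sub hs2, ← Real.norm_eq_abs]
  have h1 : (box d (n + 1)).card * t * ((1 + 4 * d / (box d (n + 1)).card : ℝ) - 1) =
      4 * d * t := by
    field_simp
    ring
  have h2 := (hasSum_pois_mul_pow ((box d (n + 1)).card * t)
    (1 + 4 * d / (box d (n + 1)).card)).mul_left (2 * C * wgt S / 2 ^ (n + 1))
  rw [h1] at h2
  have h3 : 2 * C * wgt S / 2 ^ (n + 1) * Real.exp (4 * d * t) =
      2 * C * wgt S * Real.exp (4 * d * t) / 2 ^ (n + 1) := by ring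
  rw [← h3]
  refine tsum_of_norm_bounded h2 fun k => ?_
  rw [← mul_sub, Real.norm_eq_abs, abs_mul, abs_of_nonneg (pois_nonneg (by positivity) k)]
  have h4 : |(PB d (n + 1) ^ k) G g - (Pl d n ^ k) G g| ≤
      2 * C * wgt S / 2 ^ (n + 1) * (1 + 4 * d / (box d (n + 1)).card) ^ k := by
    rw [← W_filt, PB_pow_apply, ← map_sub]
    have h5 : ∀ w, |G (act w g) - G (act (filt n w) g)| ≤
        2 * C / 2 ^ (n + 1) * wgt (reach S w) := by
      intro w
      by_cases hw : reach S w ⊆ box d n
      · have : G (act w g) = G (act (filt n w) g) := hG _ _ (act_filt hw g)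
        rw [this, sub_self, abs_zero]
        have := wgt_nonneg (reach S w)
        positivity
      · have h6 := one_le_of_not_subset hw
        have h7 : |G (act w g) - G (act (filt n w) g)| ≤ 2 * C := by
          refine (abs_sub _ _).trans ?_
          have h8 := hC (act w g)
          have h9 := hC (act (filt n w) g)
          linarith
        refine h7.trans ?_
        have h10 := mul_le_mul_of_nonneg_left h6 (by positivity : 0 ≤ 2 * C)
        rw [mul_one] at h10
        refine h10.trans (le_of_eq ?_)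
        ring
    have h6 : |W (n + 1) k ((fun w => G (act w g)) - fun w => G (act (filt n w) g))| ≤
        W (n + 1) k (fun w => 2 * C / 2 ^ (n + 1) * wgt (reach S w)) := by
      rw [abs_le]
      constructor
      · rw [← map_neg]
        exact W_mono _ _ fun w => (abs_le.1 (h5 w)).1
      · exact W_mono _ _ fun w => (abs_le.1 (h5 w)).2
    refine h6.trans ?_
    have h7 : (fun w => 2 * C / 2 ^ (n + 1) * wgt (reach S w)) =
        (2 * C / 2 ^ (n + 1)) • (fun w => wgt (reach S w)) := rfl
    rw [h7, map_smul, smul_eq_mul]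
    have h8 := mul_le_mul_of_nonneg_left (W_wgt_le S (n + 1) k)
      (by positivity : 0 ≤ 2 * C / 2 ^ (n + 1))
    refine h8.trans (le_of_eq ?_)
    ring
  have h5 := mul_le_mul_of_nonneg_left h4
    (pois_nonneg (show 0 ≤ ((box d (n + 1)).card : ℝ) * t by positivity) k)
  refine h5.trans (le_of_eq ?_)
  ring

/-- the expectations along the boxes converge -/
theorem tendsto_boxExpect {G : Fn d} (hG : IsLocal G) (hGb : IsBdd G) {t : ℝ} (ht : 0 ≤ t)
    (g : Conf d) : Tendsto (fun n => boxExpect n t G g) atTop (𝓝 (expect t G g)) := by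
  obtain ⟨S, hS⟩ := hG
  obtain ⟨C, hC⟩ := hGb
  have h1 : CauchySeq fun n => boxExpect n t G g := by
    refine cauchySeq_of_le_geometric (1 / 2) (C * wgt S * Real.exp (4 * d * t)) (by norm_num)
      fun n => ?_
    rw [Real.dist_eq, abs_sub_comm]
    refine (boxExpect_succ_sub hS hC ht n g).trans (le_of_eq ?_)
    rw [pow_succ, one_div, inv_pow]
    field_simp
  exact CauchySeq.tendsto_limUnder h1

end Pool.Agent.Lib.MP_67d80e_pr
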