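import Pool.Agent.Lib.MP_67d80e_pr.Height

set_option autoImplicit false

open scoped BigOperators
open Filter MeasureTheory

namespace Pool.Agent.Lib.MP_67d80e_pr

variable {d : ℕ}

/-- the lateral unit vectors -/
def latV (i0 : Fin d) : Finset (Site d) :=
  (Finset.univ.erase i0).image (fun i => e i) ∪ (Finset.univ.erase i0).image (fun i => -e i)

lemma mem_latV {i0 : Fin d} {v : Site d} : v ∈ latV i0 ↔ ∃ i, i ≠ i0 ∧ (v = e i ∨ v = -e i) := by
  unfold latV
  simp only [Finset.mem_union, Finset.mem_image, Finset.mem_erase, Finset.mem_univ, and_true]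
  constructor
  · rintro (⟨i, hi, rfl⟩ | ⟨i, hi, rfl⟩)
    · exact ⟨i, hi, Or.inl rfl⟩
    · exact ⟨i, hi, Or.inr rfl⟩
  · rintro ⟨i, hi, rfl | rfl⟩
    · exact Or.inl ⟨i, hi, rfl⟩
    · exact Or.inr ⟨i, hi, rfl⟩

lemma e_apply_self (i : Fin d) : (e i : Site d) i = 1 := Pi.single_eq_same _ _

lemma e_apply_ne {i j : Fin d} (h : j ≠ i) : (e i : Site d) j = 0 := Pi.single_eq_of_ne h _

lemma e_injective : Function.Injective (e : Fin d → Site d) := by
  intro i j h
  by_contra hne
  have h1 : (e i : Site d) i = (e j : Site d) i := by rw [h]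
  rw [e_apply_self, e_apply_ne hne] at h1
  exact one_ne_zero h1

lemma card_latV (i0 : Fin d) : (latV i0).card = 2 * (d - 1) := by
  unfold latV
  rw [Finset.card_union_of_disjoint, Finset.card_image_of_injective _ e_injective,
    Finset.card_image_of_injective _ (fun i j h => e_injective (neg_injective h)),
    Finset.card_erase_of_mem (Finset.mem_univ _), Finset.card_univ, Fintype.card_fin]
  · ring
  · rw [Finset.disjoint_left]
    intro v hv hv'
    rw [Finset.mem_image] at hv hv'
    obtain ⟨i, -, rfl⟩ := hv
    obtain ⟨j, -, h⟩ := hv'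
    have h1 := congrFun h i
    rw [Pi.neg_apply, e_apply_self] at h1
    by_cases hij : i = j
    · subst hij
      rw [e_apply_self] at h1
      norm_num at h1
    · rw [e_apply_ne hij] at h1
      norm_num at h1

lemma latV_apply {i0 : Fin d} {v : Site d} (hv : v ∈ latV i0) : v i0 = 0 := by
  obtain ⟨i, hi, rfl | rfl⟩ := mem_latV.1 hv
  · exact e_apply_ne (Ne.symm hi)
  · rw [Pi.neg_apply, e_apply_ne (Ne.symm hi), neg_zero]

lemma ne_zero_of_mem_latV {i0 : Fin d} {v : Site d} (hv : v ∈ latV i0) : v ≠ 0 := by
  obtain ⟨i, hi, rfl | rfl⟩ := mem_latV.1 hv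
  · intro h
    have := congrFun h i
    rw [e_apply_self] at this
    exact one_ne_zero this
  · intro h
    have := congrFun h i
    rw [Pi.neg_apply, e_apply_self] at this
    norm_num at this

/-- if `s` and `s - v` are unit vectors and `v` is nonzero, then `s` is determined by its
direction -/
lemma latV_common {i0 : Fin d} {s v : Site d} (hs : s ∈ latV i0) (hsv : s - v ∈ latV i0)
    (hv : v ≠ 0) : ∃ k, v k ≠ 0 ∧ s = Int.sign (v k) • e k := by
  obtain ⟨k, -, hk⟩ := mem_latV.1 hs
  obtain ⟨j, -, hj⟩ := mem_latV.1 hsv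
  refine ⟨k, ?_⟩
  have hkk : (e k : Site d) k = 1 := e_apply_self k
  have hvk : v k = s k - (s - v) k := by simp
  by_cases hjk : j = k
  · subst hjk
    rcases hk with rfl | rfl
    · rcases hj with hj | hj
      · exact absurd (sub_eq_self.1 hj) hv
      · rw [hj] at hvk
        rw [Pi.neg_apply, hkk] at hvk
        have : v j = 2 := by omega
        rw [this]
        refine ⟨by norm_num, ?_⟩
        have : Int.sign 2 = 1 := rfl
        rw [this]
        simp
    · rcases hj with hj | hj
      · rw [hj] at hvk
        rw [Pi.neg_apply, hkk] at hvk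
        have : v j = -2 := by omega
        rw [this]
        refine ⟨by norm_num, ?_⟩
        have : Int.sign (-2) = -1 := rfl
        rw [this]
        simp
      · exact absurd (sub_eq_self.1 hj) hv
  · have hjk' : (e j : Site d) k = 0 := e_apply_ne (Ne.symm hjk)
    have h1 : (s - v) k = 0 := by
      rcases hj with hj | hj
      · rw [hj, hjk']
      · rw [hj, Pi.neg_apply, hjk', neg_zero]
    rw [h1, sub_zero] at hvk
    rcases hk with rfl | rfl
    · rw [hkk] at hvk
      rw [hvk]
      exact ⟨by norm_num, by simp⟩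
    · rw [Pi.neg_apply, hkk] at hvk
      rw [hvk]
      refine ⟨by norm_num, ?_⟩
      have : Int.sign (-1) = -1 := rfl
      rw [this]
      simp

lemma latV_common_card {i0 : Fin d} {v : Site d} (hv : v ≠ 0) :
    ((latV i0).filter fun s => s - v ∈ latV i0).card ≤ 2 := by
  rcases Finset.eq_empty_or_nonempty ((latV i0).filter fun s => s - v ∈ latV i0) with h0 | ⟨s0, h0⟩
  · rw [h0]; simp
  rw [Finset.mem_filter] at h0
  obtain ⟨i, -, hi⟩ := mem_latV.1 h0.1
  obtain ⟨j, -, hj⟩ := mem_latV.1 h0.2
  have hsupp : ∀ k, k ≠ i → k ≠ j → v k = 0 := by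
    intro k hki hkj
    have h1 : s0 k = 0 := by
      rcases hi with hi | hi
      · rw [hi, e_apply_ne hki]
      · rw [hi, Pi.neg_apply, e_apply_ne hki, neg_zero]
    have h2 : (s0 - v) k = 0 := by
      rcases hj with hj | hj
      · rw [hj, e_apply_ne hkj]
      · rw [hj, Pi.neg_apply, e_apply_ne hkj, neg_zero]
    rw [Pi.sub_apply, h1] at h2
    omega
  have hsub : ((latV i0).filter fun s => s - v ∈ latV i0) ⊆
      {Int.sign (v i) • e i, Int.sign (v j) • e j} := by
    intro s hs
    rw [Finset.mem_filter] at hs
    obtain ⟨k, hk, hsk⟩ := latV_common hs.1 hs.2 hv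
    rw [Finset.mem_insert, Finset.mem_singleton]
    by_cases hki : k = i
    · left; rw [hsk, hki]
    · by_cases hkj : k = j
      · right; rw [hsk, hkj]
      · exact absurd (hsupp k hki hkj) hk
  exact (Finset.card_le_card hsub).trans Finset.card_le_two

/-- the lateral boundary of a finite set -/
def bdry (i0 : Fin d) (M : Finset (Site d)) : Finset (Site d) :=
  (M.biUnion fun z => (latV i0).image fun s => z + s) \ M

lemma mem_bdry {i0 : Fin d} {M : Finset (Site d)} {x : Site d} :
    x ∈ bdry i0 M ↔ (∃ z ∈ M, ∃ s ∈ latV i0, x = z + s) ∧ x ∉ M := by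
  unfold bdry
  simp only [Finset.mem_sdiff, Finset.mem_biUnion, Finset.mem_image]
  constructor
  · rintro ⟨⟨z, hz, s, hs, rfl⟩, h⟩
    exact ⟨⟨z, hz, s, hs, rfl⟩, h⟩
  · rintro ⟨⟨z, hz, s, hs, rfl⟩, h⟩
    exact ⟨⟨z, hz, s, hs, rfl⟩, h⟩

lemma card_union_ge (i0 : Fin d) (M : Finset (Site d)) :
    (2 * (d - 1 : ℕ) : ℤ) * M.card - M.card * (M.card - 1) ≤
      ((M.biUnion fun z => (latV i0).image fun s => z + s).card : ℤ) := by
  induction M using Finset.induction_on with
  | empty => simp
  | insert a M ha ih =>
    rw [Finset.biUnion_insert, Finset.card_insert_of_notMem ha]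
    have h1 := Finset.card_union_add_card_inter ((latV i0).image fun s => a + s)
      (M.biUnion fun z => (latV i0).image fun s => z + s)
    have h2 : ((latV i0).image fun s => a + s).card = 2 * (d - 1) := by
      rw [Finset.card_image_of_injective _ (add_right_injective a), card_latV]
    have h3 : (((latV i0).image fun s => a + s) ∩
        (M.biUnion fun z => (latV i0).image fun s => z + s)).card ≤ M.card * 2 := by
      rw [Finset.inter_biUnion]
      refine (Finset.card_biUnion_le).trans ?_
      rw [← smul_eq_mul, ← Finset.sum_const]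
      refine Finset.sum_le_sum fun z hz => ?_
      have hne : z - a ≠ 0 := by
        intro h
        rw [sub_eq_zero] at h
        exact ha (h ▸ hz)
      refine le_trans ?_ (latV_common_card (i0 := i0) hne)
      have h4 : ((latV i0).image fun s => a + s) ∩ ((latV i0).image fun s => z + s) ⊆
          ((latV i0).filter fun s => s - (z - a) ∈ latV i0).image fun s => a + s := by
        intro u hu
        rw [Finset.mem_inter, Finset.mem_image, Finset.mem_image] at hu
        obtain ⟨⟨s, hs, rfl⟩, s', hs', hss⟩ := hu
        rw [Finset.mem_image]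
        refine ⟨s, ?_, rfl⟩
        rw [Finset.mem_filter]
        refine ⟨hs, ?_⟩
        have : s - (z - a) = s' := by
          have : s' = a + s - z := by rw [← hss]; abel
          rw [this]; abel
        rw [this]
        exact hs'
      exact (Finset.card_le_card h4).trans Finset.card_image_le
    rw [h2] at h1
    have h5 : ((((latV i0).image fun s => a + s) ∪
        (M.biUnion fun z => (latV i0).image fun s => z + s)).card : ℤ) +
        ((((latV i0).image fun s => a + s) ∩
        (M.biUnion fun z => (latV i0).image fun s => z + s)).card : ℤ) =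
        2 * (d - 1 : ℕ) + ((M.biUnion fun z => (latV i0).image fun s => z + s).card : ℤ) := by
      exact_mod_cast h1
    have h6 : ((((latV i0).image fun s => a + s) ∩
        (M.biUnion fun z => (latV i0).image fun s => z + s)).card : ℤ) ≤ M.card * 2 := by
      exact_mod_cast h3
    push_cast
    nlinarith

/-- the isoperimetric estimate -/
lemma card_bdry_ge (i0 : Fin d) (M : Finset (Site d)) :
    (M.card : ℤ) * (2 * (d - 1 : ℕ) - M.card) ≤ ((bdry i0 M).card : ℤ) := by
  have h1 := card_union_ge i0 M
  have h2 : (M.biUnion fun z => (latV i0).image fun s => z + s).card ≤ (bdry i0 M).card + M.card :=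
    by
    unfold bdry
    have := Finset.card_sdiff_add_card (M.biUnion fun z => (latV i0).image fun s => z + s) M
    have h3 := Finset.card_le_card (Finset.subset_union_left
      (s₁ := M.biUnion fun z => (latV i0).image fun s => z + s) (s₂ := M))
    omega
  have h3 : ((M.biUnion fun z => (latV i0).image fun s => z + s).card : ℤ) ≤
      (bdry i0 M).card + M.card := by exact_mod_cast h2
  nlinarith

lemma card_bdry_le (i0 : Fin d) (M : Finset (Site d)) :
    (bdry i0 M).card ≤ M.card * (2 * (d - 1)) := by
  unfold bdry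
  refine (Finset.card_le_card Finset.sdiff_subset).trans ?_
  refine (Finset.card_biUnion_le).trans ?_
  rw [← smul_eq_mul, ← Finset.sum_const]
  refine Finset.sum_le_sum fun z _ => ?_
  exact Finset.card_image_le.trans (card_latV i0).le

end Pool.Agent.Lib.MP_67d80e_pr
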