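import Pool.Agent.Lib.MP_67d80e_pr.Ops

set_option autoImplicit false

open scoped BigOperators
open Filter MeasureTheory

namespace Pool.Agent.Lib.MP_67d80e_pr

variable {d : ℕ}

/-- the class of a site modulo `N` -/
def cls (N : ℕ) (x : Site d) : Fin d → ZMod N := fun i => (x i : ZMod N)

/-- the set of the sites of a given class -/
def TS (N : ℕ) (a : Fin d → ZMod N) : Set (Site d) := {x | cls N x = a}

lemma mem_TS {N : ℕ} {a : Fin d → ZMod N} {x : Site d} : x ∈ TS N a ↔ cls N x = a := Iff.rfl

/-- the operator of one ring of periodic clocks -/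
noncomputable def PT (d N : ℕ) [NeZero N] : Module.End ℝ (Fn d) :=
  avgOp (Finset.univ : Finset (Fin d → ZMod N)) (fun a => ringSet (TS N a))

/-- the operator of one ring in the box -/
noncomputable def PB (d R : ℕ) : Module.End ℝ (Fn d) :=
  avgOp (box d R) (fun x => ringSet {x})

/-- the tilted flat configuration -/
def tilt (i0 : Fin d) : Conf d := fun x => x i0

lemma zero_mem_box (R : ℕ) : (0 : Site d) ∈ box d R := by
  simp [box]

lemma box_nonempty (R : ℕ) : (box d R).Nonempty := ⟨0, zero_mem_box R⟩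

lemma mem_box {R : ℕ} {x : Site d} : x ∈ box d R ↔ ∀ i, |x i| ≤ R := by
  simp [box, abs_le]

lemma card_box_pos (R : ℕ) : 0 < (box d R).card := (box_nonempty R).card_pos

section
variable (N : ℕ) [NeZero N]

/-- the number of classes -/
noncomputable def nT (d N : ℕ) [NeZero N] : ℕ :=
  (Finset.univ : Finset (Fin d → ZMod N)).card

lemma nT_pos : 0 < nT d N := Finset.card_pos.2 Finset.univ_nonempty

lemma isMarkov_PT : IsMarkov (PT d N) := isMarkov_avgOp Finset.univ_nonempty _

lemma isMarkov_PB (R : ℕ) : IsMarkov (PB d R) := isMarkov_avgOp (box_nonempty R) _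

lemma PT_sub_apply (F : Fn d) (h : Conf d) :
    (nT d N : ℝ) * ((PT d N F) h - F h) = ∑ a : Fin d → ZMod N, (F (ringSet (TS N a) h) - F h) := by
  have hc : (nT d N : ℝ) ≠ 0 := by exact_mod_cast (nT_pos (d := d) N).ne'
  rw [PT, avgOp_apply, Finset.sum_sub_distrib, Finset.sum_const, nsmul_eq_mul]
  change (nT d N : ℝ) * ((nT d N : ℝ)⁻¹ * _ - _) = _ - (nT d N : ℝ) * _
  field_simp

lemma PB_sub_apply (R : ℕ) (F : Fn d) (h : Conf d) :
    ((box d R).card : ℝ) * ((PB d R F) h - F h) = ∑ x ∈ box d R, (F (ring x h) - F h) := by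
  have hc : ((box d R).card : ℝ) ≠ 0 := by exact_mod_cast (card_box_pos (d := d) R).ne'
  rw [PB, avgOp_apply, Finset.sum_sub_distrib, Finset.sum_const, nsmul_eq_mul]
  simp only [← ring_eq_ringSet]
  field_simp

/-- the growth of the height at `x` under the periodic dynamics -/
lemma PT_hgt_sub (x : Site d) (h : Conf d) :
    (nT d N : ℝ) * ((PT d N (hgt x)) h - hgt x h) = newHeight h x - h x := by
  rw [PT_sub_apply, Finset.sum_eq_single (cls N x)]
  · unfold hgt
    rw [ringSet_of_mem (mem_TS.2 rfl)]
  · intro a _ ha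
    unfold hgt
    rw [ringSet_of_notMem (fun hx => ha (mem_TS.1 hx).symm), sub_self]
  · intro hx
    exact absurd (Finset.mem_univ _) hx

omit [NeZero N] in
lemma cls_injOn {R : ℕ} (hR : 2 * R < N) : Set.InjOn (cls (d := d) N) (box d R) := by
  intro x hx y hy hxy
  rw [Finset.mem_coe, mem_box] at hx hy
  ext i
  have h1 : ((x i : ℤ) : ZMod N) = ((y i : ℤ) : ZMod N) := congrFun hxy i
  rw [ZMod.intCast_eq_intCast_iff_dvd_sub] at h1
  have h2 := abs_le.1 (hx i)
  have h3 := abs_le.1 (hy i)
  obtain ⟨c, hc⟩ := h1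
  by_contra hne
  have hc0 : c ≠ 0 := by
    rintro rfl
    apply hne
    omega
  have h4 : (N : ℤ) ≤ |y i - x i| := by
    rw [hc, abs_mul, abs_of_nonneg (by positivity : (0 : ℤ) ≤ (N : ℤ))]
    have : 1 ≤ |c| := Int.one_le_abs hc0
    nlinarith [(Nat.cast_nonneg N : (0 : ℤ) ≤ (N : ℤ))]
  have h5 : |y i - x i| ≤ 2 * R := by
    rw [abs_le]; constructor <;> linarith
  have h6 : (2 * R : ℤ) < N := by exact_mod_cast hR
  linarith

/-- for monotone functions periodic clocks dominate the clocks of a box -/
lemma PB_sub_le_PT_sub {R : ℕ} (hR : 2 * R < N) {u : Fn d} (hu : Monotone u) (h : Conf d) :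
    ((box d R).card : ℝ) * ((PB d R u) h - u h) ≤ (nT d N : ℝ) * ((PT d N u) h - u h) := by
  classical
  rw [PT_sub_apply, PB_sub_apply]
  have h1 : ∑ x ∈ box d R, (u (ring x h) - u h) ≤
      ∑ x ∈ box d R, (u (ringSet (TS N (cls N x)) h) - u h) := by
    refine Finset.sum_le_sum fun x _ => ?_
    have : ring x h ≤ ringSet (TS N (cls N x)) h := by
      rw [ring_eq_ringSet]
      exact ringSet_mono_set (by simp [mem_TS]) h
    linarith [hu this]
  refine h1.trans ?_
  rw [← Finset.sum_image (f := fun a => u (ringSet (TS N a) h) - u h) (cls_injOn N hR)]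
  refine Finset.sum_le_sum_of_subset_of_nonneg (Finset.subset_univ _) fun a _ _ => ?_
  have := hu (le_ringSet (TS N a) h)
  linarith

/-- monotone functions are preserved -/
lemma monotone_PB {R : ℕ} {u : Fn d} (hu : Monotone u) : Monotone (PB d R u) := by
  intro g h hgh
  rw [PB, avgOp_apply, avgOp_apply]
  refine mul_le_mul_of_nonneg_left (Finset.sum_le_sum fun x _ => ?_) (by positivity)
  exact hu (ringSet_mono _ hgh)

lemma le_PB {R : ℕ} {u : Fn d} (hu : Monotone u) (h : Conf d) : u h ≤ PB d R u h := by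
  have h1 : 0 ≤ ((box d R).card : ℝ) * ((PB d R u) h - u h) := by
    rw [PB_sub_apply]
    refine Finset.sum_nonneg fun x _ => ?_
    have : h ≤ ring x h := by
      rw [ring_eq_ringSet]
      exact le_ringSet _ h
    linarith [hu this]
  have h2 : (0 : ℝ) < (box d R).card := by exact_mod_cast card_box_pos (d := d) R
  nlinarith

lemma monotone_hgt (x : Site d) : Monotone (hgt x) := by
  intro g h hgh
  unfold hgt
  exact_mod_cast hgh x

lemma monotone_PB_pow (R i : ℕ) (x : Site d) : Monotone ((PB d R ^ i) (hgt x)) := by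
  induction i with
  | zero => simpa using monotone_hgt x
  | succ i ih =>
    rw [pow_succ', Module.End.mul_apply]
    exact monotone_PB ih

lemma hgt_le_PB_pow (R i : ℕ) (x : Site d) (h : Conf d) : hgt x h ≤ (PB d R ^ i) (hgt x) h := by
  induction i with
  | zero => simp
  | succ i ih =>
    rw [pow_succ', Module.End.mul_apply]
    exact ih.trans (le_PB (monotone_PB_pow R i x) h)

/-- the upper bound on the mean height -/
lemma mean_hgt_le {l : ℝ} (hl : 0 < l) (i0 : Fin d) (R j i : ℕ) (x : Site d) :
    (PT d N ^ j * PB d R ^ i) (hgt x) (tilt i0) ≤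
      x i0 + growC d l / l * ((j : ℝ) / nT d N + (i : ℝ) / (box d R).card) := by
  have hd : 1 ≤ d := Nat.one_le_iff_ne_zero.2 (by rintro rfl; exact i0.elim0)
  have hC := growC_nonneg hd hl.le
  have hT : (0 : ℝ) < nT d N := by exact_mod_cast nT_pos (d := d) N
  have hB : (0 : ℝ) < (box d R).card := by exact_mod_cast card_box_pos (d := d) R
  have h1 := expF_pow (d := d) (Finset.univ_nonempty (α := Fin d → ZMod N)) (TS N)
    (fun a _ b _ x hx hx' => (mem_TS.1 hx).symm.trans (mem_TS.1 hx')) hl.le i0 IsMarkov.id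
    (tilt i0) (K := 1) (fun x => by simp [expF, tilt]) j
  rw [one_mul] at h1
  have h2 := expF_pow (d := d) (box_nonempty R) (fun x => {x})
    (fun a _ b _ x hx hx' => by
      rw [Set.mem_singleton_iff] at hx hx'
      rw [← hx, ← hx']) hl.le i0 ((isMarkov_PT N).pow j) (tilt i0) h1 i x
  have hK1 : (0 : ℝ) < 1 + growC d l / (Finset.univ : Finset (Fin d → ZMod N)).card := by positivity
  have hK2 : (0 : ℝ) < 1 + growC d l / (box d R).card := by positivity
  have h3 := hgt_le_log hl (((isMarkov_PT N).pow j).mul ((isMarkov_PB R).pow i)) (tilt i0)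
    (by positivity) x h2
  refine h3.trans ?_
  rw [div_le_iff₀ hl, Real.log_mul (by positivity) (by positivity), Real.log_exp,
    Real.log_mul (by positivity) (by positivity), one_mul, Real.log_pow, Real.log_pow]
  have h4 : Real.log (1 + growC d l / (Finset.univ : Finset (Fin d → ZMod N)).card) ≤
      growC d l / nT d N := by
    have := Real.log_le_sub_one_of_pos hK1
    simpa [nT] using this
  have h5 : Real.log (1 + growC d l / (box d R).card) ≤ growC d l / (box d R).card := by
    have := Real.log_le_sub_one_of_pos hK2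
    linarith
  have h6 : (j : ℝ) * Real.log (1 + growC d l / (Finset.univ : Finset (Fin d → ZMod N)).card) ≤
      j * (growC d l / nT d N) := mul_le_mul_of_nonneg_left h4 (Nat.cast_nonneg j)
  have h7 : (i : ℝ) * Real.log (1 + growC d l / (box d R).card) ≤
      i * (growC d l / (box d R).card) := mul_le_mul_of_nonneg_left h5 (Nat.cast_nonneg i)
  have h8 : (x i0 + growC d l / l * ((j : ℝ) / nT d N + (i : ℝ) / (box d R).card)) * l =
      j * (growC d l / nT d N) + i * (growC d l / (box d R).card) + l * x i0 := by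
    field_simp
    ring
  rw [h8]
  linarith

end

end Pool.Agent.Lib.MP_67d80e_pr
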